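import Mathlib
import Pool.Agent.Helper10.GIT.Integral

/-!
# Sums over all maps and determinants
-/

open Finset

namespace Pool.Agent.Helper11.BD

open Pool.Agent.Helper10.GIT

variable {K : Type*} [Field K] {b : ℕ}

/-- the matrix of a map -/
def mapMat (f : Fin b → Fin b) : Matrix (Fin b) (Fin b) K :=
  Matrix.of fun i j => if f i = j then (1 : K) else 0

lemma det_mapMat (f : Fin b → Fin b) : (mapMat f : Matrix (Fin b) (Fin b) K).det = eps f := rfl

lemma det_submatrix_eps (M : Matrix (Fin b) (Fin b) K) (P Q : Fin b → Fin b) :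
    (Matrix.of fun s t => M (P s) (Q t)).det = eps P * eps Q * M.det := by
  have h1 : (Matrix.of fun s t => M (P s) (Q t)) = mapMat P * M * (mapMat Q).transpose := by
    ext s t
    rw [Matrix.mul_apply, sum_eq_single (Q t)]
    · rw [Matrix.mul_apply, sum_eq_single (P s)]
      · simp [mapMat]
      · intro r _ hr
        rw [mapMat, Matrix.of_apply, if_neg (fun h => hr h.symm), zero_mul]
      · intro h; exact absurd (mem_univ _) h
    · intro r _ hr
      have h2 : (mapMat Q : Matrix (Fin b) (Fin b) K).transpose r t = 0 := by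
        rw [Matrix.transpose_apply, mapMat, Matrix.of_apply, if_neg (fun h => hr h.symm)]
      rw [h2, mul_zero]
    · intro h; exact absurd (mem_univ _) h
  rw [h1, Matrix.det_mul, Matrix.det_mul, Matrix.det_transpose, det_mapMat, det_mapMat]
  ring

lemma eps_id : (eps (id : Fin b → Fin b) : K) = 1 := by
  have h1 : (mapMat id : Matrix (Fin b) (Fin b) K) = 1 := by
    ext i j
    rw [mapMat, Matrix.of_apply, Matrix.one_apply]
    rfl
  rw [← det_mapMat, h1, Matrix.det_one]

lemma eps_perm (τ : Equiv.Perm (Fin b)) : (eps τ : K) = ((Equiv.Perm.sign τ : ℤ) : K) := by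
  classical
  rw [eps_eq, sum_eq_single τ]
  · simp
  · intro π _ hπ
    have : ∃ i, π i ≠ τ i := by
      by_contra h
      push Not at h
      exact hπ (Equiv.ext h)
    obtain ⟨i, hi⟩ := this
    rw [prod_eq_zero (mem_univ i) (if_neg hi), mul_zero]
  · intro h; exact absurd (mem_univ _) h

/-- a determinant as a sum over all maps -/
lemma sum_eps_mul (N : Matrix (Fin b) (Fin b) K) :
    ∑ P : Fin b → Fin b, eps P * ∏ s, N (P s) s = N.det := by
  classical
  have h1 : ∀ P : Fin b → Fin b, (eps P : K) * ∏ s, N (P s) s =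
      ∑ π : Equiv.Perm (Fin b), if (π : Fin b → Fin b) = P then
        ((Equiv.Perm.sign π : ℤ) : K) * ∏ s, N (π s) s else 0 := by
    intro P
    rw [eps_eq, sum_mul]
    refine sum_congr rfl fun π _ => ?_
    by_cases h : (π : Fin b → Fin b) = P
    · rw [if_pos h, ← h]
      simp
    · rw [if_neg h]
      obtain ⟨i, hi⟩ := Function.ne_iff.mp h
      rw [prod_eq_zero (mem_univ i) (if_neg hi), mul_zero, zero_mul]
  rw [sum_congr rfl fun P _ => h1 P, sum_comm, Matrix.det_apply']
  refine sum_congr rfl fun π _ => ?_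
  rw [sum_ite_eq univ (π : Fin b → Fin b), if_pos (mem_univ _)]

/-- antisymmetrisation -/
lemma sum_sign_comp (φ : (Fin b → Fin b) → K) (P : Fin b → Fin b) :
    ∑ τ : Equiv.Perm (Fin b), ((Equiv.Perm.sign τ : ℤ) : K) * φ (P ∘ τ) =
      eps P * ∑ w : Fin b → Fin b, eps w * φ w := by
  classical
  have h1 : ∀ w : Fin b → Fin b, (eps w : K) * eps P =
      ∑ τ : Equiv.Perm (Fin b), if P ∘ τ = w then ((Equiv.Perm.sign τ : ℤ) : K) else 0 := by
    intro w
    have h2 := det_submatrix_eps (1 : Matrix (Fin b) (Fin b) K) w P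
    rw [Matrix.det_one, mul_one] at h2
    rw [← h2, ← Matrix.det_transpose, Matrix.det_apply']
    refine sum_congr rfl fun τ _ => ?_
    by_cases h : P ∘ τ = w
    · rw [if_pos h, prod_eq_one, mul_one]
      intro i _
      rw [Matrix.transpose_apply, Matrix.of_apply, ← h, Function.comp_apply, Matrix.one_apply_eq]
    · rw [if_neg h]
      obtain ⟨i, hi⟩ := Function.ne_iff.mp h
      rw [prod_eq_zero (mem_univ i), mul_zero]
      rw [Matrix.transpose_apply, Matrix.of_apply]
      exact Matrix.one_apply_ne (fun h' => hi h'.symm)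
  rw [mul_sum]
  have h3 : ∀ w : Fin b → Fin b, (eps P : K) * (eps w * φ w) =
      ∑ τ : Equiv.Perm (Fin b), if P ∘ τ = w then ((Equiv.Perm.sign τ : ℤ) : K) * φ (P ∘ τ)
        else 0 := by
    intro w
    have h4 : (eps P : K) * (eps w * φ w) = (eps w * eps P) * φ w := by ring
    rw [h4, h1, sum_mul]
    refine sum_congr rfl fun τ _ => ?_
    by_cases h : P ∘ τ = w
    · rw [if_pos h, if_pos h, h]
    · rw [if_neg h, if_neg h, zero_mul]
  rw [sum_congr rfl fun w _ => h3 w, sum_comm]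
  refine sum_congr rfl fun τ _ => ?_
  rw [sum_ite_eq univ (P ∘ τ), if_pos (mem_univ _)]

lemma sum_eps_sq : ∑ w : Fin b → Fin b, (eps w : K) * eps w = (b.factorial : K) := by
  classical
  have h1 := sum_sign_comp (K := K) (b := b) (fun w => eps w) id
  rw [eps_id, one_mul] at h1
  rw [← h1]
  have h2 : ∀ τ : Equiv.Perm (Fin b), ((Equiv.Perm.sign τ : ℤ) : K) *
      eps ((id : Fin b → Fin b) ∘ τ) = 1 := by
    intro τ
    have h3 : (id : Fin b → Fin b) ∘ τ = τ := rfl
    rw [h3, eps_perm, ← Int.cast_mul]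
    have h4 : ((Equiv.Perm.sign τ : ℤ)) * (Equiv.Perm.sign τ : ℤ) = 1 := by
      rcases Int.units_eq_one_or (Equiv.Perm.sign τ) with h | h <;> rw [h] <;> rfl
    rw [h4, Int.cast_one]
  rw [sum_congr rfl fun τ _ => h2 τ, sum_const, card_univ, Fintype.card_perm, Fintype.card_fin,
    nsmul_eq_mul, mul_one]

/-- the composition of maps -/
lemma eps_comp (g w : Fin b → Fin b) : (eps (g ∘ w) : K) = eps w * eps g := by
  have h1 := det_submatrix_eps (mapMat g : Matrix (Fin b) (Fin b) K) w id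
  rw [eps_id, mul_one, det_mapMat] at h1
  exact h1

lemma sum_eps_cons_sq [CharZero K] {n : ℕ} (β : Fin (n + 1)) :
    ∑ Q : Fin n → Fin (n + 1), (eps (Fin.cons β Q : Fin (n + 1) → Fin (n + 1)) : K) *
      eps (Fin.cons β Q : Fin (n + 1) → Fin (n + 1)) = (n.factorial : K) := by
  classical
  set c : Fin (n + 1) → K := fun β => ∑ Q : Fin n → Fin (n + 1),
    (eps (Fin.cons β Q : Fin (n + 1) → Fin (n + 1)) : K) *
      eps (Fin.cons β Q : Fin (n + 1) → Fin (n + 1)) with hc
  have h1 : ∀ (τ : Equiv.Perm (Fin (n + 1))) (β : Fin (n + 1)), c (τ β) = c β := by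
    intro τ β
    simp only [hc]
    rw [← Equiv.sum_comp (Equiv.arrowCongr (Equiv.refl (Fin n)) τ)]
    refine sum_congr rfl fun Q _ => ?_
    have h2 : (Fin.cons (τ β) (Equiv.arrowCongr (Equiv.refl (Fin n)) τ Q) :
        Fin (n + 1) → Fin (n + 1)) = τ ∘ (Fin.cons β Q : Fin (n + 1) → Fin (n + 1)) := by
      funext i
      refine Fin.cases ?_ (fun i => ?_) i
      · rfl
      · rfl
    rw [h2, eps_comp, eps_perm]
    have h4 : ((Equiv.Perm.sign τ : ℤ)) * (Equiv.Perm.sign τ : ℤ) = 1 := by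
      rcases Int.units_eq_one_or (Equiv.Perm.sign τ) with h | h <;> rw [h] <;> rfl
    have h5 : (((Equiv.Perm.sign τ : ℤ)) : K) * ((Equiv.Perm.sign τ : ℤ) : K) = 1 := by
      rw [← Int.cast_mul, h4, Int.cast_one]
    calc _ = (eps (Fin.cons β Q : Fin (n + 1) → Fin (n + 1)) : K) *
          eps (Fin.cons β Q : Fin (n + 1) → Fin (n + 1)) *
            ((((Equiv.Perm.sign τ : ℤ)) : K) * ((Equiv.Perm.sign τ : ℤ) : K)) := by ring
      _ = _ := by rw [h5, mul_one]
  have h2 : ∀ β', c β' = c β := by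
    intro β'
    have h3 := h1 (Equiv.swap β β') β
    rwa [Equiv.swap_apply_left] at h3
  have h3 : ∑ β', c β' = ((n + 1).factorial : K) := by
    rw [← sum_eps_sq (K := K) (b := n + 1), ← Equiv.sum_comp (Fin.consEquiv fun _ => Fin (n + 1)),
      Fintype.sum_prod_type]
    rfl
  rw [sum_congr rfl fun β' _ => h2 β', sum_const, card_univ, Fintype.card_fin, nsmul_eq_mul,
    Nat.factorial_succ, Nat.cast_mul] at h3
  exact mul_left_cancel₀ (Nat.cast_ne_zero.mpr (Nat.succ_ne_zero n)) h3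

/-- **Cramer's rule.** -/
theorem cramer [CharZero K] {n : ℕ} (M : Matrix (Fin (n + 1)) (Fin (n + 1)) K)
    (φ : (Fin (n + 1) → Fin (n + 1)) → (Fin (n + 1) → Fin (n + 1)) → K)
    (Y : Fin (n + 1) → Fin (n + 1) → K)
    (hY : ∀ α β, Y α β = ∑ τ : Equiv.Perm (Fin (n + 1)), ∑ σ : Equiv.Perm (Fin (n + 1)),
      ((Equiv.Perm.sign τ : ℤ) : K) * ((Equiv.Perm.sign σ : ℤ) : K) *
        ∑ P : Fin n → Fin (n + 1), ∑ Q : Fin n → Fin (n + 1), (∏ s, M (P s) (Q s)) *
          φ ((Fin.cons α P : Fin (n + 1) → Fin (n + 1)) ∘ τ)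
            ((Fin.cons β Q : Fin (n + 1) → Fin (n + 1)) ∘ σ)) (γ β : Fin (n + 1)) :
    ∑ α, M α γ * Y α β = if γ = β then
      (n.factorial : K) * ∑ P : Fin (n + 1) → Fin (n + 1), ∑ Q : Fin (n + 1) → Fin (n + 1),
        (Matrix.of fun s t => M (P s) (Q t)).det * φ P Q else 0 := by
  classical
  set A₀ : K := ∑ P : Fin (n + 1) → Fin (n + 1), eps P * ∑ Q : Fin (n + 1) → Fin (n + 1),
    eps Q * φ P Q with hA₀
  have hfull : ∑ P : Fin (n + 1) → Fin (n + 1), ∑ Q : Fin (n + 1) → Fin (n + 1),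
      (Matrix.of fun s t => M (P s) (Q t)).det * φ P Q = M.det * A₀ := by
    rw [hA₀, mul_sum]
    refine sum_congr rfl fun P _ => ?_
    rw [mul_sum, mul_sum]
    refine sum_congr rfl fun Q _ => ?_
    rw [det_submatrix_eps]
    ring
  -- the contraction
  have hY' : ∀ α β, Y α β = A₀ * ∑ P : Fin n → Fin (n + 1), ∑ Q : Fin n → Fin (n + 1),
      (∏ s, M (P s) (Q s)) * (eps (Fin.cons α P : Fin (n + 1) → Fin (n + 1)) *
        eps (Fin.cons β Q : Fin (n + 1) → Fin (n + 1))) := by
    intro α β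
    rw [hY]
    have h1 : ∀ (P Q : Fin n → Fin (n + 1)), ∑ τ : Equiv.Perm (Fin (n + 1)),
        ∑ σ : Equiv.Perm (Fin (n + 1)),
        ((Equiv.Perm.sign τ : ℤ) : K) * ((Equiv.Perm.sign σ : ℤ) : K) *
          φ ((Fin.cons α P : Fin (n + 1) → Fin (n + 1)) ∘ τ)
            ((Fin.cons β Q : Fin (n + 1) → Fin (n + 1)) ∘ σ) =
        eps (Fin.cons α P : Fin (n + 1) → Fin (n + 1)) *
          eps (Fin.cons β Q : Fin (n + 1) → Fin (n + 1)) * A₀ := by
      intro P Q
      have h2 : ∀ τ : Equiv.Perm (Fin (n + 1)), ∑ σ : Equiv.Perm (Fin (n + 1)),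
          ((Equiv.Perm.sign τ : ℤ) : K) * ((Equiv.Perm.sign σ : ℤ) : K) *
          φ ((Fin.cons α P : Fin (n + 1) → Fin (n + 1)) ∘ τ)
            ((Fin.cons β Q : Fin (n + 1) → Fin (n + 1)) ∘ σ) =
          ((Equiv.Perm.sign τ : ℤ) : K) *
            (fun w => eps (Fin.cons β Q : Fin (n + 1) → Fin (n + 1)) *
              ∑ w' : Fin (n + 1) → Fin (n + 1), eps w' * φ w w')
                ((Fin.cons α P : Fin (n + 1) → Fin (n + 1)) ∘ τ) := by
        intro τ
        have h3 := sum_sign_comp (fun w' => φ ((Fin.cons α P : Fin (n + 1) → Fin (n + 1)) ∘ τ) w')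
          (Fin.cons β Q : Fin (n + 1) → Fin (n + 1))
        change _ = ((Equiv.Perm.sign τ : ℤ) : K) *
            (eps (Fin.cons β Q : Fin (n + 1) → Fin (n + 1)) *
              ∑ w' : Fin (n + 1) → Fin (n + 1), eps w' *
                φ ((Fin.cons α P : Fin (n + 1) → Fin (n + 1)) ∘ τ) w')
        rw [← h3, mul_sum]
        refine sum_congr rfl fun σ _ => ?_
        ring
      rw [sum_congr rfl fun τ _ => h2 τ]
      refine (sum_sign_comp (fun w => eps (Fin.cons β Q : Fin (n + 1) → Fin (n + 1)) *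
              ∑ w' : Fin (n + 1) → Fin (n + 1), eps w' * φ w w')
                (Fin.cons α P : Fin (n + 1) → Fin (n + 1))).trans ?_
      rw [hA₀, mul_assoc]
      congr 1
      rw [mul_sum]
      refine sum_congr rfl fun w _ => ?_
      ring
    have h2 : (∑ τ : Equiv.Perm (Fin (n + 1)), ∑ σ : Equiv.Perm (Fin (n + 1)),
      ((Equiv.Perm.sign τ : ℤ) : K) * ((Equiv.Perm.sign σ : ℤ) : K) *
        ∑ P : Fin n → Fin (n + 1), ∑ Q : Fin n → Fin (n + 1), (∏ s, M (P s) (Q s)) *
          φ ((Fin.cons α P : Fin (n + 1) → Fin (n + 1)) ∘ τ)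
            ((Fin.cons β Q : Fin (n + 1) → Fin (n + 1)) ∘ σ)) =
        ∑ P : Fin n → Fin (n + 1), ∑ Q : Fin n → Fin (n + 1), (∏ s, M (P s) (Q s)) *
          ∑ τ : Equiv.Perm (Fin (n + 1)), ∑ σ : Equiv.Perm (Fin (n + 1)),
            ((Equiv.Perm.sign τ : ℤ) : K) * ((Equiv.Perm.sign σ : ℤ) : K) *
            φ ((Fin.cons α P : Fin (n + 1) → Fin (n + 1)) ∘ τ)
              ((Fin.cons β Q : Fin (n + 1) → Fin (n + 1)) ∘ σ) := by
      simp only [mul_sum]
      rw [sum_congr rfl fun τ _ => sum_comm, sum_comm]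
      refine sum_congr rfl fun P _ => ?_
      rw [sum_congr rfl fun τ _ => sum_comm, sum_comm]
      refine sum_congr rfl fun Q _ => ?_
      refine sum_congr rfl fun τ _ => ?_
      refine sum_congr rfl fun σ _ => ?_
      ring
    rw [h2, mul_sum]
    refine sum_congr rfl fun P _ => ?_
    rw [mul_sum]
    refine sum_congr rfl fun Q _ => ?_
    rw [h1]
    ring
  rw [hfull]
  -- the sum over the rows
  have h3 : ∀ Q : Fin n → Fin (n + 1), ∑ α, ∑ P : Fin n → Fin (n + 1),
      M α γ * ((∏ s, M (P s) (Q s)) * eps (Fin.cons α P : Fin (n + 1) → Fin (n + 1))) =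
      eps (Fin.cons γ Q : Fin (n + 1) → Fin (n + 1)) * M.det := by
    intro Q
    have h4 := det_submatrix_eps M id (Fin.cons γ Q : Fin (n + 1) → Fin (n + 1))
    rw [eps_id, one_mul] at h4
    rw [← h4, ← sum_eps_mul, ← Equiv.sum_comp (Fin.consEquiv fun _ => Fin (n + 1)),
      Fintype.sum_prod_type]
    refine sum_congr rfl fun α _ => sum_congr rfl fun P _ => ?_
    have h5 : (Fin.consEquiv fun _ => Fin (n + 1)) (α, P) =
      (Fin.cons α P : Fin (n + 1) → Fin (n + 1)) := rfl
    rw [h5, Fin.prod_univ_succ]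
    simp only [Fin.cons_zero, Fin.cons_succ, Matrix.of_apply, id]
    ring
  have h4 : ∑ α, M α γ * Y α β = A₀ * ∑ Q : Fin n → Fin (n + 1),
      eps (Fin.cons β Q : Fin (n + 1) → Fin (n + 1)) *
        (eps (Fin.cons γ Q : Fin (n + 1) → Fin (n + 1)) * M.det) := by
    have h5 : ∀ Q : Fin n → Fin (n + 1), eps (Fin.cons β Q : Fin (n + 1) → Fin (n + 1)) *
        (eps (Fin.cons γ Q : Fin (n + 1) → Fin (n + 1)) * M.det) =
        ∑ α, ∑ P : Fin n → Fin (n + 1), M α γ * ((∏ s, M (P s) (Q s)) *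
          (eps (Fin.cons α P : Fin (n + 1) → Fin (n + 1)) *
            eps (Fin.cons β Q : Fin (n + 1) → Fin (n + 1)))) := by
      intro Q
      rw [← h3 Q, mul_sum]
      refine sum_congr rfl fun α _ => ?_
      rw [mul_sum]
      refine sum_congr rfl fun P _ => ?_
      ring
    rw [sum_congr rfl fun Q _ => h5 Q, mul_sum]
    simp only [hY', mul_sum]
    rw [sum_comm]
    have h6 : ∀ (f : Fin (n + 1) → (Fin n → Fin (n + 1)) → (Fin n → Fin (n + 1)) → K),
        ∑ x, ∑ P, ∑ Q, f x P Q = ∑ Q, ∑ x, ∑ P, f x P Q := by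
      intro f
      rw [sum_congr rfl fun x _ => sum_comm, sum_comm]
    rw [sum_comm, h6]
    refine sum_congr rfl fun Q _ => sum_congr rfl fun α _ => sum_congr rfl fun P _ => ?_
    ring
  rw [h4]
  by_cases hγ : γ = β
  · subst hγ
    rw [if_pos rfl]
    have h5 : ∑ Q : Fin n → Fin (n + 1),
      (eps (Fin.cons γ Q : Fin (n + 1) → Fin (n + 1)) : K) *
        (eps (Fin.cons γ Q : Fin (n + 1) → Fin (n + 1)) * M.det) =
        (∑ Q : Fin n → Fin (n + 1), (eps (Fin.cons γ Q : Fin (n + 1) → Fin (n + 1)) : K) *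
          eps (Fin.cons γ Q : Fin (n + 1) → Fin (n + 1))) * M.det := by
      rw [sum_mul]
      refine sum_congr rfl fun Q _ => ?_
      ring
    rw [h5, sum_eps_cons_sq]
    ring
  · rw [if_neg hγ, sum_eq_zero, mul_zero]
    intro Q _
    -- one of the two maps is not injective
    have h5 : ∀ g : Fin (n + 1) → Fin (n + 1), ¬ Function.Injective g → (eps g : K) = 0 := by
      intro g hg
      rw [eps_eq]
      refine sum_eq_zero fun π _ => ?_
      have : ∃ i, π i ≠ g i := by
        by_contra h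
        push Not at h
        refine hg fun i j hij => π.injective ?_
        rw [h, h, hij]
      obtain ⟨i, hi⟩ := this
      rw [prod_eq_zero (mem_univ i) (if_neg hi), mul_zero]
    by_cases hβ : Function.Injective (Fin.cons β Q : Fin (n + 1) → Fin (n + 1))
    · rw [h5 (Fin.cons γ Q), zero_mul, mul_zero]
      intro hγ'
      have hs := Finite.surjective_of_injective hβ
      obtain ⟨i, hi⟩ := hs γ
      revert hi
      refine Fin.cases (fun hi => ?_) (fun i hi => ?_) i
      · exact hγ hi.symm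
      · have h6 : (Fin.cons γ Q : Fin (n + 1) → Fin (n + 1)) i.succ =
            (Fin.cons γ Q : Fin (n + 1) → Fin (n + 1)) 0 := hi
        exact absurd (hγ' h6) (Fin.succ_ne_zero i)
    · rw [h5 _ hβ, zero_mul]

end Pool.Agent.Helper11.BD
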