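import Mathlib
import Pool.Agent.Helper11.CanTypes
import Pool.Agent.Helper11.SpanTypes
import Pool.Agent.Helper11.Point
import Pool.Agent.Helper10.HodgeTypes

/-!
# The standard conjectures and determinants of cohomology groups: definitions
-/

universe u v w t

open CategoryTheory TensorProduct

namespace Pool.Agent.Helper11.BD

open Pool.Agent.Helper10 SmProjVar Pool.Agent.Helper11.Obs

variable {k : Type u} [Field k] {K : Type v} [Field K] (W : CohomologyData.{u, v, w} k K)

/-- The hard Lefschetz theorem holds for the variety `X` and the divisor `d`: for `i + r = dim X`,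
the multiplication by `d ^ r` is a bijection between `H^i(X)` and `H^{i + 2 r}(X)`. -/
def HardLefschetz (X : SmProjVar k) (d : X.Z 1) : Prop :=
  ∀ i r : ℕ, i + r = X.dim → (∀ x ∈ W.gr X i, W.lef X d r x = 0 → x = 0) ∧
    ∀ y ∈ W.gr X (i + 2 * r), ∃ x ∈ W.gr X i, W.lef X d r x = y

/-- The Lefschetz standard conjecture `B(X)`, with coefficients in the subfield `F` of `K`: for
`i + r = dim X`, the inverse of the multiplication by `d ^ r`, from `H^{i + 2 r}(X)` to `H^i(X)`,
is induced by an algebraic correspondence with coefficients in `F`. -/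
def LefschetzStandard (F : Subfield K) (X : SmProjVar k) (d : X.Z 1) : Prop :=
  ∀ i r : ℕ, i + r = X.dim →
    ∃ u : W.H X → W.H X, IsMapOver W F X u ∧ ∀ x ∈ W.gr X i, u (W.lef X d r x) = x

/-- The variety `X × … × X`, with `b` factors (or rather `pt × X × … × X`). -/
noncomputable abbrev cart (X : SmProjVar k) (b : ℕ) : SmProjVar k :=
  prodVar (pt k) fun _ : Fin b => X

/-- The class `z` on `X ^ b` is, up to a nonzero scalar `a`, the external product of the
determinants of the subspaces `G y` of `H(X)`: for bases `f (y, 1)`, `f (y, 2)`, … of the `G y`,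
there is one factor `X` for each member of these bases, and the number `⟨z, v 1 × v 2 × …⟩` is `a`
times the product over all `y` of the determinants of the matrices `⟨v (y, s), f (y, t)⟩`. -/
def IsDeterminant {X : SmProjVar k} {N : ℕ} (G : Fin N → Submodule K (W.H X)) {b : ℕ}
    (z : W.H (cart X b)) : Prop :=
  ∃ (r : Fin N → ℕ) (f : ∀ y, Fin (r y) → W.H X) (e : (Σ y, Fin (r y)) ≃ Fin b) (a : K), a ≠ 0 ∧
    (∀ y, LinearIndependent K (f y) ∧ Submodule.span K (Set.range (f y)) = G y) ∧
    ∀ v : (Σ y, Fin (r y)) → W.H X,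
      W.pairing (cart X b) z (extProd W 1 fun q => v (e.symm q)) =
        a * ∏ y, Matrix.det (Matrix.of fun s t => W.pairing X (v ⟨y, s⟩) (f y t))

/-- The tensor product of the determinants of the subspaces `G y` of `H(X)`, a one-dimensional
subspace of the cohomology of a power of `X`, is generated by an `F`-linear combination of classes of
algebraic cycles. -/
def HasAlgebraicDeterminant (F : Subfield K) {X : SmProjVar k} {N : ℕ}
    (G : Fin N → Submodule K (W.H X)) : Prop :=
  ∃ (b : ℕ) (z : W.H (cart X b)), z ∈ cycleSpan W F (cart X b) ∧ IsDeterminant W G z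

/-- The tensor product of the determinants of the subspaces `G y` of `H(X)` is generated by a
numerically trivial `F`-linear combination of classes of algebraic cycles. -/
def HasNumTrivialDeterminant (F : Subfield K) {X : SmProjVar k} {N : ℕ}
    (G : Fin N → Submodule K (W.H X)) : Prop :=
  ∃ (b : ℕ) (z : W.H (cart X b)), z ∈ cycleSpan W F (cart X b) ∧ IsNumTrivial W (cart X b) z ∧
    IsDeterminant W G z

/-- The tensor product of the determinants of the subspaces `G y` of `H(X)`, a one-dimensional
subspace of the cohomology of a power of `X`, is not orthogonal to all classes of algebraic cycles on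
this power. -/
def HasNonorthogonalDeterminant {X : SmProjVar k} {N : ℕ} (G : Fin N → Submodule K (W.H X)) :
    Prop :=
  ∃ (b : ℕ) (w : W.H (cart X b)), IsDeterminant W G w ∧
    ∃ a ∈ W.algClasses (cart X b), W.pairing (cart X b) w a ≠ 0

/-- The subspace `G` of `H(X)` is contained in `H^i(X)` for some `i ≤ dim X`, it is totally isotropic
for the bilinear form `⟨x, d ^ (dim X - i) y⟩` on `H^i(X)`, it is mapped to itself by all maps
`u : H(X) → H(X)` given by algebraic correspondences such that `u (H^i(X)) ⊆ H^i(X)`, and `Ω ⊗ G` is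
stable under all symmetries of the cohomology theory, with coefficients in any extension `Ω` of `K`,
which stabilise all `H^j(X)`. -/
def IsStableIsotropic (X : SmProjVar k) (d : X.Z 1) (G : Submodule K (W.H X)) : Prop :=
  ∃ i r : ℕ, i + r = X.dim ∧ G ≤ W.gr X i ∧
    (∀ x ∈ G, ∀ y ∈ G, W.pairing X x (W.lef X d r y) = 0) ∧
    (∀ u : W.H X → W.H X, W.IsAlgebraicMap X X u → (∀ x ∈ W.gr X i, u x ∈ W.gr X i) →
      ∀ x ∈ G, u x ∈ G) ∧
    ∀ (Ω : Type t) [Field Ω] [Algebra K Ω]
      (g : ∀ Y : SmProjVar k, Ω ⊗[K] W.H Y → Ω ⊗[K] W.H Y) (χ : Ω), IsSymmetry W Ω g χ →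
      (∀ j, Stabilises Ω (g X) (W.gr X j)) → Stabilises Ω (g X) G

end Pool.Agent.Helper11.BD
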