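import Mathlib
import Pool.Agent.Helper11.BD.Lin
import Pool.Agent.Helper11.BD.Types
import Pool.Agent.Helper83.CAN.C10
import Pool.Agent.Helper11.RelStableThm
import Pool.Agent.Helper10.Koszul

/-!
# Words in cohomology classes of the same parity
-/

universe u v w

open CategoryTheory Finset

namespace Pool.Agent.Helper11.BD

open Pool.Agent.Helper10 hiding IsAlgAut parityPart
open SmProjVar Pool.Agent.Helper10.GIT
open Pool.Agent.Helper11.Obs (extProd wordClass prodVar prodFst prodProj)

variable {k : Type u} [Field k] {K : Type v} [Field K] [CharZero K]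
  (W : WeilCohomology.{u, v, w} k K)

/-- the even or the odd part of cohomology -/
def par (p : Bool) (X : SmProjVar k) : Submodule K (W.H X) := if p then W.odK X else W.evK X

lemma pull_par {p : Bool} {X Y : SmProjVar k} (f : X.toOver ⟶ Y.toOver) {y : W.H Y}
    (hy : y ∈ par W p Y) : W.pull f y ∈ par W p X := by
  cases p with
  | false => exact W.pull_evK f y hy
  | true => exact W.pull_odK f y hy

lemma par_comm {p : Bool} {X : SmProjVar k} {x y : W.H X} (hx : x ∈ par W p X)
    (hy : y ∈ par W p X) : x * y = (if p then (-1 : ℤ) else 1) • (y * x) := by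
  cases p with
  | false => rw [W.evK_comm X x y hx]; simp
  | true => rw [W.odK_anti X x y hx hy]; simp

/-- the two orders of the letters -/
lemma letters_perm {b : ℕ} (τ σ : Equiv.Perm (Fin b)) :
    ((List.ofFn fun r : Fin b => [(false, τ.symm r), (true, σ.symm r)]).flatten :
      List (Bool × Fin b)).Perm
      ((List.ofFn fun s : Fin b => (false, s)) ++ List.ofFn fun s : Fin b => (true, s)) := by
  classical
  rw [List.perm_iff_count]
  intro a
  rw [count_ofFn_flatten, List.count_append, count_ofFn, count_ofFn]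
  have h1 : ∀ i : Fin b, List.count a [(false, τ.symm i), (true, σ.symm i)] =
      (if ((false, τ.symm i) : Bool × Fin b) = a then 1 else 0) +
        if ((true, σ.symm i) : Bool × Fin b) = a then 1 else 0 := by
    intro i
    rw [List.count_cons, List.count_cons, List.count_nil]
    simp only [beq_iff_eq]
    omega
  rw [sum_congr rfl fun i _ => h1 i, sum_add_distrib]
  congr 1
  · exact Equiv.sum_comp τ.symm (fun s : Fin b => if ((false, s) : Bool × Fin b) = a then 1 else 0)
  · exact Equiv.sum_comp σ.symm (fun s : Fin b => if ((true, s) : Bool × Fin b) = a then 1 else 0)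

/-- reordering words: the sign does not depend on the letters -/
lemma reorder (p : Bool) {X T : SmProjVar k} {b : ℕ} (f g : Fin b → (T.toOver ⟶ X.toOver))
    (τ σ : Equiv.Perm (Fin b)) :
    ∃ c : ℤ, (c = 1 ∨ c = -1) ∧ ∀ x y : Fin b → W.H X, (∀ i, x i ∈ par W p X) →
      (∀ i, y i ∈ par W p X) →
      (List.ofFn fun r => W.pull (f (τ.symm r)) (x r) * W.pull (g (σ.symm r)) (y r)).prod =
        c • ((List.ofFn fun s => W.pull (f s) (x (τ s))).prod *
          (List.ofFn fun s => W.pull (g s) (y (σ s))).prod) := by
  obtain ⟨c, hc, h⟩ := exists_sign_perm (W.H T) (fun _ _ : Bool × Fin b =>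
    if p then (-1 : ℤ) else 1) (fun _ _ => by cases p <;> simp) (letters_perm τ σ)
  refine ⟨c, hc, fun x y hx hy => ?_⟩
  have h1 := h (fun a => if a.1 then W.pull (g a.2) (y (σ a.2)) else W.pull (f a.2) (x (τ a.2)))
    (fun i j => par_comm W (p := p) (by
      rcases i with ⟨i, i'⟩
      cases i
      · exact pull_par W _ (hx _)
      · exact pull_par W _ (hy _)) (by
      rcases j with ⟨j, j'⟩
      cases j
      · exact pull_par W _ (hx _)
      · exact pull_par W _ (hy _)))
  rw [List.map_append, List.prod_append, List.map_ofFn, List.map_ofFn, List.map_flatten,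
    List.prod_flatten, List.map_ofFn, List.map_ofFn] at h1
  refine Eq.trans ?_ (h1.trans ?_)
  · congr 1
    congr 1
    funext r
    simp only [Function.comp_apply, List.map_cons, List.map_nil, List.prod_cons, List.prod_nil,
      mul_one, Equiv.apply_symm_apply, if_true, Bool.false_eq_true, if_false]
  · rfl

/-- expansion of a product of pull-backs of a class on `X × X` -/
lemma prod_expand {X T : SmProjVar k} {n m : ℕ} (e : Fin m → W.H X) (M : Fin m → Fin m → K)
    {Λ : W.H (X.prod X)}
    (hΛ : Λ = ∑ p, ∑ q, M p q • (W.pull (fst X X) (e p) * W.pull (snd X X) (e q)))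
    (f g : Fin n → (T.toOver ⟶ X.toOver)) :
    (List.ofFn fun r => W.pull (lift (f r) (g r)) Λ).prod =
      ∑ P : Fin n → Fin m, ∑ Q : Fin n → Fin m, (∏ r, M (P r) (Q r)) •
        (List.ofFn fun r => W.pull (f r) (e (P r)) * W.pull (g r) (e (Q r))).prod := by
  have h1 : ∀ r, W.pull (lift (f r) (g r)) Λ =
      ∑ a : Fin m × Fin m, M a.1 a.2 • (W.pull (f r) (e a.1) * W.pull (g r) (e a.2)) := by
    intro r
    rw [hΛ, Fintype.sum_prod_type]
    have h2 : ∀ x, W.pull (lift (f r) (g r)) x = W.pullA (lift (f r) (g r)) x := fun _ => rfl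
    rw [h2, map_sum]
    refine sum_congr rfl fun p _ => ?_
    rw [map_sum]
    refine sum_congr rfl fun q _ => ?_
    rw [map_smul, map_mul]
    congr 2
    · have h3 := W.pull_comp (lift (f r) (g r)) (fst X X) (e p)
      rw [lift_fst] at h3
      exact h3.symm
    · have h3 := W.pull_comp (lift (f r) (g r)) (snd X X) (e q)
      rw [lift_snd] at h3
      exact h3.symm
  simp only [h1]
  rw [ofFn_prod_sum (Ω := K) (α := fun _ : Fin n => Fin m × Fin m) (fun _ a => M a.1 a.2)
    (fun r a => W.pull (f r) (e a.1) * W.pull (g r) (e a.2)),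
    ← Equiv.sum_comp (Equiv.arrowProdEquivProdArrow (Fin n) (fun _ => Fin m)
      (fun _ => Fin m)).symm, Fintype.sum_prod_type]
  rfl

end Pool.Agent.Helper11.BD
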