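import Mathlib
import Pool.Agent.Helper11.BD.Words
import Pool.Agent.Helper11.Rn.Slots
import Pool.Agent.Helper11.Ro.St.R6

/-!
# Traces of products of words
-/

universe u v w

open CategoryTheory Finset

namespace Pool.Agent.Helper11.BD

open Pool.Agent.Helper10 hiding IsAlgAut parityPart
open SmProjVar Pool.Agent.Helper10.GIT
open Pool.Agent.Helper11.Obs (extProd wordClass prodVar prodFst prodProj IsNumTrivial)

variable {k : Type u} [Field k] {K : Type v} [Field K] [CharZero K]
  (W : WeilCohomology.{u, v, w} k K)

/-- the trace vanishes on odd classes -/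
lemma trL_odK (X : SmProjVar k) {x : W.H X} (hx : x ∈ W.odK X) : W.trL X x = 0 := by
  refine W.odK_induction X (p := fun x => W.trL X x = 0) (fun i hi x hx => ?_) (map_zero _)
    (fun a b ha hb => by rw [map_add, ha, hb, add_zero]) hx
  exact W.tr_eq_zero_of_gr X (fun h0 => hi (by rw [h0]; exact even_two_mul _)) hx

lemma exists_parity (X : SmProjVar k) (x : W.H X) :
    ∃ a ∈ W.evK X, ∃ b ∈ W.odK X, a + b = x := by
  have h1 : x ∈ W.evK X ⊔ W.odK X := by
    rw [(W.isCompl X).sup_eq_top]; trivial
  exact Submodule.mem_sup.mp h1

lemma odK_mul_evK (X : SmProjVar k) {x y : W.H X} (hx : x ∈ W.odK X) (hy : y ∈ W.evK X) :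
    x * y ∈ W.odK X := by
  rw [← W.evK_comm X y x hy]
  exact W.evK_mul_odK X y x hy hx

/-- the parity of a word -/
lemma extProd_par (p : Bool) {X : SmProjVar k} {b : ℕ} (f : Fin b → W.H X)
    (hf : ∀ i, f i ∈ par W p X) :
    (extProd W.toCohomologyData (A := pt k) 1 f : W.H (cart X b)) ∈
      par W (p && decide (Odd b)) (cart X b) := by
  induction b with
  | zero =>
    have h1 : (extProd W.toCohomologyData (A := pt k) 1 f : W.H (cart X 0)) = 1 := by
      change W.pullA (𝟙 (pt k).toOver) 1 * (1 : W.H (pt k)) = 1
      rw [map_one, mul_one]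
    rw [h1]
    have h2 : (p && decide (Odd 0)) = false := by simp
    rw [h2]
    change (1 : W.H (cart X 0)) ∈ W.evK (cart X 0)
    exact W.gr_le_evK _ (Even.zero) (W.graded _).one_mem
  | succ b ih =>
    rw [Can.extProd_succ]
    have h1 := pull_par W (fst (cart X b) X) (ih (fun i => f i.castSucc) fun i => hf _)
    have h2 := pull_par W (snd (cart X b) X) (hf (Fin.last b))
    cases p with
    | false => exact W.evK_mul_evK _ _ _ h1 h2
    | true =>
      by_cases hb : Odd b
      · have h3 : (true && decide (Odd b)) = true := by simp [hb]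
        have h4 : (true && decide (Odd (b + 1))) = false := by
          have : ¬ Odd (b + 1) := by
            rw [Nat.not_odd_iff_even]
            exact hb.add_one
          simp [this]
        rw [h3] at h1
        rw [h4]
        exact W.odK_mul_odK _ _ _ h1 h2
      · have h3 : (true && decide (Odd b)) = false := by simp [hb]
        have h4 : (true && decide (Odd (b + 1))) = true := by
          have : Odd (b + 1) := (Nat.not_odd_iff_even.mp hb).add_one
          simp [this]
        rw [h3] at h1
        rw [h4]
        exact W.evK_mul_odK _ _ _ h1 h2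

/-- the trace of a product of two words, the first one in classes of the same parity -/
theorem exists_tr_mul (p : Bool) (X : SmProjVar k) (b : ℕ) :
    ∃ c : K, (c = 1 ∨ c = -1) ∧ ∀ f v : Fin b → W.H X, (∀ i, f i ∈ par W p X) →
      W.trL (cart X b) (extProd W.toCohomologyData (A := pt k) 1 f *
        extProd W.toCohomologyData (A := pt k) 1 v) =
        c * (W.trL (pt k) 1 * ∏ i, W.trL X (f i * v i)) := by
  induction b with
  | zero =>
    refine ⟨1, .inl rfl, fun f v _ => ?_⟩
    have h1 : ∀ f : Fin 0 → W.H X,
        (extProd W.toCohomologyData (A := pt k) 1 f : W.H (cart X 0)) = 1 := by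
      intro f
      change W.pullA (𝟙 (pt k).toOver) 1 * (1 : W.H (pt k)) = 1
      rw [map_one, mul_one]
    rw [h1, h1, mul_one, Fin.prod_univ_zero, one_mul, mul_one]
    rfl
  | succ b ih =>
    obtain ⟨c, hc, h⟩ := ih
    refine ⟨if (p && decide (Odd b)) then -c else c, ?_, fun f v hf => ?_⟩
    · split_ifs
      · rcases hc with rfl | rfl
        · exact .inr rfl
        · exact .inl (neg_neg _)
      · exact hc
    · obtain ⟨V₀, hV₀, V₁, hV₁, hV⟩ := exists_parity W (cart X b)
        (extProd W.toCohomologyData (A := pt k) 1 fun i : Fin b => v i.castSucc)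
      set F' : W.H (cart X b) :=
        extProd W.toCohomologyData (A := pt k) 1 fun i : Fin b => f i.castSucc with hF'
      have hFp := extProd_par W p (fun i : Fin b => f i.castSucc) fun i => hf _
      rw [← hF'] at hFp
      have h0 := h (fun i => f i.castSucc) (fun i => v i.castSucc) fun i => hf _
      rw [← hF', ← hV, mul_add, map_add] at h0
      have e1 : (extProd W.toCohomologyData (A := pt k) 1 f : W.H (cart X (b + 1))) =
          W.pullA (fst (cart X b) X) F' * W.pullA (snd (cart X b) X) (f (Fin.last b)) := by
        rw [Can.extProd_succ]; rfl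
      have e2 : (extProd W.toCohomologyData (A := pt k) 1 v : W.H (cart X (b + 1))) =
          W.pullA (fst (cart X b) X) (V₀ + V₁) *
            W.pullA (snd (cart X b) X) (v (Fin.last b)) := by
        rw [Can.extProd_succ, hV]; rfl
      have htr : ∀ (x : W.H (cart X b)) (y : W.H X),
          W.trL ((cart X b).prod X) (W.pullA (fst (cart X b) X) x *
            W.pullA (snd (cart X b) X) y) = W.trL _ x * W.trL X y :=
        fun x y => W.tr_prod _ X x y
      rw [e1, e2, Fin.prod_univ_castSucc]
      cases hp : p with
      | false =>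
        subst hp
        have h1 : W.pullA (snd (cart X b) X) (f (Fin.last b)) *
            W.pullA (fst (cart X b) X) (V₀ + V₁) =
            W.pullA (fst (cart X b) X) (V₀ + V₁) * W.pullA (snd (cart X b) X) (f (Fin.last b)) :=
          W.evK_comm _ _ _ (W.pull_evK _ _ (hf _))
        have h2 : W.pullA (fst (cart X b) X) F' * W.pullA (snd (cart X b) X) (f (Fin.last b)) *
            (W.pullA (fst (cart X b) X) (V₀ + V₁) *
              W.pullA (snd (cart X b) X) (v (Fin.last b))) =
            W.pullA (fst (cart X b) X) (F' * (V₀ + V₁)) *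
              W.pullA (snd (cart X b) X) (f (Fin.last b) * v (Fin.last b)) := by
          rw [map_mul, map_mul, mul_assoc, ← mul_assoc (W.pullA (snd (cart X b) X) _), h1]
          simp only [mul_assoc]
        have h3 := htr (F' * (V₀ + V₁)) (f (Fin.last b) * v (Fin.last b))
        rw [← h2, mul_add F' V₀ V₁, map_add (W.trL (cart X b)), h0] at h3
        refine h3.trans ?_
        simp only [Bool.false_and, Bool.false_eq_true, if_false]
        ring
      | true =>
        subst hp
        have k0 : W.pullA (snd (cart X b) X) (f (Fin.last b)) * W.pullA (fst (cart X b) X) V₀ =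
            W.pullA (fst (cart X b) X) V₀ * W.pullA (snd (cart X b) X) (f (Fin.last b)) :=
          (W.evK_comm _ _ _ (W.pull_evK _ _ hV₀)).symm
        have k1 : W.pullA (snd (cart X b) X) (f (Fin.last b)) * W.pullA (fst (cart X b) X) V₁ =
            -(W.pullA (fst (cart X b) X) V₁ * W.pullA (snd (cart X b) X) (f (Fin.last b))) :=
          W.odK_anti _ _ _ (W.pull_odK _ _ (hf _)) (W.pull_odK _ _ hV₁)
        have h1 : W.pullA (snd (cart X b) X) (f (Fin.last b)) *
            W.pullA (fst (cart X b) X) (V₀ + V₁) =
            W.pullA (fst (cart X b) X) (V₀ - V₁) *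
              W.pullA (snd (cart X b) X) (f (Fin.last b)) := by
          rw [map_add, mul_add, k0, k1, map_sub, sub_mul, sub_eq_add_neg]
        have h2 : W.pullA (fst (cart X b) X) F' * W.pullA (snd (cart X b) X) (f (Fin.last b)) *
            (W.pullA (fst (cart X b) X) (V₀ + V₁) *
              W.pullA (snd (cart X b) X) (v (Fin.last b))) =
            W.pullA (fst (cart X b) X) (F' * (V₀ - V₁)) *
              W.pullA (snd (cart X b) X) (f (Fin.last b) * v (Fin.last b)) := by
          rw [map_mul, map_mul, mul_assoc, ← mul_assoc (W.pullA (snd (cart X b) X) _), h1]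
          simp only [mul_assoc]
        have h3 := htr (F' * (V₀ - V₁)) (f (Fin.last b) * v (Fin.last b))
        rw [← h2, mul_sub F' V₀ V₁, map_sub (W.trL (cart X b))] at h3
        refine h3.trans ?_
        by_cases hb : Odd b
        · have h4 : (true && decide (Odd b)) = true := by simp [hb]
          rw [h4] at hFp
          have h5 : W.trL (cart X b) (F' * V₀) = 0 :=
            trL_odK W _ (odK_mul_evK W _ hFp hV₀)
          rw [h5, zero_add] at h0
          rw [h5, if_pos h4, zero_sub, h0]
          ring
        · have h4 : (true && decide (Odd b)) = false := by simp [hb]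
          rw [h4] at hFp
          have h5 : W.trL (cart X b) (F' * V₁) = 0 :=
            trL_odK W _ (W.evK_mul_odK _ _ _ hFp hV₁)
          rw [h5, add_zero] at h0
          rw [h5, h4, sub_zero, h0]
          simp only [Bool.false_eq_true, if_false]
          ring

end Pool.Agent.Helper11.BD
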