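import Mathlib
import Pool.Agent.Helper11.BD.Trace

/-!
# The squares of determinants
-/

universe u v w

open CategoryTheory Finset

namespace Pool.Agent.Helper11.BD

open Pool.Agent.Helper10 hiding IsAlgAut parityPart
open SmProjVar Pool.Agent.Helper10.GIT
open Pool.Agent.Helper11.Obs (extProd wordClass prodVar prodFst prodProj IsNumTrivial)

variable {k : Type u} [Field k] {K : Type v} [Field K] [CharZero K]
  (W : WeilCohomology.{u, v, w} k K)

/-- the word with letters `f (P s)` in the slots `V s` and `f (Q s)` in the slots `V' s` -/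
noncomputable def wd {X T : SmProjVar k} {b : ℕ} (V V' : Fin b → (T.toOver ⟶ X.toOver))
    (x y : Fin b → W.H X) : W.H T :=
  (List.ofFn fun s => W.pull (V s) (x s)).prod * (List.ofFn fun s => W.pull (V' s) (y s)).prod

/-- the square of the determinant of the classes `f s`, in the slots `V s` and `V' s` -/
noncomputable def sqC {X T : SmProjVar k} {b : ℕ} (V V' : Fin b → (T.toOver ⟶ X.toOver))
    (f : Fin b → W.H X) : W.H T :=
  ∑ P : Fin b → Fin b, ∑ Q : Fin b → Fin b,
    ((eps P : K) * eps Q) • wd W V V' (f ∘ P) (f ∘ Q)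

lemma list_prod_mem {F : Subfield K} {T : SmProjVar k} (l : List (W.H T))
    (h : ∀ x ∈ l, x ∈ cycleSpan W.toCohomologyData F T) :
    l.prod ∈ cycleSpan W.toCohomologyData F T := by
  induction l with
  | nil =>
    rw [List.prod_nil]
    obtain ⟨c, -, hc⟩ := W.cycleClasses.cy_fundamental T
    rw [← hc]
    exact cy_mem_cycleSpan W F T 0 c
  | cons a l ih =>
    rw [List.prod_cons]
    exact mul_mem_cycleSpan W T (h a (List.mem_cons_self ..))
      (ih fun x hx => h x (List.mem_cons_of_mem _ hx))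

/-- a full contraction of the square of the determinant -/
theorem det_smul_sqC_mem {F : Subfield K} (p : Bool) {X T : SmProjVar k} {b : ℕ}
    (V V' : Fin b → (T.toOver ⟶ X.toOver)) (f : Fin b → W.H X) (hf : ∀ i, f i ∈ par W p X)
    (M : Fin b → Fin b → K) {Λ : W.H (X.prod X)}
    (hΛF : Λ ∈ cycleSpan W.toCohomologyData F (X.prod X))
    (hΛ : Λ = ∑ p, ∑ q, M p q • (W.pull (fst X X) (f p) * W.pull (snd X X) (f q))) :
    (Matrix.of M).det • sqC W V V' f ∈ cycleSpan W.toCohomologyData F T := by
  classical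
  choose c hc hre using fun σ : Equiv.Perm (Fin b) => reorder W p V V' 1 σ
  have key : (Matrix.of M).det • sqC W V V' f = ∑ σ : Equiv.Perm (Fin b),
      (((Equiv.Perm.sign σ : ℤ) * c σ : ℤ) : K) •
        (List.ofFn fun r => W.pull (lift (V r) (V' (σ.symm r))) Λ).prod := by
    have h1 : ∀ σ : Equiv.Perm (Fin b),
        (((Equiv.Perm.sign σ : ℤ) * c σ : ℤ) : K) •
        (List.ofFn fun r => W.pull (lift (V r) (V' (σ.symm r))) Λ).prod =
        ∑ P : Fin b → Fin b, ∑ Q : Fin b → Fin b,
          (((Equiv.Perm.sign σ : ℤ) : K) * ∏ r, M (P r) (Q (σ.symm r))) •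
            wd W V V' (f ∘ P) (f ∘ Q) := by
      intro σ
      rw [prod_expand W f M hΛ V fun r => V' (σ.symm r), smul_sum]
      refine sum_congr rfl fun P _ => ?_
      rw [smul_sum, ← Equiv.sum_comp (Equiv.arrowCongr σ (Equiv.refl (Fin b)))]
      refine sum_congr rfl fun Q _ => ?_
      have h2 := hre σ (f ∘ P) (f ∘ (Equiv.arrowCongr σ (Equiv.refl (Fin b)) Q))
        (fun i => hf _) (fun i => hf _)
      have h3 : ∀ r, (Equiv.arrowCongr σ (Equiv.refl (Fin b)) Q) r = Q (σ.symm r) := fun r => rfl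
      have h4 : (List.ofFn fun r => W.pull (V r) (f (P r)) * W.pull (V' (σ.symm r))
          (f ((Equiv.arrowCongr σ (Equiv.refl (Fin b)) Q) r))).prod =
          c σ • wd W V V' (f ∘ P) (f ∘ Q) := by
        refine Eq.trans ?_ (h2.trans ?_)
        · rfl
        · congr 1
          unfold wd
          congr 3
          funext s
          change W.pull (V' s) (f (Q (σ.symm (σ s)))) = _
          rw [Equiv.symm_apply_apply]
          rfl
      rw [h4, smul_smul, ← Int.cast_smul_eq_zsmul K, smul_smul]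
      congr 1
      simp only [h3]
      have h5 : ((c σ : ℤ) : K) * ((c σ : ℤ) : K) = 1 := by
        rcases hc σ with h | h <;> rw [h] <;> norm_num
      push_cast
      calc _ = ((Equiv.Perm.sign σ : ℤ) : K) * (∏ r, M (P r) (Q (σ.symm r))) *
          (((c σ : ℤ) : K) * ((c σ : ℤ) : K)) := by ring
        _ = _ := by rw [h5, mul_one]
    rw [sum_congr rfl fun σ _ => h1 σ, sum_comm, sqC, smul_sum]
    refine sum_congr rfl fun P _ => ?_
    rw [sum_comm, smul_sum]
    refine sum_congr rfl fun Q _ => ?_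
    rw [smul_smul, ← sum_smul]
    congr 1
    have h2 := det_submatrix_eps (Matrix.of M) P Q
    have h3 : (Matrix.of fun s t => Matrix.of M (P s) (Q t)).det =
        ∑ σ : Equiv.Perm (Fin b), ((Equiv.Perm.sign σ : ℤ) : K) *
          ∏ r, M (P r) (Q (σ.symm r)) := by
      rw [Matrix.det_apply']
      refine sum_congr rfl fun σ _ => ?_
      congr 1
      rw [← Equiv.prod_comp σ (fun r => M (P r) (Q (σ.symm r)))]
      refine prod_congr rfl fun r _ => ?_
      simp only [Equiv.symm_apply_apply, Matrix.of_apply]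
    rw [← h3, h2]
    ring
  rw [key]
  refine Submodule.sum_mem _ fun σ _ => ?_
  have h1 : (((Equiv.Perm.sign σ : ℤ) * c σ : ℤ) : K) =
      ((((Equiv.Perm.sign σ : ℤ) * c σ : ℤ) : F) : K) := by norm_cast
  rw [h1]
  refine smul_mem_cycleSpan W _ (list_prod_mem W _ fun x hx => ?_)
  rw [List.mem_ofFn] at hx
  obtain ⟨r, rfl⟩ := hx
  exact pull_mem_cycleSpan W _ hΛF

end Pool.Agent.Helper11.BD
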