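import Mathlib
import Pool.Agent.Helper11.BD.DetClass

/-!
# Contractions of algebraic classes with the square of the determinant
-/

universe u v w

open CategoryTheory Finset

namespace Pool.Agent.Helper11.BD

open Pool.Agent.Helper10 hiding IsAlgAut parityPart
open SmProjVar Pool.Agent.Helper10.GIT
open Pool.Agent.Helper11.Obs (extProd wordClass prodVar prodFst prodProj IsNumTrivial)

variable {k : Type u} [Field k] {K : Type v} [Field K] [CharZero K]
  (W : WeilCohomology.{u, v, w} k K)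

lemma pull_gr {X Y : SmProjVar k} (f : X.toOver ⟶ Y.toOver) {i : ℕ} {y : W.H Y}
    (hy : y ∈ W.gr Y i) : W.pull f y ∈ W.gr X i := (W.pull_hom f).map_mem i y hy

lemma mul_gr {X : SmProjVar k} {i j : ℕ} {x y : W.H X} (hx : x ∈ W.gr X i)
    (hy : y ∈ W.gr X j) : x * y ∈ W.gr X (i + j) := (W.graded X).mul_mem i j x y hx hy

lemma list_prod_gr {T : SmProjVar k} {d : ℕ} {n : ℕ} (l : Fin n → W.H T)
    (h : ∀ r, l r ∈ W.gr T d) : (List.ofFn l).prod ∈ W.gr T (n * d) := by
  induction n with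
  | zero =>
    rw [List.ofFn_zero, List.prod_nil, zero_mul]
    exact (W.graded T).one_mem
  | succ n ih =>
    rw [List.ofFn_succ, List.prod_cons, Nat.succ_mul, add_comm]
    exact mul_gr W (h 0) (ih _ fun r => h _)

/-- **Contractions.** -/
theorem exists_contraction {F : Subfield K} (p : Bool) {X T : SmProjVar k} {n : ℕ}
    (V V' : Fin (n + 1) → (T.toOver ⟶ X.toOver)) (f : Fin (n + 1) → W.H X)
    (hf : ∀ i, f i ∈ par W p X) {j : ℕ} (hfj : ∀ i, f i ∈ W.gr X j)
    (M : Fin (n + 1) → Fin (n + 1) → K) {Λ : W.H (X.prod X)}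
    (hΛF : Λ ∈ cycleSpan W.toCohomologyData F (X.prod X))
    (hΛ : Λ = ∑ p, ∑ q, M p q • (W.pull (fst X X) (f p) * W.pull (snd X X) (f q)))
    {a : W.H T} (ha : a ∈ cycleSpan W.toCohomologyData F T) {A : ℕ} (haA : a ∈ W.gr T A) :
    ∃ y ∈ cycleSpan W.toCohomologyData F (X.prod X),
      (∀ γ β, ∑ α, M α γ *
        W.trL (X.prod X) (y * (W.pull (fst X X) (f α) * W.pull (snd X X) (f β))) =
          if γ = β then (n.factorial : K) *
            W.trL T (a * ((Matrix.of M).det • sqC W V V' f)) else 0) ∧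
      ∀ (s t : ℕ) (v w : W.H X), v ∈ W.gr X s → w ∈ W.gr X t →
        A + n * (j + j) + (s + t) ≠ 2 * T.dim →
        W.trL (X.prod X) (y * (W.pull (fst X X) v * W.pull (snd X X) w)) = 0 := by
  classical
  choose c hc hre using fun τ σ : Equiv.Perm (Fin (n + 1)) => reorder W p V V' τ σ
  let D : Equiv.Perm (Fin (n + 1)) → Equiv.Perm (Fin (n + 1)) → W.H T := fun τ σ =>
    (List.ofFn fun r : Fin n => W.pull (lift (V (τ.symm r.succ)) (V' (σ.symm r.succ))) Λ).prod
  have hD : ∀ τ σ, D τ σ ∈ cycleSpan W.toCohomologyData F T := by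
    intro τ σ
    refine list_prod_mem W _ fun x hx => ?_
    rw [List.mem_ofFn] at hx
    obtain ⟨r, rfl⟩ := hx
    exact pull_mem_cycleSpan W _ hΛF
  have hDe : ∀ τ σ, D τ σ ∈ W.evK T := fun τ σ => W.algClasses_le_evK _ (cycleSpan_le W _ (hD τ σ))
  have hΛj : Λ ∈ W.gr (X.prod X) (j + j) := by
    rw [hΛ]
    refine Submodule.sum_mem _ fun p _ => Submodule.sum_mem _ fun q _ =>
      Submodule.smul_mem _ _ (mul_gr W (pull_gr W _ (hfj p)) (pull_gr W _ (hfj q)))
  have hDj : ∀ τ σ, D τ σ ∈ W.gr T (n * (j + j)) := fun τ σ =>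
    list_prod_gr W _ fun r => pull_gr W _ hΛj
  choose y' hy' hy'2 using fun τ σ : Equiv.Perm (Fin (n + 1)) => push_mem_cycleSpan (F := F) W
    (lift (V (τ.symm 0)) (V' (σ.symm 0))) (mul_mem_cycleSpan W T ha (hD τ σ))
  have hpull : ∀ (τ σ : Equiv.Perm (Fin (n + 1))) (v w : W.H X),
      W.pullA (lift (V (τ.symm 0)) (V' (σ.symm 0)))
        (W.pull (fst X X) v * W.pull (snd X X) w) =
      W.pull (V (τ.symm 0)) v * W.pull (V' (σ.symm 0)) w := by
    intro τ σ v w
    rw [map_mul]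
    congr 1
    · have h3 := W.pull_comp (lift (V (τ.symm 0)) (V' (σ.symm 0))) (fst X X) v
      rw [lift_fst] at h3
      exact h3.symm
    · have h3 := W.pull_comp (lift (V (τ.symm 0)) (V' (σ.symm 0))) (snd X X) w
      rw [lift_snd] at h3
      exact h3.symm
  have hsum : ∀ v w : W.H X, W.trL (X.prod X)
      ((∑ τ, ∑ σ, (((Equiv.Perm.sign τ : ℤ) * (Equiv.Perm.sign σ : ℤ) * c τ σ : ℤ) : K) •
        y' τ σ) * (W.pull (fst X X) v * W.pull (snd X X) w)) =
      ∑ τ, ∑ σ, (((Equiv.Perm.sign τ : ℤ) * (Equiv.Perm.sign σ : ℤ) * c τ σ : ℤ) : K) *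
        W.trL T (a * D τ σ * (W.pull (V (τ.symm 0)) v * W.pull (V' (σ.symm 0)) w)) := by
    intro v w
    rw [sum_mul, map_sum]
    refine sum_congr rfl fun τ _ => ?_
    rw [sum_mul, map_sum]
    refine sum_congr rfl fun σ _ => ?_
    rw [smul_mul_assoc, map_smul, hy'2, hpull, smul_eq_mul]
  refine ⟨∑ τ, ∑ σ, (((Equiv.Perm.sign τ : ℤ) * (Equiv.Perm.sign σ : ℤ) * c τ σ : ℤ) : K) •
    y' τ σ, Submodule.sum_mem _ fun τ _ => Submodule.sum_mem _ fun σ _ => ?_, ?_, ?_⟩
  · have h1 : (((Equiv.Perm.sign τ : ℤ) * (Equiv.Perm.sign σ : ℤ) * c τ σ : ℤ) : K) =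
        ((((Equiv.Perm.sign τ : ℤ) * (Equiv.Perm.sign σ : ℤ) * c τ σ : ℤ) : F) : K) := by
      norm_cast
    change (((Equiv.Perm.sign τ : ℤ) * (Equiv.Perm.sign σ : ℤ) * c τ σ : ℤ) : K) • y' τ σ ∈ _
    rw [h1]
    exact smul_mem_cycleSpan W _ (hy' τ σ)
  · intro γ β
    -- Cramer's rule
    have hY : ∀ α β, W.trL (X.prod X)
        ((∑ τ, ∑ σ, (((Equiv.Perm.sign τ : ℤ) * (Equiv.Perm.sign σ : ℤ) * c τ σ : ℤ) : K) •
          y' τ σ) * (W.pull (fst X X) (f α) * W.pull (snd X X) (f β))) =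
        ∑ τ : Equiv.Perm (Fin (n + 1)), ∑ σ : Equiv.Perm (Fin (n + 1)),
          ((Equiv.Perm.sign τ : ℤ) : K) * ((Equiv.Perm.sign σ : ℤ) : K) *
        ∑ P : Fin n → Fin (n + 1), ∑ Q : Fin n → Fin (n + 1),
          (∏ s, Matrix.of M (P s) (Q s)) *
          W.trL T (a * wd W V V' (f ∘ ((Fin.cons α P : Fin (n + 1) → Fin (n + 1)) ∘ τ))
            (f ∘ ((Fin.cons β Q : Fin (n + 1) → Fin (n + 1)) ∘ σ))) := by
      intro α β
      rw [hsum]
      refine sum_congr rfl fun τ _ => sum_congr rfl fun σ _ => ?_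
      have h1 : a * D τ σ * (W.pull (V (τ.symm 0)) (f α) * W.pull (V' (σ.symm 0)) (f β)) =
          ∑ P : Fin n → Fin (n + 1), ∑ Q : Fin n → Fin (n + 1),
            ((∏ s, M (P s) (Q s)) * ((c τ σ : ℤ) : K)) •
              (a * wd W V V' (f ∘ ((Fin.cons α P : Fin (n + 1) → Fin (n + 1)) ∘ τ))
                (f ∘ ((Fin.cons β Q : Fin (n + 1) → Fin (n + 1)) ∘ σ))) := by
        rw [mul_assoc, W.evK_comm _ (D τ σ) _ (hDe τ σ)]
        change a * (_ * (List.ofFn fun r : Fin n =>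
          W.pull (lift (V (τ.symm r.succ)) (V' (σ.symm r.succ))) Λ).prod) = _
        rw [prod_expand W f M hΛ (fun r : Fin n => V (τ.symm r.succ))
          fun r : Fin n => V' (σ.symm r.succ), mul_sum, mul_sum]
        refine sum_congr rfl fun P _ => ?_
        rw [mul_sum, mul_sum]
        refine sum_congr rfl fun Q _ => ?_
        have h2 := hre τ σ (f ∘ (Fin.cons α P : Fin (n + 1) → Fin (n + 1)))
          (f ∘ (Fin.cons β Q : Fin (n + 1) → Fin (n + 1))) (fun i => hf _) fun i => hf _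
        rw [List.ofFn_succ, List.prod_cons] at h2
        have h3 : (W.pull (V (τ.symm 0)) (f α) * W.pull (V' (σ.symm 0)) (f β)) *
            (List.ofFn fun r : Fin n => W.pull (V (τ.symm r.succ)) (f (P r)) *
              W.pull (V' (σ.symm r.succ)) (f (Q r))).prod =
            c τ σ • wd W V V' (f ∘ ((Fin.cons α P : Fin (n + 1) → Fin (n + 1)) ∘ τ))
                (f ∘ ((Fin.cons β Q : Fin (n + 1) → Fin (n + 1)) ∘ σ)) := h2
        rw [mul_smul_comm, h3, ← Int.cast_smul_eq_zsmul K, smul_smul, mul_smul_comm]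
      rw [h1, map_sum, mul_sum, mul_sum]
      refine sum_congr rfl fun P _ => ?_
      rw [map_sum, mul_sum, mul_sum]
      refine sum_congr rfl fun Q _ => ?_
      rw [map_smul, smul_eq_mul]
      have h5 : ((c τ σ : ℤ) : K) * ((c τ σ : ℤ) : K) = 1 := by
        rcases hc τ σ with h | h <;> rw [h] <;> norm_num
      push_cast
      simp only [Matrix.of_apply]
      calc _ = ((Equiv.Perm.sign τ : ℤ) : K) * ((Equiv.Perm.sign σ : ℤ) : K) *
          ((∏ s, M (P s) (Q s)) * W.trL T (a * wd W V V'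
            (f ∘ ((Fin.cons α P : Fin (n + 1) → Fin (n + 1)) ∘ τ))
              (f ∘ ((Fin.cons β Q : Fin (n + 1) → Fin (n + 1)) ∘ σ)))) *
          (((c τ σ : ℤ) : K) * ((c τ σ : ℤ) : K)) := by ring
        _ = _ := by rw [h5, mul_one]
    have h1 := cramer (Matrix.of M) (fun P Q => W.trL T (a * wd W V V' (f ∘ P) (f ∘ Q))) _
      hY γ β
    refine h1.trans ?_
    by_cases hγ : γ = β
    · rw [if_pos hγ, if_pos hγ]
      congr 1
      rw [sqC, smul_sum, mul_sum, map_sum]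
      refine sum_congr rfl fun P _ => ?_
      rw [smul_sum, mul_sum, map_sum]
      refine sum_congr rfl fun Q _ => ?_
      rw [det_submatrix_eps, smul_smul, mul_smul_comm, map_smul, smul_eq_mul]
      ring
    · rw [if_neg hγ, if_neg hγ]
  · intro s t v w hv hw hne
    rw [hsum]
    refine sum_eq_zero fun τ _ => sum_eq_zero fun σ _ => ?_
    rw [W.tr_eq_zero_of_gr T hne (mul_gr W (mul_gr W haA (hDj τ σ))
      (mul_gr W (pull_gr W _ hv) (pull_gr W _ hw))), mul_zero]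

end Pool.Agent.Helper11.BD
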