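import Mathlib
import Pool.Agent.Helper11.BD.Contract

/-!
# Pairings with the square of the determinant
-/

universe u v w

open CategoryTheory Finset

namespace Pool.Agent.Helper11.BD

open Pool.Agent.Helper10 hiding IsAlgAut parityPart
open SmProjVar Pool.Agent.Helper10.GIT
open Pool.Agent.Helper11.Obs (extProd wordClass prodVar prodFst prodProj IsNumTrivial)

variable {k : Type u} [Field k] {K : Type v} [Field K] [CharZero K]
  (W : WeilCohomology.{u, v, w} k K)

lemma trL_pt_ne_zero : W.trL (pt k) 1 ≠ 0 := by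
  intro h0
  obtain ⟨x, -, hx⟩ := (W.trace (pt k)).bijective 0
  have e1 : (1 : W.H (pt k)) = x := hx 1 ⟨(W.graded (pt k)).one_mem, h0⟩
  have e2 : (0 : W.H (pt k)) = x := hx 0 ⟨Submodule.zero_mem _, by
    have := (W.trace (pt k)).map_smul 0 0
    rwa [zero_smul, zero_mul] at this⟩
  have e3 : (1 : W.H (pt k)) = 0 := e1.trans e2.symm
  obtain ⟨z, ⟨-, hz⟩, -⟩ := (W.trace (pt k)).bijective 1
  have e4 : z = 0 := by rw [← mul_one z, e3, mul_zero]
  have e5 : W.tr (pt k) 0 = 0 := by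
    have := (W.trace (pt k)).map_smul 0 0
    rwa [zero_smul, zero_mul] at this
  rw [e4, e5] at hz
  exact zero_ne_one hz

lemma extProd_one_eq {X : SmProjVar k} {b : ℕ} (v : Fin b → W.H X) :
    (extProd W.toCohomologyData (A := pt k) 1 v : W.H (cart X b)) =
      (List.ofFn fun q => W.pull (prodProj (pt k) (fun _ : Fin b => X) q) (v q)).prod := by
  change W.pullA (prodFst (pt k) fun _ : Fin b => X) 1 * _ = _
  rw [map_one, one_mul]

/-- the family with members `x s` and `y s` -/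
def glue {α : Type*} {b : ℕ} (x y : Fin b → α) (q : Σ _ : Fin 2, Fin b) : α :=
  if q.1 = 0 then x q.2 else y q.2

/-- words as external products -/
lemma word_eq (p : Bool) {X : SmProjVar k} {b b₀ : ℕ} (e : (Σ _ : Fin 2, Fin b) ≃ Fin b₀) :
    ∃ c : ℤ, (c = 1 ∨ c = -1) ∧ ∀ x y : Fin b → W.H X, (∀ i, x i ∈ par W p X) →
      (∀ i, y i ∈ par W p X) →
      wd W (fun s => prodProj (pt k) (fun _ : Fin b₀ => X) (e ⟨0, s⟩))
        (fun s => prodProj (pt k) (fun _ : Fin b₀ => X) (e ⟨1, s⟩)) x y =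
        c • (extProd W.toCohomologyData (A := pt k) 1 (fun q => glue x y (e.symm q)) :
          W.H (cart X b₀)) := by
  have hperm : ((List.ofFn fun s : Fin b => e ⟨0, s⟩) ++ List.ofFn fun s : Fin b => e ⟨1, s⟩).Perm
      (List.ofFn fun q : Fin b₀ => q) := by
    classical
    rw [List.perm_iff_count]
    intro a
    rw [List.count_append, count_ofFn, count_ofFn, count_ofFn]
    have h1 : (∑ q : Fin b₀, if q = a then 1 else 0) =
        ∑ q : Σ _ : Fin 2, Fin b, if e q = a then 1 else 0 :=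
      (Equiv.sum_comp e (fun q : Fin b₀ => if q = a then 1 else 0)).symm
    refine Eq.trans ?_ h1.symm
    rw [Fintype.sum_sigma, Fin.sum_univ_two]
  obtain ⟨c, hc, h⟩ := exists_sign_perm (W.H (cart X b₀)) (fun _ _ : Fin b₀ =>
    if p then (-1 : ℤ) else 1) (fun _ _ => by cases p <;> simp) hperm
  refine ⟨c, hc, fun x y hx hy => ?_⟩
  have hg : ∀ q, glue x y q ∈ par W p X := by
    intro q
    unfold glue
    split_ifs
    · exact hx _
    · exact hy _
  have h1 := h (fun q => W.pull (prodProj (pt k) (fun _ : Fin b₀ => X) q)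
    (glue x y (e.symm q))) fun i j => par_comm W (pull_par W _ (hg _)) (pull_par W _ (hg _))
  rw [List.map_append, List.prod_append, List.map_ofFn, List.map_ofFn, List.map_ofFn] at h1
  rw [extProd_one_eq]
  refine Eq.trans ?_ h1
  unfold wd
  congr 1
  · congr 2
    funext s
    change _ = W.pull _ (glue x y (e.symm (e ⟨0, s⟩)))
    rw [Equiv.symm_apply_apply]
    rfl
  · congr 2
    funext s
    change _ = W.pull _ (glue x y (e.symm (e ⟨1, s⟩)))
    rw [Equiv.symm_apply_apply]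
    rfl

lemma trL_mul_par (p : Bool) {X : SmProjVar k} {f : W.H X} (hf : f ∈ par W p X) (v : W.H X) :
    W.trL X (f * v) = (if p then -1 else 1) * W.trL X (v * f) := by
  obtain ⟨v₀, hv₀, v₁, hv₁, rfl⟩ := exists_parity W X v
  cases p with
  | false =>
    rw [W.evK_comm X f _ hf]
    simp
  | true =>
    have h0 : W.trL X (f * v₀) = 0 := trL_odK W X (odK_mul_evK W X hf hv₀)
    have h1 : W.trL X (v₀ * f) = 0 := trL_odK W X (W.evK_mul_odK X _ _ hv₀ hf)
    have h2 : f * v₁ = -(v₁ * f) := W.odK_anti X f v₁ hf hv₁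
    rw [mul_add, add_mul, map_add, map_add, h0, h1, h2, map_neg]
    simp

/-- the trace of the product of two words -/
lemma tr_word_mul (p : Bool) {X : SmProjVar k} {b b₀ : ℕ} (e : (Σ _ : Fin 2, Fin b) ≃ Fin b₀) :
    ∃ c : K, c ≠ 0 ∧ ∀ x y : Fin b → W.H X, (∀ i, x i ∈ par W p X) →
      (∀ i, y i ∈ par W p X) → ∀ v : (Σ _ : Fin 2, Fin b) → W.H X,
      W.trL (cart X b₀) (wd W (fun s => prodProj (pt k) (fun _ : Fin b₀ => X) (e ⟨0, s⟩))
        (fun s => prodProj (pt k) (fun _ : Fin b₀ => X) (e ⟨1, s⟩)) x y *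
        (extProd W.toCohomologyData (A := pt k) 1 (fun q => v (e.symm q)) : W.H (cart X b₀))) =
      c * ((∏ s, W.trL X (v ⟨0, s⟩ * x s)) * ∏ s, W.trL X (v ⟨1, s⟩ * y s)) := by
  obtain ⟨c, hc, h⟩ := word_eq W p (X := X) e
  obtain ⟨c', hc', h'⟩ := exists_tr_mul W p X b₀
  have hs : ((if p then (-1 : K) else 1) ^ b * (if p then (-1 : K) else 1) ^ b) ≠ 0 := by
    cases p <;> simp
  refine ⟨(c : K) * (c' * (W.trL (pt k) 1 *
    ((if p then (-1 : K) else 1) ^ b * (if p then (-1 : K) else 1) ^ b))), ?_,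
    fun x y hx hy v => ?_⟩
  · refine mul_ne_zero ?_ (mul_ne_zero ?_ (mul_ne_zero (trL_pt_ne_zero W) hs))
    · rcases hc with rfl | rfl <;> simp
    · rcases hc' with rfl | rfl <;> simp
  · have hg : ∀ q, glue x y q ∈ par W p X := by
      intro q
      unfold glue
      split_ifs
      · exact hx _
      · exact hy _
    rw [h x y hx hy, smul_mul_assoc, ← Int.cast_smul_eq_zsmul K, map_smul, smul_eq_mul,
      h' _ _ fun i => hg _]
    have h1 : ∏ q, W.trL X (glue x y (e.symm q) * v (e.symm q)) =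
        ∏ q, W.trL X (glue x y q * v q) :=
      Equiv.prod_comp e.symm (fun q => W.trL X (glue x y q * v q))
    have h2 : ∏ q : Σ _ : Fin 2, Fin b, W.trL X (glue x y q * v q) =
        (∏ s, W.trL X (x s * v ⟨0, s⟩)) * ∏ s, W.trL X (y s * v ⟨1, s⟩) := by
      rw [Fintype.prod_sigma, Fin.prod_univ_two]
      rfl
    have h3 : ∀ s, W.trL X (x s * v ⟨0, s⟩) =
        (if p then (-1 : K) else 1) * W.trL X (v ⟨0, s⟩ * x s) :=
      fun s => trL_mul_par W p (hx s) _
    have h4 : ∀ s, W.trL X (y s * v ⟨1, s⟩) =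
        (if p then (-1 : K) else 1) * W.trL X (v ⟨1, s⟩ * y s) :=
      fun s => trL_mul_par W p (hy s) _
    rw [h1, h2, prod_congr rfl fun s _ => h3 s, prod_congr rfl fun s _ => h4 s,
      prod_mul_distrib, prod_mul_distrib, prod_const, card_univ, Fintype.card_fin]
    ring

/-- the square of the determinant of a subspace -/
theorem isDeterminant_sqC (p : Bool) {X : SmProjVar k} {b b₀ : ℕ}
    (e : (Σ _ : Fin 2, Fin b) ≃ Fin b₀) {f : Fin b → W.H X} (hf : ∀ i, f i ∈ par W p X)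
    (hli : LinearIndependent K f) {a : K} (ha : a ≠ 0) :
    IsDeterminant W.toCohomologyData (fun _ : Fin 2 => Submodule.span K (Set.range f))
      (a • sqC W (fun s => prodProj (pt k) (fun _ : Fin b₀ => X) (e ⟨0, s⟩))
        (fun s => prodProj (pt k) (fun _ : Fin b₀ => X) (e ⟨1, s⟩)) f : W.H (cart X b₀)) := by
  obtain ⟨c, hc, h⟩ := tr_word_mul W p (X := X) e
  refine ⟨fun _ => b, fun _ => f, e, a * c, mul_ne_zero ha hc, fun _ => ⟨hli, rfl⟩, fun v => ?_⟩
  change W.trL (cart X b₀) (a • sqC W (fun s => prodProj (pt k) (fun _ : Fin b₀ => X) (e ⟨0, s⟩))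
        (fun s => prodProj (pt k) (fun _ : Fin b₀ => X) (e ⟨1, s⟩)) f *
          extProd W.toCohomologyData (A := pt k) 1 (fun q => v (e.symm q))) = _
  rw [smul_mul_assoc, map_smul, smul_eq_mul, sqC, sum_mul, map_sum]
  have h1 : ∀ P : Fin b → Fin b, W.trL (cart X b₀) ((∑ Q : Fin b → Fin b,
      ((eps P : K) * eps Q) • wd W (fun s => prodProj (pt k) (fun _ : Fin b₀ => X) (e ⟨0, s⟩))
        (fun s => prodProj (pt k) (fun _ : Fin b₀ => X) (e ⟨1, s⟩)) (f ∘ P) (f ∘ Q)) *
          extProd W.toCohomologyData (A := pt k) 1 (fun q => v (e.symm q))) =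
      ∑ Q : Fin b → Fin b, c * ((eps P * ∏ s, W.trL X (v ⟨0, s⟩ * f (P s))) *
        (eps Q * ∏ s, W.trL X (v ⟨1, s⟩ * f (Q s)))) := by
    intro P
    rw [sum_mul, map_sum]
    refine sum_congr rfl fun Q _ => ?_
    rw [smul_mul_assoc, map_smul, smul_eq_mul, h (f ∘ P) (f ∘ Q) (fun i => hf _) fun i => hf _]
    simp only [Function.comp_apply]
    ring
  rw [sum_congr rfl fun P _ => h1 P]
  have h2 : ∀ y : Fin 2, ∑ P : Fin b → Fin b, eps P * ∏ s, W.trL X (v ⟨y, s⟩ * f (P s)) =
      Matrix.det (Matrix.of fun s t => W.pairing X (v ⟨y, s⟩) (f t)) := by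
    intro y
    have h3 := sum_eps_mul (Matrix.of fun t s => W.trL X (v ⟨y, s⟩ * f t))
    rw [← Matrix.det_transpose] at h3
    exact h3
  simp only [← mul_sum, ← sum_mul]
  rw [h2 0, h2 1, Fin.prod_univ_two]
  ring

/-- the pairing of the squares of two determinants -/
theorem pairing_sqC_ne_zero (p : Bool) {X : SmProjVar k} {b b₀ : ℕ}
    (e : (Σ _ : Fin 2, Fin b) ≃ Fin b₀) {g : Fin b → W.H X} (hg : ∀ i, g i ∈ par W p X)
    {f : Fin 2 → Fin b → W.H X} {z : W.H (cart X b₀)} {a : K} (ha : a ≠ 0)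
    (hz : ∀ v : (Σ _ : Fin 2, Fin b) → W.H X,
      W.pairing (cart X b₀) z (extProd W.toCohomologyData (A := pt k) 1 fun q => v (e.symm q)) =
        a * ∏ y, Matrix.det (Matrix.of fun s t => W.pairing X (v ⟨y, s⟩) (f y t)))
    (hdet : ∀ y, Matrix.det (Matrix.of fun s t => W.pairing X (g s) (f y t)) ≠ 0) :
    W.pairing (cart X b₀) z (sqC W (fun s => prodProj (pt k) (fun _ : Fin b₀ => X) (e ⟨0, s⟩))
        (fun s => prodProj (pt k) (fun _ : Fin b₀ => X) (e ⟨1, s⟩)) g) ≠ 0 := by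
  obtain ⟨c, hc, h⟩ := word_eq W p (X := X) e
  have key : W.pairing (cart X b₀) z (sqC W (fun s => prodProj (pt k) (fun _ : Fin b₀ => X)
      (e ⟨0, s⟩)) (fun s => prodProj (pt k) (fun _ : Fin b₀ => X) (e ⟨1, s⟩)) g) =
      (b.factorial : K) * b.factorial * (c * (a * ∏ y, Matrix.det (Matrix.of fun s t =>
        W.pairing X (g s) (f y t)))) := by
    change W.trL (cart X b₀) (z * _) = _
    rw [sqC, mul_sum, map_sum]
    have h1 : ∀ P : Fin b → Fin b, W.trL (cart X b₀) (z * ∑ Q : Fin b → Fin b,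
        ((eps P : K) * eps Q) • wd W (fun s => prodProj (pt k) (fun _ : Fin b₀ => X) (e ⟨0, s⟩))
        (fun s => prodProj (pt k) (fun _ : Fin b₀ => X) (e ⟨1, s⟩)) (g ∘ P) (g ∘ Q)) =
        ∑ Q : Fin b → Fin b, (eps P * eps P) * ((eps Q * eps Q) *
          (c * (a * ∏ y, Matrix.det (Matrix.of fun s t => W.pairing X (g s) (f y t))))) := by
      intro P
      rw [mul_sum, map_sum]
      refine sum_congr rfl fun Q _ => ?_
      rw [mul_smul_comm, map_smul, smul_eq_mul, h (g ∘ P) (g ∘ Q) (fun i => hg _) fun i => hg _,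
        ← Int.cast_smul_eq_zsmul K, mul_smul_comm, map_smul, smul_eq_mul]
      have h2 : W.trL (cart X b₀) (z * (extProd W.toCohomologyData (A := pt k) 1
          (fun q => glue (g ∘ P) (g ∘ Q) (e.symm q)) : W.H (cart X b₀))) =
          a * ∏ y, Matrix.det (Matrix.of fun s t =>
            W.pairing X (glue (g ∘ P) (g ∘ Q) ⟨y, s⟩) (f y t)) := hz _
      have h3 : ∀ (P : Fin b → Fin b) (y : Fin 2),
          Matrix.det (Matrix.of fun s t => W.pairing X (g (P s)) (f y t)) =
          eps P * Matrix.det (Matrix.of fun s t => W.pairing X (g s) (f y t)) := by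
        intro P y
        have h4 := det_submatrix_eps (Matrix.of fun s t => W.pairing X (g s) (f y t)) P id
        rw [eps_id] at h4
        refine Eq.trans ?_ (h4.trans ?_)
        · rfl
        · ring
      rw [h2, Fin.prod_univ_two, Fin.prod_univ_two]
      have h5 : Matrix.det (Matrix.of fun s t =>
            W.pairing X (glue (g ∘ P) (g ∘ Q) ⟨0, s⟩) (f 0 t)) =
          eps P * Matrix.det (Matrix.of fun s t => W.pairing X (g s) (f 0 t)) := h3 P 0
      have h6 : Matrix.det (Matrix.of fun s t =>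
            W.pairing X (glue (g ∘ P) (g ∘ Q) ⟨1, s⟩) (f 1 t)) =
          eps Q * Matrix.det (Matrix.of fun s t => W.pairing X (g s) (f 1 t)) := h3 Q 1
      rw [h5, h6]
      ring
    rw [sum_congr rfl fun P _ => h1 P]
    simp only [← mul_sum, ← sum_mul]
    rw [sum_eps_sq]
    ring
  rw [key]
  refine mul_ne_zero (mul_ne_zero ?_ ?_) (mul_ne_zero ?_ (mul_ne_zero ha ?_))
  · exact Nat.cast_ne_zero.mpr b.factorial_ne_zero
  · exact Nat.cast_ne_zero.mpr b.factorial_ne_zero
  · rcases hc with rfl | rfl <;> simp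
  · exact prod_ne_zero_iff.mpr fun y _ => hdet y

end Pool.Agent.Helper11.BD
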