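import Mathlib
import Pool.Agent.Helper11.BD.Pair
import Pool.Agent.Helper11.Ro.St.R5

/-!
# Pairings with products of squares of determinants
-/

universe u v w

open CategoryTheory Finset

namespace Pool.Agent.Helper11.BD

open Pool.Agent.Helper10 hiding IsAlgAut parityPart
open SmProjVar Pool.Agent.Helper10.GIT
open Pool.Agent.Helper11.Obs (extProd wordClass prodVar prodFst prodProj IsNumTrivial)

variable {k : Type u} [Field k] {K : Type v} [Field K] [CharZero K]
  (W : WeilCohomology.{u, v, w} k K)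

/-- the slots: the two copies of the group `y` -/
noncomputable def slot (X : SmProjVar k) {m b b₀ : ℕ} (e : (Σ _ : Fin m, Fin b) ≃ Fin b₀)
    (t : Bool) (y : Fin m) (s : Fin b) :
    ((cart X b₀).prod (cart X b₀)).toOver ⟶ X.toOver :=
  (if t then snd (cart X b₀) (cart X b₀) else fst (cart X b₀) (cart X b₀)) ≫
    prodProj (pt k) (fun _ : Fin b₀ => X) (e ⟨y, s⟩)

/-- reordering the words -/
lemma slot_perm {m b b₀ : ℕ} (e : (Σ _ : Fin m, Fin b) ≃ Fin b₀) :
    ((List.ofFn fun y : Fin m => (List.ofFn fun s : Fin b => (false, e ⟨y, s⟩)) ++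
      List.ofFn fun s : Fin b => (true, e ⟨y, s⟩)).flatten : List (Bool × Fin b₀)).Perm
      ((List.ofFn fun q : Fin b₀ => (false, q)) ++ List.ofFn fun q : Fin b₀ => (true, q)) := by
  classical
  rw [List.perm_iff_count]
  intro a
  rw [count_ofFn_flatten, List.count_append, count_ofFn, count_ofFn]
  have h1 : ∀ y : Fin m, List.count a ((List.ofFn fun s : Fin b => (false, e ⟨y, s⟩)) ++
      List.ofFn fun s : Fin b => (true, e ⟨y, s⟩)) =
      (∑ s, if ((false, e ⟨y, s⟩) : Bool × Fin b₀) = a then 1 else 0) +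
        ∑ s, if ((true, e ⟨y, s⟩) : Bool × Fin b₀) = a then 1 else 0 := by
    intro y
    rw [List.count_append, count_ofFn, count_ofFn]
  rw [sum_congr rfl fun y _ => h1 y, sum_add_distrib]
  congr 1
  · rw [← Equiv.sum_comp e (fun q : Fin b₀ => if ((false, q) : Bool × Fin b₀) = a then 1 else 0),
      Fintype.sum_sigma]
  · rw [← Equiv.sum_comp e (fun q : Fin b₀ => if ((true, q) : Bool × Fin b₀) = a then 1 else 0),
      Fintype.sum_sigma]

/-- the class with letters `x y s` -/
lemma exists_slot_sign (p : Bool) {X : SmProjVar k} {m b b₀ : ℕ}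
    (e : (Σ _ : Fin m, Fin b) ≃ Fin b₀) :
    ∃ c : ℤ, (c = 1 ∨ c = -1) ∧ ∀ x x' : Fin m → Fin b → W.H X, (∀ y i, x y i ∈ par W p X) →
      (∀ y i, x' y i ∈ par W p X) →
      (List.ofFn fun y => wd W (slot X e false y) (slot X e true y) (x y) (x' y)).prod =
        c • (W.pull (fst (cart X b₀) (cart X b₀)) (extProd W.toCohomologyData (A := pt k) 1
            fun q => x (e.symm q).1 (e.symm q).2) *
          W.pull (snd (cart X b₀) (cart X b₀)) (extProd W.toCohomologyData (A := pt k) 1
            fun q => x' (e.symm q).1 (e.symm q).2)) := by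
  obtain ⟨c, hc, h⟩ := exists_sign_perm (W.H ((cart X b₀).prod (cart X b₀)))
    (fun _ _ : Bool × Fin b₀ => if p then (-1 : ℤ) else 1) (fun _ _ => by cases p <;> simp)
    (slot_perm e)
  refine ⟨c, hc, fun x x' hx hx' => ?_⟩
  let L : Bool × Fin b₀ → W.H ((cart X b₀).prod (cart X b₀)) := fun a =>
    if a.1 then W.pull (snd (cart X b₀) (cart X b₀) ≫ prodProj (pt k) (fun _ : Fin b₀ => X) a.2)
        (x' (e.symm a.2).1 (e.symm a.2).2)
      else W.pull (fst (cart X b₀) (cart X b₀) ≫ prodProj (pt k) (fun _ : Fin b₀ => X) a.2)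
        (x (e.symm a.2).1 (e.symm a.2).2)
  have hL : ∀ a, L a ∈ par W p _ := by
    rintro ⟨a, a'⟩
    cases a
    · exact pull_par W _ (hx _ _)
    · exact pull_par W _ (hx' _ _)
  have h1 := h L fun i j => par_comm W (hL i) (hL j)
  rw [List.map_append, List.prod_append, List.map_ofFn, List.map_ofFn, List.map_flatten,
    List.prod_flatten, List.map_ofFn, List.map_ofFn] at h1
  refine Eq.trans ?_ (h1.trans ?_)
  · congr 1
    congr 1
    funext y
    simp only [Function.comp_apply, List.map_append, List.prod_append, List.map_ofFn]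
    unfold wd
    congr 1
    · congr 1
      congr 1
      funext s
      change W.pull (fst (cart X b₀) (cart X b₀) ≫ prodProj (pt k) (fun _ : Fin b₀ => X) (e ⟨y, s⟩))
        (x y s) = W.pull _ (x (e.symm (e ⟨y, s⟩)).1 (e.symm (e ⟨y, s⟩)).2)
      rw [Equiv.symm_apply_apply]
    · congr 1
      congr 1
      funext s
      change W.pull (snd (cart X b₀) (cart X b₀) ≫ prodProj (pt k) (fun _ : Fin b₀ => X) (e ⟨y, s⟩))
        (x' y s) = W.pull _ (x' (e.symm (e ⟨y, s⟩)).1 (e.symm (e ⟨y, s⟩)).2)
      rw [Equiv.symm_apply_apply]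
  · congr 1
    rw [extProd_one_eq, extProd_one_eq]
    congr 1
    · have h2 := map_list_prod (W.pullA (fst (cart X b₀) (cart X b₀)))
        (List.ofFn fun q => W.pull (prodProj (pt k) (fun _ : Fin b₀ => X) q)
          (x (e.symm q).1 (e.symm q).2))
      rw [List.map_ofFn] at h2
      refine Eq.trans ?_ h2.symm
      congr 1
      congr 1
      funext q
      exact W.pull_comp _ _ _
    · have h2 := map_list_prod (W.pullA (snd (cart X b₀) (cart X b₀)))
        (List.ofFn fun q => W.pull (prodProj (pt k) (fun _ : Fin b₀ => X) q)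
          (x' (e.symm q).1 (e.symm q).2))
      rw [List.map_ofFn] at h2
      refine Eq.trans ?_ h2.symm
      congr 1
      congr 1
      funext q
      exact W.pull_comp _ _ _

/-- **The pairing of `z × z`, for a class `z` in a power of a determinant, with a product of squares
of determinants.** -/
theorem trL_prod_ne_zero (p : Bool) {X : SmProjVar k} {m b b₀ : ℕ}
    (e : (Σ _ : Fin m, Fin b) ≃ Fin b₀) {g : Fin b → W.H X} (hg : ∀ i, g i ∈ par W p X)
    {f : Fin m → Fin b → W.H X} {z : W.H (cart X b₀)} (hze : z ∈ W.evK (cart X b₀)) {a : K}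
    (ha : a ≠ 0)
    (hz : ∀ v : (Σ _ : Fin m, Fin b) → W.H X,
      W.pairing (cart X b₀) z (extProd W.toCohomologyData (A := pt k) 1 fun q => v (e.symm q)) =
        a * ∏ y, Matrix.det (Matrix.of fun s t => W.pairing X (v ⟨y, s⟩) (f y t)))
    (hdet : ∀ y, Matrix.det (Matrix.of fun s t => W.pairing X (g s) (f y t)) ≠ 0) :
    W.trL ((cart X b₀).prod (cart X b₀)) ((List.ofFn fun y =>
        sqC W (slot X e false y) (slot X e true y) g).prod *
      (W.pullA (fst (cart X b₀) (cart X b₀)) z * W.pullA (snd (cart X b₀) (cart X b₀)) z)) ≠ 0 := by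
  obtain ⟨c, hc, h⟩ := exists_slot_sign W p (X := X) e
  set d : K := ∏ y, Matrix.det (Matrix.of fun s t => W.pairing X (g s) (f y t)) with hd
  -- the values of `z`
  have hval : ∀ P : Fin m → Fin b → Fin b,
      W.trL (cart X b₀) (z * (extProd W.toCohomologyData (A := pt k) 1
        (fun q => g (P (e.symm q).1 (e.symm q).2)) : W.H (cart X b₀))) =
        a * (∏ y, (eps (P y) : K)) * d := by
    intro P
    have h2 : W.trL (cart X b₀) (z * (extProd W.toCohomologyData (A := pt k) 1
        (fun q => g (P (e.symm q).1 (e.symm q).2)) : W.H (cart X b₀))) =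
        a * ∏ y, Matrix.det (Matrix.of fun s t => W.pairing X (g (P y s)) (f y t)) :=
      hz fun q => g (P q.1 q.2)
    have h3 : ∀ y : Fin m, Matrix.det (Matrix.of fun s t => W.pairing X (g (P y s)) (f y t)) =
        eps (P y) * Matrix.det (Matrix.of fun s t => W.pairing X (g s) (f y t)) := by
      intro y
      have h4 := det_submatrix_eps (Matrix.of fun s t => W.pairing X (g s) (f y t)) (P y) id
      rw [eps_id] at h4
      refine Eq.trans ?_ (h4.trans ?_)
      · rfl
      · ring
    rw [h2, prod_congr rfl fun y _ => h3 y, prod_mul_distrib, mul_assoc]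
  have htr : ∀ (x y : W.H (cart X b₀)), W.trL ((cart X b₀).prod (cart X b₀))
      (W.pullA (fst (cart X b₀) (cart X b₀)) x * W.pullA (snd (cart X b₀) (cart X b₀)) y) =
        W.trL _ x * W.trL _ y := fun x y => W.tr_prod _ _ x y
  have hcomm : ∀ A B : W.H (cart X b₀),
      W.trL ((cart X b₀).prod (cart X b₀))
        ((W.pull (fst (cart X b₀) (cart X b₀)) A * W.pull (snd (cart X b₀) (cart X b₀)) B) *
        (W.pullA (fst (cart X b₀) (cart X b₀)) z * W.pullA (snd (cart X b₀) (cart X b₀)) z)) =
      W.trL _ (z * A) * W.trL _ (z * B) := by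
    intro A B
    have h1 : W.pull (snd (cart X b₀) (cart X b₀)) B * W.pullA (fst (cart X b₀) (cart X b₀)) z =
        W.pullA (fst (cart X b₀) (cart X b₀)) z * W.pull (snd (cart X b₀) (cart X b₀)) B :=
      (W.evK_comm _ _ _ (W.pull_evK _ _ hze)).symm
    rw [W.evK_comm _ z A hze, W.evK_comm _ z B hze, ← htr,
      map_mul (W.pullA (fst (cart X b₀) (cart X b₀))) A z,
      map_mul (W.pullA (snd (cart X b₀) (cart X b₀))) B z, mul_assoc,
      ← mul_assoc (W.pull (snd (cart X b₀) (cart X b₀)) B), h1]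
    simp only [mul_assoc]
    rfl
  have hsq : ∀ y : Fin m, sqC W (slot X e false y) (slot X e true y) g =
      ∑ R : (Fin b → Fin b) × (Fin b → Fin b), ((eps R.1 : K) * eps R.2) •
        wd W (slot X e false y) (slot X e true y) (g ∘ R.1) (g ∘ R.2) := by
    intro y
    rw [sqC, Fintype.sum_prod_type]
  have key : W.trL ((cart X b₀).prod (cart X b₀)) ((List.ofFn fun y =>
        sqC W (slot X e false y) (slot X e true y) g).prod *
      (W.pullA (fst (cart X b₀) (cart X b₀)) z * W.pullA (snd (cart X b₀) (cart X b₀)) z)) =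
      (c : K) * (a * a * (d * d)) * ((b.factorial : K) * b.factorial) ^ m := by
    simp only [hsq]
    rw [ofFn_prod_sum (Ω := K) (α := fun _ : Fin m => (Fin b → Fin b) × (Fin b → Fin b))
      (fun _ R => (eps R.1 : K) * eps R.2)
      (fun y R => wd W (slot X e false y) (slot X e true y) (g ∘ R.1) (g ∘ R.2)), sum_mul, map_sum]
    have h1 : ∀ R : Fin m → (Fin b → Fin b) × (Fin b → Fin b),
        W.trL ((cart X b₀).prod (cart X b₀)) ((∏ y, (eps (R y).1 : K) * eps (R y).2) •
          (List.ofFn fun y => wd W (slot X e false y) (slot X e true y) (g ∘ (R y).1)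
            (g ∘ (R y).2)).prod *
          (W.pullA (fst (cart X b₀) (cart X b₀)) z * W.pullA (snd (cart X b₀) (cart X b₀)) z)) =
        (c : K) * (a * a * (d * d)) *
          ∏ y, ((eps (R y).1 : K) * eps (R y).1) * (eps (R y).2 * eps (R y).2) := by
      intro R
      rw [h (fun y => g ∘ (R y).1) (fun y => g ∘ (R y).2) (fun _ _ => hg _) fun _ _ => hg _,
        smul_mul_assoc, map_smul, smul_mul_assoc, ← Int.cast_smul_eq_zsmul K, map_smul, hcomm]
      have e1 := hval fun y => (R y).1
      have e2 := hval fun y => (R y).2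
      simp only [Function.comp_apply]
      rw [e1, e2, smul_eq_mul, smul_eq_mul]
      simp only [prod_mul_distrib]
      ring
    rw [sum_congr rfl fun R _ => h1 R, ← mul_sum]
    congr 1
    have h2 : ∑ R : Fin m → (Fin b → Fin b) × (Fin b → Fin b),
        ∏ y, ((eps (R y).1 : K) * eps (R y).1) * (eps (R y).2 * eps (R y).2) =
        ∏ _y : Fin m, ∑ R : (Fin b → Fin b) × (Fin b → Fin b),
          ((eps R.1 : K) * eps R.1) * (eps R.2 * eps R.2) := by
      rw [prod_univ_sum]
      rfl
    rw [h2, prod_const, card_univ, Fintype.card_fin]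
    congr 1
    rw [Fintype.sum_prod_type]
    simp only [← mul_sum, ← sum_mul]
    rw [sum_eps_sq]
  rw [key]
  have hd0 : d ≠ 0 := prod_ne_zero_iff.mpr fun y _ => hdet y
  refine mul_ne_zero (mul_ne_zero ?_ (mul_ne_zero (mul_ne_zero ha ha) (mul_ne_zero hd0 hd0))) ?_
  · rcases hc with rfl | rfl <;> simp
  · exact pow_ne_zero _ (mul_ne_zero (Nat.cast_ne_zero.mpr b.factorial_ne_zero)
      (Nat.cast_ne_zero.mpr b.factorial_ne_zero))

lemma list_prod_smul {m : ℕ} {A : Type*} [Ring A] [Algebra K A] (a : K) (x : Fin m → A) :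
    (List.ofFn fun y => a • x y).prod = a ^ m • (List.ofFn x).prod := by
  induction m with
  | zero => simp
  | succ m ih =>
    rw [List.ofFn_succ, List.prod_cons, List.ofFn_succ, List.prod_cons, ih, smul_mul_smul_comm,
      pow_succ']

/-- the squares of determinants in the slots are not numerically trivial -/
theorem exists_trL_ne_zero (p : Bool) {X : SmProjVar k} {m b b₀ : ℕ} (hm : 0 < m)
    (e : (Σ _ : Fin m, Fin b) ≃ Fin b₀) {g : Fin b → W.H X} (hg : ∀ i, g i ∈ par W p X)
    {f : Fin m → Fin b → W.H X} {z : W.H (cart X b₀)} (hzA : z ∈ W.algClasses (cart X b₀)) {a : K}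
    (ha : a ≠ 0)
    (hz : ∀ v : (Σ _ : Fin m, Fin b) → W.H X,
      W.pairing (cart X b₀) z (extProd W.toCohomologyData (A := pt k) 1 fun q => v (e.symm q)) =
        a * ∏ y, Matrix.det (Matrix.of fun s t => W.pairing X (v ⟨y, s⟩) (f y t)))
    (hdet : ∀ y, Matrix.det (Matrix.of fun s t => W.pairing X (g s) (f y t)) ≠ 0) {a' : K}
    (hsq : ∀ y, a' • sqC W (slot X e false y) (slot X e true y) g ∈
      W.algClasses ((cart X b₀).prod (cart X b₀))) (ha' : a' ≠ 0) :
    (∃ x ∈ W.algClasses ((cart X b₀).prod (cart X b₀)),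
      W.trL ((cart X b₀).prod (cart X b₀)) ((a' •
        sqC W (slot X e false ⟨0, hm⟩) (slot X e true ⟨0, hm⟩) g) * x) ≠ 0) ∧
      ¬ IsNumTrivial W.toCohomologyData _ z := by
  have hze : z ∈ W.evK _ := W.algClasses_le_evK _ hzA
  have h0 := trL_prod_ne_zero W p e hg hze ha hz hdet
  have hfz : W.pullA (fst (cart X b₀) (cart X b₀)) z ∈ W.algClasses _ :=
    W.pull_mem_algClasses _ _ hzA
  have hsz : W.pullA (snd (cart X b₀) (cart X b₀)) z ∈ W.algClasses _ :=
    W.pull_mem_algClasses _ _ hzA
  have h1 : W.trL ((cart X b₀).prod (cart X b₀)) ((List.ofFn fun y => a' •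
        sqC W (slot X e false y) (slot X e true y) g).prod *
      (W.pullA (fst (cart X b₀) (cart X b₀)) z * W.pullA (snd (cart X b₀) (cart X b₀)) z)) ≠
      0 := by
    rw [list_prod_smul, smul_mul_assoc, map_smul]
    exact smul_ne_zero (pow_ne_zero _ ha') h0
  have hone : (1 : W.H ((cart X b₀).prod (cart X b₀))) ∈ W.algClasses _ :=
    cycleSpan_le (F := ⊤) W _ (Ro.r5_one_mem W _)
  have hlist : ∀ l : List (W.H ((cart X b₀).prod (cart X b₀))),
      (∀ x ∈ l, x ∈ W.algClasses ((cart X b₀).prod (cart X b₀))) →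
        l.prod ∈ W.algClasses ((cart X b₀).prod (cart X b₀)) := by
    intro l
    induction l with
    | nil => intro _; rw [List.prod_nil]; exact hone
    | cons x l ih =>
      intro hl
      rw [List.prod_cons]
      exact W.mul_mem_algClasses _ _ (hl x (List.mem_cons_self ..)) _
        (ih fun y hy => hl y (List.mem_cons_of_mem _ hy))
  constructor
  · obtain ⟨m, rfl⟩ : ∃ m', m = m' + 1 := ⟨m - 1, by omega⟩
    rw [List.ofFn_succ, List.prod_cons, mul_assoc] at h1
    refine ⟨_, ?_, h1⟩
    refine W.mul_mem_algClasses _ _ (hlist _ fun x hx => ?_) _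
      (W.mul_mem_algClasses _ _ hfz _ hsz)
    rw [List.mem_ofFn] at hx
    obtain ⟨r, rfl⟩ := hx
    exact hsq _
  · rintro ⟨-, h2⟩
    apply h1
    have hw : (List.ofFn fun y => a' • sqC W (slot X e false y) (slot X e true y) g).prod ∈
        W.algClasses ((cart X b₀).prod (cart X b₀)) := hlist _ fun x hx => by
      rw [List.mem_ofFn] at hx
      obtain ⟨r, rfl⟩ := hx
      exact hsq _
    obtain ⟨y, hy, h3⟩ := W.push_mem_algClasses (fst (cart X b₀) (cart X b₀)) _
      (W.mul_mem_algClasses _ _ hw _ hsz)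
    have h4 : (List.ofFn fun y => a' • sqC W (slot X e false y) (slot X e true y) g).prod *
        (W.pullA (fst (cart X b₀) (cart X b₀)) z * W.pullA (snd (cart X b₀) (cart X b₀)) z) =
        (List.ofFn fun y => a' • sqC W (slot X e false y) (slot X e true y) g).prod *
        W.pullA (snd (cart X b₀) (cart X b₀)) z * W.pullA (fst (cart X b₀) (cart X b₀)) z := by
      rw [W.evK_comm _ (W.pullA (fst (cart X b₀) (cart X b₀)) z) _ (W.pull_evK _ _ hze),
        mul_assoc]
    rw [h4, ← h3, W.evK_comm _ y z (W.algClasses_le_evK _ hy)]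
    exact h2 y hy

end Pool.Agent.Helper11.BD
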