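import Mathlib
import Pool.Agent.Helper11.BD.Prod
import Pool.Agent.Helper11.Zt.Trans

/-!
# Homogeneous algebraic correspondences
-/

universe u v w

open CategoryTheory Finset

namespace Pool.Agent.Helper11.BD

open Pool.Agent.Helper10 hiding IsAlgAut parityPart
open SmProjVar Pool.Agent.Helper10.GIT

variable {k : Type u} [Field k] {K : Type v} [Field K] [CharZero K]
  (W : WeilCohomology.{u, v, w} k K) {F : Subfield K} {X : SmProjVar k}

/-! ### Maps with coefficients in a subfield -/

lemma IsMapOver.trL_eq {u : W.H X → W.H X} (hu : IsMapOver W.toCohomologyData F X u) :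
    ∃ c ∈ cycleSpan W.toCohomologyData F (X.prod X), ∀ x y, W.trL X (u x * y) =
      W.trL (X.prod X) (c * (W.pull (fst X X) x * W.pull (snd X X) y)) := by
  obtain ⟨c, hc, h⟩ := hu
  refine ⟨c, hc, fun x y => ?_⟩
  have h1 : W.trL X (u x * y) = W.trL (X.prod X) (W.pull (fst X X) x * c * W.pull (snd X X) y) :=
    h x y
  rw [h1, ← W.evK_comm _ c _ (W.algClasses_le_evK _ (cycleSpan_le W _ hc)), mul_assoc]

lemma exists_mapOver {c : W.H (X.prod X)} (hc : c ∈ cycleSpan W.toCohomologyData F (X.prod X)) :
    ∃ u : W.H X → W.H X, IsMapOver W.toCohomologyData F X u ∧ ∀ x y, W.trL X (u x * y) =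
      W.trL (X.prod X) (c * (W.pull (fst X X) x * W.pull (snd X X) y)) := by
  obtain ⟨u, -, hu⟩ := Obs.exists_map W K (cycleSpan_le W _ hc)
  refine ⟨u, (Ro.isMapOver_iff W).mpr ⟨c, hc, hu⟩, fun x y => ?_⟩
  have h1 := Ro.r5_tr W c x y
  rw [hu, Obs.tr_one_mul] at h1
  have h2 := (algebraMap K K).injective h1
  have h3 : W.trL X (u x * y) =
      W.trL (X.prod X) (W.pull (fst X X) x * c * W.pull (snd X X) y) := h2
  rw [h3, ← W.evK_comm _ c _ (W.algClasses_le_evK _ (cycleSpan_le W _ hc)), mul_assoc]

lemma isMapOver_mul {a : W.H X} (ha : a ∈ cycleSpan W.toCohomologyData F X) :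
    IsMapOver W.toCohomologyData F X fun x => a * x := by
  obtain ⟨c, hc, h⟩ := push_mem_cycleSpan (F := F) W (lift (𝟙 X.toOver) (𝟙 X.toOver)) ha
  obtain ⟨u, hu, h'⟩ := exists_mapOver W hc
  have : (fun x => a * x) = u := by
    funext x
    rw [← sub_eq_zero]
    refine (W.trace X).nondegenerate _ fun y => ?_
    change W.trL X ((a * x - u x) * y) = 0
    rw [sub_mul, map_sub, h', h, map_mul (W.pullA (lift (𝟙 X.toOver) (𝟙 X.toOver)))]
    have h1 : W.pullA (lift (𝟙 X.toOver) (𝟙 X.toOver)) (W.pull (fst X X) x) = x := by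
      have h2 := W.pull_comp (lift (𝟙 X.toOver) (𝟙 X.toOver)) (fst X X) x
      rw [lift_fst] at h2
      exact h2.symm.trans (W.pull_id X x)
    have h2 : W.pullA (lift (𝟙 X.toOver) (𝟙 X.toOver)) (W.pull (snd X X) y) = y := by
      have h2 := W.pull_comp (lift (𝟙 X.toOver) (𝟙 X.toOver)) (snd X X) y
      rw [lift_snd] at h2
      exact h2.symm.trans (W.pull_id X y)
    rw [h1, h2, mul_assoc, sub_self]
  rw [this]
  exact hu

lemma isMapOver_zero : IsMapOver W.toCohomologyData F X fun _ => 0 := by
  have h := Ro.isMapOver_smul W F.zero_mem (Ro.isMapOver_id W (F := F) X)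
  simpa using h

lemma pow_mem_cycleSpan {a : W.H X} (ha : a ∈ cycleSpan W.toCohomologyData F X) (r : ℕ) :
    a ^ r ∈ cycleSpan W.toCohomologyData F X := by
  induction r with
  | zero => rw [pow_zero]; exact Ro.r5_one_mem W X
  | succ r ih => rw [pow_succ]; exact mul_mem_cycleSpan W X ih ha

/-- a class on `X × X` is determined by its pairings with the classes `x × y` -/
lemma eq_of_trL_prod {c c' : W.H (X.prod X)}
    (h : ∀ x y, W.trL (X.prod X) (c * (W.pull (fst X X) x * W.pull (snd X X) y)) =
      W.trL (X.prod X) (c' * (W.pull (fst X X) x * W.pull (snd X X) y))) : c = c' := by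
  rw [← sub_eq_zero]
  refine (W.trace _).nondegenerate _ fun z => ?_
  change W.trL (X.prod X) ((c - c') * z) = 0
  let m : TensorProduct K (W.H X) (W.H X) →ₗ[K] W.H (X.prod X) :=
    LinearMap.mul' K _ ∘ₗ
      TensorProduct.map (W.pullA (fst X X)).toLinearMap (W.pullA (snd X X)).toLinearMap
  have hm : ∀ a b, m (TensorProduct.tmul K a b) =
      W.pull (fst X X) a * W.pull (snd X X) b := fun a b => rfl
  obtain ⟨s, rfl⟩ := (W.kunneth X X m hm).2 z
  induction s using TensorProduct.induction_on with
  | zero => rw [map_zero, mul_zero, map_zero]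
  | tmul a b => rw [hm, sub_mul, map_sub, h, sub_self]
  | add x y hx hy => rw [map_add, mul_add, map_add, hx, hy, add_zero]

/-! ### Dual bases -/

lemma trL_gr {s t : ℕ} {x y : W.H X} (hx : x ∈ W.gr X s) (hy : y ∈ W.gr X t)
    (h : s + t ≠ 2 * X.dim) : W.trL X (x * y) = 0 := W.tr_eq_zero_of_gr X h (mul_gr W hx hy)

/-- the pairing, restricted to `gr i × gr j` -/
noncomputable def prg (X : SmProjVar k) (i j : ℕ) :
    W.gr X i →ₗ[K] Module.Dual K (W.gr X j) :=
  LinearMap.mk₂ K (fun x y => W.trL X ((x : W.H X) * y))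
    (fun a b c => by rw [Submodule.coe_add, add_mul, map_add])
    (fun a b c => by rw [Submodule.coe_smul, smul_mul_assoc, map_smul])
    (fun a b c => by rw [Submodule.coe_add, mul_add, map_add])
    (fun a b c => by rw [Submodule.coe_smul, mul_smul_comm, map_smul])

lemma eq_zero_of_gr {i j : ℕ} (hij : i + j = 2 * X.dim) {x : W.H X} (hx : x ∈ W.gr X i)
    (h : ∀ y ∈ W.gr X j, W.trL X (x * y) = 0) : x = 0 := by
  refine (W.trace X).nondegenerate _ fun y => ?_
  change W.trL X (x * y) = 0
  refine W.gr_induction X (p := fun y => W.trL X (x * y) = 0) (fun t y hy => ?_) ?_ ?_ y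
  · by_cases ht : t = j
    · subst ht
      exact h y hy
    · exact trL_gr W hx hy (by omega)
  · rw [mul_zero, map_zero]
  · intro a b ha hb
    rw [mul_add, map_add, ha, hb, add_zero]

lemma prg_injective {i j : ℕ} (hij : i + j = 2 * X.dim) : Function.Injective (prg W X i j) := by
  rw [injective_iff_map_eq_zero]
  intro x hx
  have : (x : W.H X) = 0 := eq_zero_of_gr W hij x.2 fun y hy =>
    LinearMap.congr_fun hx (⟨y, hy⟩ : W.gr X j)
  exact Subtype.ext this

lemma finrank_gr_le {i j : ℕ} (hij : i + j = 2 * X.dim) :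
    Module.finrank K (W.gr X i) ≤ Module.finrank K (W.gr X j) := by
  have hfin : Module.Finite K (W.H X) := (W.graded X).finite
  have h1 := LinearMap.finrank_le_finrank_of_injective (prg_injective W hij)
  rwa [Subspace.dual_finrank_eq] at h1

lemma finrank_gr_eq {i j : ℕ} (hij : i + j = 2 * X.dim) :
    Module.finrank K (W.gr X i) = Module.finrank K (W.gr X j) :=
  le_antisymm (finrank_gr_le W hij) (finrank_gr_le W (by omega))

lemma prg_bijective {i j : ℕ} (hij : i + j = 2 * X.dim) : Function.Bijective (prg W X i j) := by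
  have hfin : Module.Finite K (W.H X) := (W.graded X).finite
  refine ⟨prg_injective W hij, ?_⟩
  have h1 : Module.finrank K (W.gr X i) = Module.finrank K (Module.Dual K (W.gr X j)) := by
    rw [Subspace.dual_finrank_eq, finrank_gr_eq W hij]
  exact (LinearMap.injective_iff_surjective_of_finrank_eq_finrank h1).mp (prg_injective W hij)

/-- Dual bases of `H^i` and `H^j`. -/
structure DualBases (X : SmProjVar k) (i j : ℕ) {b : ℕ} (g f : Fin b → W.H X) : Prop where
  deg : i + j = 2 * X.dim
  g_mem : ∀ p, g p ∈ W.gr X i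
  f_mem : ∀ p, f p ∈ W.gr X j
  f_li : LinearIndependent K f
  f_span : Submodule.span K (Set.range f) = W.gr X j
  dual : ∀ p q, W.trL X (g p * f q) = if p = q then 1 else 0

lemma exists_dualBases {i j : ℕ} (hij : i + j = 2 * X.dim) :
    ∃ (b : ℕ) (g f : Fin b → W.H X), DualBases W X i j g f := by
  have hfin : Module.Finite K (W.H X) := (W.graded X).finite
  let B := Module.finBasis K (W.gr X j)
  choose g hg using fun p => (prg_bijective W (X := X) hij).2 (B.coord p)
  refine ⟨_, fun p => (g p : W.H X), fun p => (B p : W.H X), hij, fun p => (g p).2,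
    fun p => (B p).2, ?_, ?_, fun p q => ?_⟩
  · exact B.linearIndependent.map' (W.gr X j).subtype (Submodule.ker_subtype _)
  · have h1 : Set.range (fun p => (B p : W.H X)) = (W.gr X j).subtype '' Set.range B := by
      rw [← Set.range_comp]
      rfl
    rw [h1, Submodule.span_image, B.span_eq, Submodule.map_top, Submodule.range_subtype]
  · have h1 := LinearMap.congr_fun (hg p) (B q)
    have h2 : prg W X i j (g p) (B q) = W.trL X ((g p : W.H X) * B q) := rfl
    rw [h2] at h1
    rw [h1, Module.Basis.coord_apply, Module.Basis.repr_self, Finsupp.single_apply]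
    simp only [eq_comm]

section Dual

variable {W} {i j b : ℕ} {g f : Fin b → W.H X}

lemma DualBases.eq_sum (h : DualBases W X i j g f) {x : W.H X}
    (hx : ∀ s ≠ j, ∀ y ∈ W.gr X s, W.trL X (x * y) = 0) :
    x = ∑ p, W.trL X (x * f p) • g p := by
  rw [← sub_eq_zero]
  refine (W.trace X).nondegenerate _ fun y => ?_
  change W.trL X ((x - ∑ p, W.trL X (x * f p) • g p) * y) = 0
  refine W.gr_induction X
    (p := fun y => W.trL X ((x - ∑ p, W.trL X (x * f p) • g p) * y) = 0) (fun t y hy => ?_) ?_ ?_ y
  · by_cases ht : t = j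
    · subst ht
      rw [← h.f_span] at hy
      induction hy using Submodule.span_induction with
      | mem y hy =>
        obtain ⟨q, rfl⟩ := hy
        rw [sub_mul, sum_mul, map_sub, map_sum]
        have h1 : ∀ p, W.trL X (W.trL X (x * f p) • g p * f q) =
            if p = q then W.trL X (x * f p) else 0 := by
          intro p
          rw [smul_mul_assoc, map_smul, h.dual]
          split_ifs
          · rw [smul_eq_mul, mul_one]
          · rw [smul_eq_mul, mul_zero]
        rw [sum_congr rfl fun p _ => h1 p, sum_ite_eq' univ q, if_pos (mem_univ _), sub_self]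
      | zero => rw [mul_zero, map_zero]
      | add a b _ _ ha hb => rw [mul_add, map_add, ha, hb, add_zero]
      | smul a y _ hy => rw [mul_smul_comm, map_smul, hy, smul_zero]
    · rw [sub_mul, map_sub, hx t ht y hy, sum_mul, map_sum, zero_sub, neg_eq_zero]
      refine sum_eq_zero fun p _ => ?_
      rw [smul_mul_assoc, map_smul, trL_gr W (h.g_mem p) hy (by have := h.deg; omega), smul_zero]
  · rw [mul_zero, map_zero]
  · intro a b ha hb
    rw [mul_add, map_add, ha, hb, add_zero]

lemma DualBases.eq_sum_of_mem (h : DualBases W X i j g f) {x : W.H X} (hx : x ∈ W.gr X i) :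
    x = ∑ p, W.trL X (x * f p) • g p :=
  h.eq_sum fun s hs y hy => trL_gr W hx hy (by have := h.deg; omega)

lemma DualBases.mem_of (h : DualBases W X i j g f) {x : W.H X}
    (hx : ∀ s ≠ j, ∀ y ∈ W.gr X s, W.trL X (x * y) = 0) : x ∈ W.gr X i := by
  rw [h.eq_sum hx]
  exact Submodule.sum_mem _ fun p _ => Submodule.smul_mem _ _ (h.g_mem p)

lemma DualBases.g_li (h : DualBases W X i j g f) : LinearIndependent K g := by
  rw [Fintype.linearIndependent_iff]
  intro a ha q
  have h1 : W.trL X ((∑ p, a p • g p) * f q) = a q := by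
    rw [sum_mul, map_sum]
    have h2 : ∀ p, W.trL X (a p • g p * f q) = if p = q then a p else 0 := by
      intro p
      rw [smul_mul_assoc, map_smul, h.dual]
      split_ifs <;> simp
    rw [sum_congr rfl fun p _ => h2 p, sum_ite_eq' univ q, if_pos (mem_univ _)]
  rw [← h1, ha, zero_mul, map_zero]

lemma DualBases.g_span (h : DualBases W X i j g f) :
    Submodule.span K (Set.range g) = W.gr X i := by
  refine le_antisymm (Submodule.span_le.mpr ?_) fun x hx => ?_
  · rintro _ ⟨p, rfl⟩
    exact h.g_mem p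
  · rw [h.eq_sum_of_mem hx]
    exact Submodule.sum_mem _ fun p _ => Submodule.smul_mem _ _ (Submodule.subset_span ⟨p, rfl⟩)

end Dual

lemma gr_le_par (X : SmProjVar k) (i : ℕ) : W.gr X i ≤ par W (decide (Odd i)) X := by
  by_cases hi : Odd i
  · rw [decide_eq_true hi]
    exact W.gr_le_odK X (Nat.not_even_iff_odd.mpr hi)
  · rw [decide_eq_false hi]
    exact W.gr_le_evK X (Nat.not_odd_iff_even.mp hi)

end Pool.Agent.Helper11.BD
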