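import Mathlib
import Pool.Agent.Helper11.BD.Deg
import Pool.Agent.Helper11.Ro.Thm

/-!
# Inverting a homogeneous algebraic correspondence
-/

universe u v w

open CategoryTheory Finset

namespace Pool.Agent.Helper11.BD

open Pool.Agent.Helper10 hiding IsAlgAut parityPart
open SmProjVar Pool.Agent.Helper10.GIT

variable {k : Type u} [Field k] {K : Type v} [Field K] [CharZero K]
  (W : WeilCohomology.{u, v, w} k K) {F : Subfield K} {X : SmProjVar k}

/-- the class of a homogeneous correspondence -/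
lemma exists_matrix {i j b : ℕ} {g f : Fin b → W.H X} (hb : DualBases W X i j g f)
    {l : W.H X → W.H X} (hl : IsMapOver W.toCohomologyData F X l)
    (hi : ∀ x ∈ W.gr X i, l x ∈ W.gr X j) (h0 : ∀ s ≠ i, ∀ x ∈ W.gr X s, l x = 0) :
    ∃ (M : Fin b → Fin b → K) (Λ : W.H (X.prod X)),
      Λ ∈ cycleSpan W.toCohomologyData F (X.prod X) ∧
      Λ = ∑ p, ∑ q, M p q • (W.pull (fst X X) (f p) * W.pull (snd X X) (f q)) ∧
      (∀ p, l (g p) = ∑ q, M p q • f q) ∧
      ∀ x, l x = ∑ p, W.trL X (x * f p) • ∑ q, M p q • f q := by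
  obtain ⟨L, hL⟩ := Ro.IsMapOver.exists_linear W hl
  have hM : ∀ p, ∃ a : Fin b → K, ∑ q, a q • f q = l (g p) := by
    intro p
    have h1 : l (g p) ∈ Submodule.span K (Set.range f) := by
      rw [hb.f_span]
      exact hi _ (hb.g_mem p)
    exact (Submodule.mem_span_range_iff_exists_fun K).mp h1
  choose M hM using hM
  have hlx : ∀ x, l x = ∑ p, W.trL X (x * f p) • ∑ q, M p q • f q := by
    intro x
    refine W.gr_induction X (p := fun x => l x = ∑ p, W.trL X (x * f p) • ∑ q, M p q • f q)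
      (fun s x hx => ?_) ?_ (fun x y hx hy => ?_) x
    · by_cases hs : s = i
      · subst hs
        have h1 := hb.eq_sum_of_mem hx
        have h2 : l x = ∑ p, W.trL X (x * f p) • l (g p) := by
          have h3 : L x = L (∑ p, W.trL X (x * f p) • g p) := congrArg L h1
          rw [map_sum] at h3
          simp only [map_smul] at h3
          simp only [hL] at h3
          exact h3
        rw [h2]
        exact sum_congr rfl fun p _ => by rw [hM]
      · rw [h0 s hs x hx]
        refine (sum_eq_zero fun p _ => ?_).symm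
        rw [trL_gr W hx (hb.f_mem p) (by have := hb.deg; omega), zero_smul]
    · rw [← hL, map_zero]
      refine (sum_eq_zero fun p _ => ?_).symm
      rw [zero_mul, map_zero, zero_smul]
    · rw [← hL, map_add, hL, hL, hx, hy, ← sum_add_distrib]
      refine sum_congr rfl fun p _ => ?_
      rw [add_mul, map_add, add_smul]
  obtain ⟨c, hc, hcx⟩ := IsMapOver.trL_eq W hl
  refine ⟨M, c, hc, ?_, fun p => (hM p).symm, hlx⟩
  refine eq_of_trL_prod W fun x y => ?_
  rw [← hcx, hlx, sum_mul, map_sum, sum_mul, map_sum]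
  refine sum_congr rfl fun p _ => ?_
  rw [smul_mul_assoc, map_smul, sum_mul, map_sum, sum_mul, map_sum, smul_sum]
  refine sum_congr rfl fun q _ => ?_
  rw [smul_mul_assoc, map_smul, smul_mul_assoc, map_smul]
  have htr : ∀ (x y : W.H X), W.trL (X.prod X)
      (W.pullA (fst X X) x * W.pullA (snd X X) y) = W.trL _ x * W.trL _ y :=
    fun x y => W.tr_prod _ _ x y
  -- the sign
  have hpar : f p ∈ par W (decide (Odd j)) X := gr_le_par W X j (hb.f_mem p)
  have hparq : f q ∈ par W (decide (Odd j)) X := gr_le_par W X j (hb.f_mem q)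
  obtain ⟨x₀, hx₀, x₁, hx₁, rfl⟩ := exists_parity W X x
  have key : W.trL (X.prod X) (W.pull (fst X X) (f p) * W.pull (snd X X) (f q) *
      (W.pull (fst X X) (x₀ + x₁) * W.pull (snd X X) y)) =
      W.trL X ((x₀ + x₁) * f p) * W.trL X (f q * y) := by
    rw [← htr]
    have hadd : ∀ a b : W.H X, W.pull (fst X X) (a + b) =
        W.pull (fst X X) a + W.pull (fst X X) b := fun a b => map_add (W.pullA (fst X X)) a b
    cases hp : decide (Odd j) with
    | false =>
      rw [hp] at hpar hparq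
      have e1 : W.pull (snd X X) (f q) * W.pull (fst X X) (x₀ + x₁) =
          W.pull (fst X X) (x₀ + x₁) * W.pull (snd X X) (f q) :=
        W.evK_comm _ _ _ (W.pull_evK _ _ hparq)
      have e2 : (x₀ + x₁) * f p = f p * (x₀ + x₁) := (W.evK_comm _ _ _ hpar).symm
      rw [e2, map_mul (W.pullA (fst X X)) (f p), map_mul (W.pullA (snd X X)) (f q), mul_assoc,
        ← mul_assoc (W.pull (snd X X) (f q)), e1]
      simp only [mul_assoc]
      rfl
    | true =>
      rw [hp] at hpar hparq
      -- only the odd part of `x` matters, as well as the odd part of `y`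
      obtain ⟨y₀, hy₀, y₁, hy₁, rfl⟩ := exists_parity W X y
      have t1 : W.trL X (f q * y₀) = 0 := trL_odK W X (odK_mul_evK W X hparq hy₀)
      have t0 : W.trL X (x₀ * f p) = 0 := trL_odK W X (W.evK_mul_odK X _ _ hx₀ hpar)
      have hfx₀ : W.trL X (f p * x₀) = 0 := trL_odK W X (odK_mul_evK W X hpar hx₀)
      have e0 : W.pull (snd X X) (f q) * W.pull (fst X X) x₀ =
          W.pull (fst X X) x₀ * W.pull (snd X X) (f q) :=
        (W.evK_comm _ _ _ (W.pull_evK _ _ hx₀)).symm
      have e1 : W.pull (snd X X) (f q) * W.pull (fst X X) x₁ =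
          -(W.pull (fst X X) x₁ * W.pull (snd X X) (f q)) :=
        W.odK_anti _ _ _ (W.pull_odK _ _ hparq) (W.pull_odK _ _ hx₁)
      have e2 : f p * x₁ = -(x₁ * f p) := W.odK_anti X _ _ hpar hx₁
      have e3 : W.pull (snd X X) (f q) * W.pull (fst X X) (x₀ + x₁) =
          W.pull (fst X X) (x₀ - x₁) * W.pull (snd X X) (f q) := by
        have : W.pull (fst X X) (x₀ - x₁) = W.pull (fst X X) x₀ - W.pull (fst X X) x₁ :=
          map_sub (W.pullA (fst X X)) x₀ x₁
        rw [hadd, this, mul_add, e0, e1, sub_mul, sub_eq_add_neg]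
      have e4 : W.pull (fst X X) (f p) * W.pull (snd X X) (f q) *
          (W.pull (fst X X) (x₀ + x₁) * W.pull (snd X X) (y₀ + y₁)) =
          W.pullA (fst X X) (f p * (x₀ - x₁)) * W.pullA (snd X X) (f q * (y₀ + y₁)) := by
        rw [map_mul (W.pullA (fst X X)) (f p), map_mul (W.pullA (snd X X)) (f q), mul_assoc,
          ← mul_assoc (W.pull (snd X X) (f q)), e3]
        simp only [mul_assoc]
        rfl
      rw [e4, htr, htr, mul_sub, map_sub, hfx₀, e2, map_neg, add_mul, map_add (W.trL X) (x₀ * f p),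
        t0]
      ring
  rw [key, smul_eq_mul, smul_eq_mul, smul_eq_mul]
  ring

lemma matrix_det_ne_zero {i j b : ℕ} {g f : Fin b → W.H X} (hb : DualBases W X i j g f)
    {l : W.H X → W.H X} (hl : IsMapOver W.toCohomologyData F X l)
    (hinj : ∀ x ∈ W.gr X i, l x = 0 → x = 0) {M : Fin b → Fin b → K}
    (hM : ∀ p, l (g p) = ∑ q, M p q • f q) : (Matrix.of M).det ≠ 0 := by
  intro hdet
  obtain ⟨L, hL⟩ := Ro.IsMapOver.exists_linear W hl
  obtain ⟨v, hv, h⟩ := Matrix.exists_vecMul_eq_zero_iff.mpr hdet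
  apply hv
  have h1 : l (∑ p, v p • g p) = 0 := by
    rw [← hL, map_sum]
    simp only [map_smul]
    simp only [hL, hM]
    simp only [smul_sum, smul_smul]
    rw [sum_comm]
    refine sum_eq_zero fun q _ => ?_
    rw [← sum_smul]
    have h2 : ∑ p, v p * M p q = 0 := congrFun h q
    rw [h2, zero_smul]
  have h2 := hinj _ (Submodule.sum_mem _ fun p _ => Submodule.smul_mem _ _ (hb.g_mem p)) h1
  exact funext (Fintype.linearIndependent_iff.mp hb.g_li v h2)

lemma sqC_gr {T : SmProjVar k} {b j : ℕ} (V V' : Fin b → (T.toOver ⟶ X.toOver))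
    {f : Fin b → W.H X} (hf : ∀ p, f p ∈ W.gr X j) :
    sqC W V V' f ∈ W.gr T (b * j + b * j) :=
  Submodule.sum_mem _ fun P _ => Submodule.sum_mem _ fun Q _ => Submodule.smul_mem _ _
    (mul_gr W (list_prod_gr W _ fun s => pull_gr W _ (hf _))
      (list_prod_gr W _ fun s => pull_gr W _ (hf _)))

/-- **The inverse of a homogeneous algebraic correspondence is algebraic, if the square of its
determinant is not numerically trivial.** -/
theorem exists_inverse {i j b : ℕ} {g f : Fin b → W.H X} (hb : DualBases W X i j g f)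
    {l : W.H X → W.H X} (hl : IsMapOver W.toCohomologyData F X l)
    (hi : ∀ x ∈ W.gr X i, l x ∈ W.gr X j) (h0 : ∀ s ≠ i, ∀ x ∈ W.gr X s, l x = 0)
    {M : Fin b → Fin b → K} {Λ : W.H (X.prod X)}
    (hΛF : Λ ∈ cycleSpan W.toCohomologyData F (X.prod X))
    (hΛ : Λ = ∑ p, ∑ q, M p q • (W.pull (fst X X) (f p) * W.pull (snd X X) (f q)))
    (hlx : ∀ x, l x = ∑ p, W.trL X (x * f p) • ∑ q, M p q • f q)
    {T : SmProjVar k} {V V' : Fin b → (T.toOver ⟶ X.toOver)}
    (hT : ∃ x ∈ W.algClasses T, W.trL T (((Matrix.of M).det • sqC W V V' f) * x) ≠ 0) :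
    ∃ u : W.H X → W.H X, IsMapOver W.toCohomologyData F X u ∧
      (∀ x ∈ W.gr X j, u x ∈ W.gr X i ∧ l (u x) = x) ∧
      ∀ s ≠ j, ∀ x ∈ W.gr X s, l (u x) = 0 := by
  rcases Nat.eq_zero_or_pos b with hb0 | hb0
  · subst hb0
    have hbot : W.gr X j = ⊥ := by
      rw [← hb.f_span]
      simp
    have hl0 : l 0 = 0 := by rw [hlx]; simp
    refine ⟨fun _ => 0, isMapOver_zero W, fun x hx => ?_, fun s _ x _ => hl0⟩
    rw [hbot, Submodule.mem_bot] at hx
    subst hx
    exact ⟨Submodule.zero_mem _, hl0⟩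
  obtain ⟨n, rfl⟩ : ∃ n, b = n + 1 := ⟨b - 1, by omega⟩
  have hfp : ∀ p, f p ∈ par W (decide (Odd j)) X := fun p => gr_le_par W X j (hb.f_mem p)
  set z := (Matrix.of M).det • sqC W V V' f with hzdef
  have hz : z ∈ cycleSpan W.toCohomologyData F T := det_smul_sqC_mem W _ V V' f hfp M hΛF hΛ
  have hze : z ∈ W.evK T := W.algClasses_le_evK _ (cycleSpan_le W _ hz)
  have hzj : z ∈ W.gr T ((n + 1) * j + (n + 1) * j) :=
    Submodule.smul_mem _ _ (sqC_gr W V V' hb.f_mem)
  -- a cycle
  obtain ⟨A, c, hc⟩ : ∃ (A : ℕ) (c : T.Z A), W.trL T (W.cy T A c * z) ≠ 0 := by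
    by_contra hcon
    push Not at hcon
    obtain ⟨x, hx, hx'⟩ := hT
    apply hx'
    clear hx'
    rw [W.evK_comm _ z x hze]
    unfold CohomologyData.algClasses at hx
    induction hx using Submodule.span_induction with
    | mem x hx =>
      obtain ⟨A, c, rfl⟩ := hx
      exact hcon A c
    | zero => rw [zero_mul, map_zero]
    | add x y _ _ hx hy => rw [add_mul, map_add, hx, hy, add_zero]
    | smul a x _ hx => rw [smul_mul_assoc, map_smul, hx, smul_zero]
  set a := W.cy T (A) c with hadef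
  have haF : a ∈ cycleSpan W.toCohomologyData F T := cy_mem_cycleSpan W F T A c
  have hagr : a ∈ W.gr T (2 * A) := W.cycleClasses.cy_mem T A c
  have hdim : 2 * A + ((n + 1) * j + (n + 1) * j) = 2 * T.dim := by
    by_contra hne
    exact hc (trL_gr W hagr hzj hne)
  obtain ⟨y, hy, hy1, hy2⟩ := exists_contraction W (decide (Odd j)) V V' f hfp hb.f_mem M hΛF hΛ
    haF hagr
  set C : K := (n.factorial : K) * W.trL T (a * z) with hC
  have hC0 : C ≠ 0 := mul_ne_zero (Nat.cast_ne_zero.mpr n.factorial_ne_zero) hc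
  have hCF : C ∈ F := by
    obtain ⟨q, hq⟩ := tr_cycleSpan (F := F) W T hz
      (AddSubgroup.subset_closure ⟨A, c, rfl⟩ : a ∈ cycleGroup W.toCohomologyData T)
    rw [hC, ← W.evK_comm _ z a hze, hq]
    exact F.mul_mem (natCast_mem F _) q.2
  obtain ⟨U₀, hU₀, hU₀y⟩ := exists_mapOver W hy
  obtain ⟨U, hU, hUU⟩ := Ro.exists_adjoint_left W hU₀
  have hUU' : ∀ x y, W.trL X (U x * y) = W.trL X (x * U₀ y) := hUU
  -- the vanishing of the other pairings
  have hvan : ∀ (s t : ℕ) (v w : W.H X), v ∈ W.gr X s → w ∈ W.gr X t → s + t ≠ j + j →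
      W.trL X (U w * v) = 0 := by
    intro s t v w hv hw hst
    rw [hUU', trL_mul_par W _ (gr_le_par W X t hw), hU₀y, hy2 s t v w hv hw ?_, mul_zero]
    intro h
    apply hst
    have : (n + 1) * j = n * j + j := by ring
    have : n * (j + j) = n * j + n * j := by ring
    omega
  set ε : K := if decide (Odd j) then -1 else 1 with hε
  have hε1 : ε * ε = 1 := by
    rw [hε]
    split_ifs <;> simp
  have hεF : ε ∈ F := by
    rw [hε]
    split_ifs
    · exact F.neg_mem F.one_mem
    · exact F.one_mem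
  have hε0 : ε ≠ 0 := fun h => by rw [h, zero_mul] at hε1; exact zero_ne_one hε1
  have hval : ∀ β, l (U (f β)) = (ε * C) • f β := by
    intro β
    have h1 : ∀ p, W.trL X (U (f β) * f p) = ε *
        W.trL (X.prod X) (y * (W.pull (fst X X) (f p) * W.pull (snd X X) (f β))) := by
      intro p
      rw [hUU', trL_mul_par W _ (hfp β), hU₀y]
    rw [hlx]
    simp only [h1, smul_sum, smul_smul]
    rw [sum_comm]
    have h2 : ∀ q, ∑ p, (ε * W.trL (X.prod X) (y * (W.pull (fst X X) (f p) *
        W.pull (snd X X) (f β))) * M p q) • f q = if q = β then (ε * C) • f q else 0 := by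
      intro q
      rw [← sum_smul]
      have h3 := hy1 q β
      have h4 : ∑ p, ε * W.trL (X.prod X) (y * (W.pull (fst X X) (f p) *
          W.pull (snd X X) (f β))) * M p q = ε * if q = β then C else 0 := by
        rw [← h3, mul_sum]
        refine sum_congr rfl fun p _ => ?_
        ring
      rw [h4]
      split_ifs
      · rfl
      · rw [mul_zero, zero_smul]
    rw [sum_congr rfl fun q _ => h2 q, sum_ite_eq' univ β, if_pos (mem_univ _)]
  obtain ⟨Ul, hUl⟩ := Ro.IsMapOver.exists_linear W hU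
  obtain ⟨L, hL⟩ := Ro.IsMapOver.exists_linear W hl
  refine ⟨fun x => (ε * C)⁻¹ • U x, Ro.isMapOver_smul W
    (F.inv_mem (F.mul_mem hεF hCF)) hU, fun x hx => ⟨?_, ?_⟩, fun s hs x hx => ?_⟩
  · refine Submodule.smul_mem _ _ (hb.mem_of fun s hs v hv => ?_)
    exact hvan s j v x hv hx (by omega)
  · rw [← hL, map_smul, hL]
    have h1 : l (U x) = (ε * C) • x := by
      rw [← hb.f_span] at hx
      induction hx using Submodule.span_induction with
      | mem x hx =>
        obtain ⟨β, rfl⟩ := hx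
        exact hval β
      | zero => rw [← hUl, map_zero, ← hL, map_zero, smul_zero]
      | add x y _ _ hx hy =>
        rw [← hUl, map_add, ← hL, map_add, hUl, hUl, hL, hL, hx, hy, smul_add]
      | smul a x _ hx =>
        rw [← hUl, map_smul, ← hL, map_smul, hUl, hL, hx, smul_comm]
    rw [h1, smul_smul, inv_mul_cancel₀ (mul_ne_zero hε0 hC0), one_smul]
  · rw [← hL, map_smul, hL, hlx]
    have h1 : ∀ p, W.trL X (U x * f p) = 0 := fun p =>
      hvan j s (f p) x (hb.f_mem p) hx (by omega)
    simp only [h1, zero_smul, sum_const_zero, smul_zero]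

end Pool.Agent.Helper11.BD
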