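import Mathlib
import Pool.Agent.Helper11.BD.Step

/-!
# The Lefschetz standard conjecture and determinants
-/

universe u v w

open CategoryTheory Finset

namespace Pool.Agent.Helper11.BD

open Pool.Agent.Helper10 hiding IsAlgAut parityPart
open SmProjVar Pool.Agent.Helper10.GIT
open Pool.Agent.Helper11.Obs (extProd wordClass prodVar prodFst prodProj IsNumTrivial)

variable {k : Type u} [Field k] {K : Type v} [Field K] [CharZero K]
  (W : WeilCohomology.{u, v, w} k K) {F : Subfield K} {X : SmProjVar k}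

/-- the truncation of the cohomology to the degrees `≥ i` is algebraic -/
def HasTrunc (F : Subfield K) (X : SmProjVar k) (i : ℕ) : Prop :=
  ∃ P : W.H X → W.H X, IsMapOver W.toCohomologyData F X P ∧
    (∀ s < i, ∀ x ∈ W.gr X s, P x = 0) ∧ ∀ s, i ≤ s → ∀ x ∈ W.gr X s, P x = x

lemma hasTrunc_zero : HasTrunc W F X 0 :=
  ⟨fun x => x, Ro.isMapOver_id W X, fun _ hs => absurd hs (Nat.not_lt_zero _), fun _ _ _ _ => rfl⟩

lemma eq_of_trL {x y : W.H X} (h : ∀ t, ∀ z ∈ W.gr X t, W.trL X (x * z) = W.trL X (y * z)) :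
    x = y := by
  rw [← sub_eq_zero]
  refine (W.trace X).nondegenerate _ fun z => ?_
  change W.trL X ((x - y) * z) = 0
  refine W.gr_induction X (p := fun z => W.trL X ((x - y) * z) = 0) (fun t z hz => ?_) ?_ ?_ z
  · rw [sub_mul, map_sub, h t z hz, sub_self]
  · rw [mul_zero, map_zero]
  · intro a b ha hb
    rw [mul_add, map_add, ha, hb, add_zero]

/-- the adjoint of a projector -/
lemma adjoint_proj {i j : ℕ} (hij : i + j = 2 * X.dim) {π : W.H X → W.H X}
    (hπ : IsMapOver W.toCohomologyData F X π) (h1 : ∀ x ∈ W.gr X j, π x = x)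
    (h2 : ∀ s ≠ j, ∀ x ∈ W.gr X s, π x = 0) :
    ∃ π' : W.H X → W.H X, IsMapOver W.toCohomologyData F X π' ∧ (∀ x ∈ W.gr X i, π' x = x) ∧
      ∀ s ≠ i, ∀ x ∈ W.gr X s, π' x = 0 := by
  obtain ⟨π', hπ', h⟩ := Ro.exists_adjoint_left W hπ
  have h' : ∀ x y, W.trL X (π' x * y) = W.trL X (x * π y) := h
  refine ⟨π', hπ', fun x hx => eq_of_trL W fun t z hz => ?_,
    fun s hs x hx => eq_of_trL W fun t z hz => ?_⟩
  · rw [h']
    by_cases ht : t = j
    · subst ht
      rw [h1 z hz]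
    · rw [h2 t ht z hz, mul_zero, map_zero, trL_gr W hx hz (by omega)]
  · rw [h', zero_mul, map_zero]
    by_cases ht : t = j
    · subst ht
      rw [h1 z hz, trL_gr W hx hz (by omega)]
    · rw [h2 t ht z hz, mul_zero, map_zero]

lemma HasTrunc.succ {i : ℕ} (h : HasTrunc W F X i) {π : W.H X → W.H X}
    (hπ : IsMapOver W.toCohomologyData F X π) (h1 : ∀ x ∈ W.gr X i, π x = x)
    (h2 : ∀ s ≠ i, ∀ x ∈ W.gr X s, π x = 0) : HasTrunc W F X (i + 1) := by
  obtain ⟨P, hP, hP1, hP2⟩ := h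
  refine ⟨fun x => P x - π x, Ro.isMapOver_sub W hP hπ, fun s hs x hx => ?_, fun s hs x hx => ?_⟩
    <;> beta_reduce
  · by_cases hsi : s = i
    · subst hsi
      rw [hP2 s le_rfl x hx, h1 x hx, sub_self]
    · rw [hP1 s (by omega) x hx, h2 s hsi x hx, sub_self]
  · rw [hP2 s (by omega) x hx, h2 s (by omega) x hx, sub_zero]

lemma pow_gr {j : ℕ} {a : W.H X} (ha : a ∈ W.gr X j) (r : ℕ) : a ^ r ∈ W.gr X (r * j) := by
  induction r with
  | zero => rw [pow_zero, zero_mul]; exact (W.graded X).one_mem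
  | succ r ih =>
    rw [pow_succ, Nat.succ_mul]
    exact mul_gr W ih ha

/-- the Lefschetz operator in one degree -/
lemma exists_lam {d : X.Z 1} {i r : ℕ} (hir : i + r = X.dim) (hT : HasTrunc W F X i) :
    ∃ l : W.H X → W.H X, IsMapOver W.toCohomologyData F X l ∧
      (∀ x ∈ W.gr X i, l x = W.lef X d r x) ∧ (∀ x ∈ W.gr X i, l x ∈ W.gr X (i + 2 * r)) ∧
      ∀ s ≠ i, ∀ x ∈ W.gr X s, l x = 0 := by
  obtain ⟨P, hP, hP1, hP2⟩ := hT
  obtain ⟨Q, hQ, hPQ⟩ := Ro.exists_adjoint_left W hP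
  have hPQ' : ∀ x y, W.trL X (Q x * y) = W.trL X (x * P y) := hPQ
  have hQ1 : ∀ s ≤ i + 2 * r, ∀ x ∈ W.gr X s, Q x = x := fun s hs x hx =>
    eq_of_trL W fun t z hz => by
      rw [hPQ']
      by_cases ht : t < i
      · rw [hP1 t ht z hz, mul_zero, map_zero, trL_gr W hx hz (by omega)]
      · rw [hP2 t (by omega) z hz]
  have hQ2 : ∀ s, i + 2 * r < s → ∀ x ∈ W.gr X s, Q x = 0 := fun s hs x hx =>
    eq_of_trL W fun t z hz => by
      rw [hPQ', zero_mul, map_zero]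
      by_cases ht : t < i
      · rw [hP1 t ht z hz, mul_zero, map_zero]
      · rw [hP2 t (by omega) z hz, trL_gr W hx hz (by omega)]
  have hpow : W.cy X 1 d ^ r ∈ cycleSpan W.toCohomologyData F X :=
    pow_mem_cycleSpan W (cy_mem_cycleSpan W F X 1 d) r
  have hL := isMapOver_mul W hpow
  have hdeg : ∀ s, ∀ x ∈ W.gr X s, W.cy X 1 d ^ r * x ∈ W.gr X (s + 2 * r) := by
    intro s x hx
    have h1 : W.cy X 1 d ^ r ∈ W.gr X (r * (2 * 1)) := pow_gr W (W.cycleClasses.cy_mem X 1 d) r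
    have h2 := mul_gr W h1 hx
    have h3 : r * (2 * 1) + s = s + 2 * r := by ring
    rwa [h3] at h2
  refine ⟨fun x => Q (W.cy X 1 d ^ r * P x),
    Ro.isMapOver_comp W (Ro.isMapOver_comp W hP hL) hQ, fun x hx => ?_, fun x hx => ?_,
    fun s hs x hx => ?_⟩ <;> beta_reduce
  · rw [hP2 i le_rfl x hx, hQ1 _ le_rfl _ (hdeg i x hx)]
    rfl
  · rw [hP2 i le_rfl x hx, hQ1 _ le_rfl _ (hdeg i x hx)]
    exact hdeg i x hx
  · obtain ⟨Ql, hQl⟩ := Ro.IsMapOver.exists_linear W hQ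
    rcases lt_or_gt_of_ne hs with hs | hs
    · rw [hP1 s hs x hx, mul_zero, ← hQl, map_zero]
    · rw [hP2 s hs.le x hx]
      exact hQ2 (s + 2 * r) (by omega) _ (hdeg s x hx)

end Pool.Agent.Helper11.BD
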