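import Mathlib
import Pool.Agent.Helper11.BD.Lef

/-!
# The Lefschetz standard conjecture and determinants: the equivalence
-/

universe u v w

open CategoryTheory Finset

namespace Pool.Agent.Helper11.BD

open Pool.Agent.Helper10 hiding IsAlgAut parityPart
open SmProjVar Pool.Agent.Helper10.GIT
open Pool.Agent.Helper11.Obs (extProd wordClass prodVar prodFst prodProj IsNumTrivial)

variable {k : Type u} [Field k] {K : Type v} [Field K] [CharZero K]
  (W : WeilCohomology.{u, v, w} k K) {F : Subfield K} {X : SmProjVar k}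

/-- from nontriviality of the squares of determinants to the Lefschetz standard conjecture -/
theorem standard_of_nontrivial {d : X.Z 1} (hd : HardLefschetz W.toCohomologyData X d)
    (h : ∀ i r, i + r = X.dim → 0 < r → ∀ (b : ℕ) (g f : Fin b → W.H X)
      (M : Fin b → Fin b → K) (Λ : W.H (X.prod X)), DualBases W X i (i + 2 * r) g f →
      (Matrix.of M).det ≠ 0 → Λ ∈ cycleSpan W.toCohomologyData F (X.prod X) →
      Λ = ∑ p, ∑ q, M p q • (W.pull (fst X X) (f p) * W.pull (snd X X) (f q)) →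
      ∃ (T : SmProjVar k) (V V' : Fin b → (T.toOver ⟶ X.toOver)), ∃ x ∈ W.algClasses T,
        W.trL T (((Matrix.of M).det • sqC W V V' f) * x) ≠ 0) :
    LefschetzStandard W.toCohomologyData F X d := by
  have step : ∀ i r, i + r = X.dim → 0 < r → HasTrunc W F X i →
      HasTrunc W F X (i + 1) ∧ ∃ u : W.H X → W.H X, IsMapOver W.toCohomologyData F X u ∧
        ∀ x ∈ W.gr X i, u (W.lef X d r x) = x := by
    intro i r hir hr hT
    obtain ⟨l, hl, hl1, hl2, hl3⟩ := exists_lam W (d := d) hir hT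
    obtain ⟨b, g, f, hb⟩ := exists_dualBases W (X := X) (i := i) (j := i + 2 * r) (by omega)
    obtain ⟨M, Λ, hΛF, hΛ, hM, hlx⟩ := exists_matrix W hb hl hl2 hl3
    have hinj : ∀ x ∈ W.gr X i, l x = 0 → x = 0 := fun x hx h0 => by
      rw [hl1 x hx] at h0
      exact (hd i r hir).1 x hx h0
    have hdet := matrix_det_ne_zero W hb hl hinj hM
    obtain ⟨T, V, V', hTx⟩ := h i r hir hr b g f M Λ hb hdet hΛF hΛ
    obtain ⟨u, hu, hu1, hu2⟩ := exists_inverse W hb hl hl2 hl3 hΛF hΛ hlx hTx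
    obtain ⟨π, hπ, hπ1, hπ2⟩ := adjoint_proj W (i := i) (by omega) (Ro.isMapOver_comp W hu hl)
      (fun x hx => (hu1 x hx).2) hu2
    refine ⟨hT.succ W hπ hπ1 hπ2, u, hu, fun x hx => ?_⟩
    have h1 : W.lef X d r x ∈ W.gr X (i + 2 * r) := by
      rw [← hl1 x hx]
      exact hl2 x hx
    obtain ⟨h2, h3⟩ := hu1 _ h1
    have h4 : ∀ y ∈ W.gr X i, l y = l x → y = x := by
      intro y hy hyx
      obtain ⟨L, hL⟩ := Ro.IsMapOver.exists_linear W hl
      rw [← sub_eq_zero]
      refine hinj _ (Submodule.sub_mem _ hy hx) ?_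
      rw [← hL, map_sub, hL, hL, hyx, sub_self]
    refine h4 _ h2 ?_
    rw [h3, hl1 x hx]
  have htr : ∀ i ≤ X.dim, HasTrunc W F X i := by
    intro i
    induction i with
    | zero => intro _; exact hasTrunc_zero W
    | succ i ih =>
      intro hi
      exact (step i (X.dim - i) (by omega) (by omega) (ih (by omega))).1
  intro i r hir
  rcases Nat.eq_zero_or_pos r with rfl | hr
  · refine ⟨fun x => x, Ro.isMapOver_id W X, fun x _ => ?_⟩
    change W.cy X 1 d ^ 0 * x = x
    rw [pow_zero, one_mul]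
  · exact (step i r hir hr (htr i (by omega))).2

/-- the projectors -/
theorem hasTrunc_of_standard {d : X.Z 1} (hB : LefschetzStandard W.toCohomologyData F X d) :
    ∀ i ≤ X.dim + 1, HasTrunc W F X i := by
  intro i
  induction i with
  | zero => intro _; exact hasTrunc_zero W
  | succ i ih =>
    intro hi
    have hT := ih (by omega)
    obtain ⟨l, hl, hl1, hl2, hl3⟩ := exists_lam W (d := d) (r := X.dim - i)
      (show i + (X.dim - i) = X.dim by omega) hT
    obtain ⟨u, hu, hu1⟩ := hB i (X.dim - i) (by omega)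
    obtain ⟨U, hU⟩ := Ro.IsMapOver.exists_linear W hu
    refine hT.succ W (Ro.isMapOver_comp W hl hu) (fun x hx => ?_) fun s hs x hx => ?_
    · change u (l x) = x
      rw [hl1 x hx, hu1 x hx]
    · change u (l x) = 0
      rw [hl3 s hs x hx, ← hU, map_zero]

/-- the Künneth projectors are algebraic -/
theorem exists_proj_of_standard {d : X.Z 1}
    (hB : LefschetzStandard W.toCohomologyData F X d) (i : ℕ) :
    ∃ π : W.H X → W.H X, IsMapOver W.toCohomologyData F X π ∧ (∀ x ∈ W.gr X i, π x = x) ∧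
      ∀ s ≠ i, ∀ x ∈ W.gr X s, π x = 0 := by
  have low : ∀ i ≤ X.dim, ∃ π : W.H X → W.H X, IsMapOver W.toCohomologyData F X π ∧
      (∀ x ∈ W.gr X i, π x = x) ∧ ∀ s ≠ i, ∀ x ∈ W.gr X s, π x = 0 := by
    intro i hi
    obtain ⟨l, hl, hl1, hl2, hl3⟩ := exists_lam W (d := d) (r := X.dim - i)
      (show i + (X.dim - i) = X.dim by omega) (hasTrunc_of_standard W hB i (by omega))
    obtain ⟨u, hu, hu1⟩ := hB i (X.dim - i) (by omega)
    obtain ⟨U, hU⟩ := Ro.IsMapOver.exists_linear W hu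
    refine ⟨fun x => u (l x), Ro.isMapOver_comp W hl hu, fun x hx => ?_, fun s hs x hx => ?_⟩
    · change u (l x) = x
      rw [hl1 x hx, hu1 x hx]
    · change u (l x) = 0
      rw [hl3 s hs x hx, ← hU, map_zero]
  by_cases hi : i ≤ X.dim
  · exact low i hi
  by_cases hi2 : i ≤ 2 * X.dim
  · obtain ⟨π, hπ, h1, h2⟩ := low (2 * X.dim - i) (by omega)
    exact adjoint_proj W (i := i) (j := 2 * X.dim - i) (by omega) hπ h1 h2
  · have hbot := (W.graded X).eq_bot i (by omega)
    refine ⟨fun _ => 0, isMapOver_zero W, fun x hx => ?_, fun _ _ _ _ => rfl⟩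
    rw [hbot, Submodule.mem_bot] at hx
    exact hx.symm

/-- a nondegenerate class in `H^j ⊗ H^j` -/
def HasForm (F : Subfield K) (X : SmProjVar k) (j : ℕ) : Prop :=
  ∃ (b : ℕ) (f : Fin b → W.H X) (M : Fin b → Fin b → K) (Λ : W.H (X.prod X)),
    (∀ p, f p ∈ W.gr X j) ∧ LinearIndependent K f ∧ Submodule.span K (Set.range f) = W.gr X j ∧
    (Matrix.of M).det ≠ 0 ∧ Λ ∈ cycleSpan W.toCohomologyData F (X.prod X) ∧
    Λ = ∑ p, ∑ q, M p q • (W.pull (fst X X) (f p) * W.pull (snd X X) (f q))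

lemma hasForm_of_map {i j : ℕ} (hij : i + j = 2 * X.dim) {l : W.H X → W.H X}
    (hl : IsMapOver W.toCohomologyData F X l) (hi : ∀ x ∈ W.gr X i, l x ∈ W.gr X j)
    (h0 : ∀ s ≠ i, ∀ x ∈ W.gr X s, l x = 0) (hinj : ∀ x ∈ W.gr X i, l x = 0 → x = 0) :
    HasForm W F X j := by
  obtain ⟨b, g, f, hb⟩ := exists_dualBases W (X := X) hij
  obtain ⟨M, Λ, hΛF, hΛ, hM, hlx⟩ := exists_matrix W hb hl hi h0
  exact ⟨b, f, M, Λ, hb.f_mem, hb.f_li, hb.f_span, matrix_det_ne_zero W hb hl hinj hM, hΛF, hΛ⟩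

theorem hasForm_of_standard {d : X.Z 1} (hd : HardLefschetz W.toCohomologyData X d)
    (hB : LefschetzStandard W.toCohomologyData F X d) (j : ℕ) : HasForm W F X j := by
  by_cases hj : j < X.dim
  · -- the inverse of the Lefschetz operator
    obtain ⟨πi, hπi, hi1, hi2⟩ := exists_proj_of_standard W hB j
    obtain ⟨πj, hπj, hj1, hj2⟩ := exists_proj_of_standard W hB (j + 2 * (X.dim - j))
    obtain ⟨u, hu, hu1⟩ := hB j (X.dim - j) (by omega)
    obtain ⟨U, hU⟩ := Ro.IsMapOver.exists_linear W hu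
    obtain ⟨P, hP⟩ := Ro.IsMapOver.exists_linear W hπi
    have key : ∀ x ∈ W.gr X (j + 2 * (X.dim - j)), ∃ y ∈ W.gr X j,
        W.lef X d (X.dim - j) y = x ∧ πi (u (πj x)) = y := by
      intro x hx
      obtain ⟨y, hy, rfl⟩ := (hd j (X.dim - j) (by omega)).2 x hx
      exact ⟨y, hy, rfl, by rw [hj1 _ hx, hu1 y hy, hi1 y hy]⟩
    refine hasForm_of_map W (i := j + 2 * (X.dim - j)) (by omega)
      (Ro.isMapOver_comp W (Ro.isMapOver_comp W hπj hu) hπi) (fun x hx => ?_)
      (fun s hs x hx => ?_) fun x hx h0 => ?_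
    · obtain ⟨y, hy, -, h1⟩ := key x hx
      change πi (u (πj x)) ∈ _
      rw [h1]
      exact hy
    · change πi (u (πj x)) = 0
      rw [hj2 s hs x hx, ← hU, map_zero, ← hP, map_zero]
    · obtain ⟨y, hy, h1, h2⟩ := key x hx
      have h3 : y = 0 := h2.symm.trans h0
      rw [← h1, h3]
      change W.cy X 1 d ^ _ * 0 = 0
      rw [mul_zero]
  by_cases hj2 : j ≤ 2 * X.dim
  · obtain ⟨l, hl, hl1, hl2, hl3⟩ := exists_lam W (d := d) (i := 2 * X.dim - j) (r := j - X.dim)
      (show 2 * X.dim - j + (j - X.dim) = X.dim by omega)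
      (hasTrunc_of_standard W hB _ (by omega))
    have hjj : 2 * X.dim - j + 2 * (j - X.dim) = j := by omega
    rw [hjj] at hl2
    refine hasForm_of_map W (i := 2 * X.dim - j) (by omega) hl hl2 hl3 fun x hx h0 => ?_
    rw [hl1 x hx] at h0
    exact (hd (2 * X.dim - j) (j - X.dim) (by omega)).1 x hx h0
  · have hbot := (W.graded X).eq_bot j (by omega)
    refine ⟨0, Fin.elim0, Fin.elim0, 0, fun p => p.elim0, linearIndependent_empty_type, ?_, ?_,
      Submodule.zero_mem _, ?_⟩
    · rw [hbot]; simp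
    · rw [Matrix.det_isEmpty]; exact one_ne_zero
    · simp

/-- bases of complementary degrees -/
lemma det_pairing_ne_zero {i j b : ℕ} (hij : i + j = 2 * X.dim) {f f' : Fin b → W.H X}
    (hf : ∀ p, f p ∈ W.gr X j) (hli : LinearIndependent K f)
    (hspan : Submodule.span K (Set.range f') = W.gr X i) :
    Matrix.det (Matrix.of fun s t => W.pairing X (f s) (f' t)) ≠ 0 := by
  intro hdet
  obtain ⟨v, hv, h⟩ := Matrix.exists_vecMul_eq_zero_iff.mpr hdet
  apply hv
  have h1 : ∀ t, W.trL X ((∑ s, v s • f s) * f' t) = 0 := by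
    intro t
    rw [sum_mul, map_sum]
    have h2 : ∑ s, v s * W.trL X (f s * f' t) = 0 := congrFun h t
    rw [← h2]
    exact sum_congr rfl fun s _ => by rw [smul_mul_assoc, map_smul, smul_eq_mul]
  have h2 : ∑ s, v s • f s = 0 := by
    refine eq_zero_of_gr W (show j + i = 2 * X.dim by omega)
      (Submodule.sum_mem _ fun s _ => Submodule.smul_mem _ _ (hf s)) fun y hy => ?_
    rw [← hspan] at hy
    induction hy using Submodule.span_induction with
    | mem y hy =>
      obtain ⟨t, rfl⟩ := hy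
      exact h1 t
    | zero => rw [mul_zero, map_zero]
    | add a b _ _ ha hb => rw [mul_add, map_add, ha, hb, add_zero]
    | smul a y _ hy => rw [mul_smul_comm, map_smul, hy, smul_zero]
  exact funext (Fintype.linearIndependent_iff.mp hli v h2)

/-- the square of the determinant -/
theorem HasForm.exists_class {j : ℕ} (h : HasForm W F X j) :
    ∃ (b : ℕ) (z : W.H (cart X b)), z ∈ cycleSpan W.toCohomologyData F (cart X b) ∧
      IsDeterminant W.toCohomologyData (fun _ : Fin 2 => W.gr X j) z := by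
  obtain ⟨b, f, M, Λ, hf, hli, hspan, hdet, hΛF, hΛ⟩ := h
  have hfp : ∀ p, f p ∈ par W (decide (Odd j)) X := fun p => gr_le_par W X j (hf p)
  let e : (Σ _ : Fin 2, Fin b) ≃ Fin (2 * b) :=
    Fintype.equivFinOfCardEq (by simp)
  refine ⟨2 * b, _, det_smul_sqC_mem W _ (fun s => prodProj (pt k) (fun _ : Fin (2 * b) => X)
    (e ⟨0, s⟩)) (fun s => prodProj (pt k) (fun _ : Fin (2 * b) => X) (e ⟨1, s⟩)) f hfp M hΛF hΛ, ?_⟩
  have := isDeterminant_sqC W _ e hfp hli hdet
  rw [hspan] at this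
  exact this

/-- the powers of the determinant of the complementary degree -/
theorem nontrivial_of_isDeterminant {i j : ℕ} (hij : i + j = 2 * X.dim) {b : ℕ}
    {f : Fin b → W.H X} (hf : ∀ p, f p ∈ W.gr X j) (hli : LinearIndependent K f)
    (hspan : Submodule.span K (Set.range f) = W.gr X j) {M : Fin b → Fin b → K}
    {Λ : W.H (X.prod X)} (hdet : (Matrix.of M).det ≠ 0)
    (hΛF : Λ ∈ cycleSpan W.toCohomologyData F (X.prod X))
    (hΛ : Λ = ∑ p, ∑ q, M p q • (W.pull (fst X X) (f p) * W.pull (snd X X) (f q)))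
    {m b₀ : ℕ} (hm : 0 < m) {z : W.H (cart X b₀)}
    (hzF : z ∈ cycleSpan W.toCohomologyData F (cart X b₀))
    (hz : IsDeterminant W.toCohomologyData (fun _ : Fin m => W.gr X i) z) :
    (∃ (T : SmProjVar k) (V V' : Fin b → (T.toOver ⟶ X.toOver)), ∃ x ∈ W.algClasses T,
        W.trL T (((Matrix.of M).det • sqC W V V' f) * x) ≠ 0) ∧
      ¬ IsNumTrivial W.toCohomologyData _ z := by
  have hfin : Module.Finite K (W.H X) := (W.graded X).finite
  have hfp : ∀ p, f p ∈ par W (decide (Odd j)) X := fun p => gr_le_par W X j (hf p)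
  obtain ⟨r, f', e, a, ha, hf', hz'⟩ := hz
  have hr : r = fun _ => b := by
    funext y
    have h1 := finrank_span_eq_card (hf' y).1
    rw [(hf' y).2, Fintype.card_fin] at h1
    have h2 := finrank_span_eq_card hli
    rw [hspan, Fintype.card_fin] at h2
    rw [← h1, ← h2, finrank_gr_eq W hij]
  subst hr
  have h := exists_trL_ne_zero W _ hm e hfp (cycleSpan_le W _ hzF) ha hz'
    (fun y => det_pairing_ne_zero W hij hf hli (hf' y).2)
    (fun y => cycleSpan_le W _ (det_smul_sqC_mem W _ _ _ f hfp M hΛF hΛ)) hdet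
  exact ⟨⟨_, _, _, h.1⟩, h.2⟩

end Pool.Agent.Helper11.BD
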