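import Mathlib
import Pool.Agent.Helper11.BD.LefThm

/-!
# Homogeneous bases and block determinants
-/

universe u v w

open CategoryTheory Finset

namespace Pool.Agent.Helper11.BD

open Pool.Agent.Helper10 hiding IsAlgAut parityPart
open SmProjVar Pool.Agent.Helper10.GIT
open Pool.Agent.Helper11.Obs (extProd wordClass prodVar prodFst prodProj IsNumTrivial)

section Linear

variable {K : Type v} [Field K]

/-- the determinant of a block diagonal matrix -/
lemma det_sigma {n : ℕ} {ρ : Fin n → ℕ} (M : (Σ j, Fin (ρ j)) → (Σ j, Fin (ρ j)) → K)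
    (h : ∀ a b, a.1 ≠ b.1 → M a b = 0) :
    (Matrix.of M).det = ∏ j, (Matrix.of fun s t => M ⟨j, s⟩ ⟨j, t⟩).det := by
  classical
  have h1 : (Matrix.of M).BlockTriangular (Sigma.fst : (Σ j, Fin (ρ j)) → Fin n) := by
    intro a b hab
    exact h a b (ne_of_gt hab)
  rw [h1.det_fintype]
  refine prod_congr rfl fun j _ => ?_
  rw [← Matrix.det_reindex_self (Equiv.sigmaSubtype j)]
  congr 1

variable {M : Type w} [AddCommGroup M] [Module K M]

/-- change of basis -/
lemma exists_matrix_of_span {r : ℕ} {f f' : Fin r → M} (hli : LinearIndependent K f)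
    (hs : Submodule.span K (Set.range f) ≤ Submodule.span K (Set.range f')) :
    ∃ C : Matrix (Fin r) (Fin r) K, C.det ≠ 0 ∧ ∀ t, f t = ∑ s, C s t • f' s := by
  have h1 : ∀ t, ∃ c : Fin r → K, ∑ s, c s • f' s = f t := fun t =>
    (Submodule.mem_span_range_iff_exists_fun K).mp (hs (Submodule.subset_span ⟨t, rfl⟩))
  choose c hc using h1
  refine ⟨Matrix.of fun s t => c t s, fun hdet => ?_, fun t => (hc t).symm⟩
  obtain ⟨v, hv, h⟩ := Matrix.exists_mulVec_eq_zero_iff.mpr hdet
  apply hv
  refine funext (Fintype.linearIndependent_iff.mp hli v ?_)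
  have h2 : ∑ t, v t • f t = ∑ s, (∑ t, c t s * v t) • f' s := by
    simp only [← hc, smul_sum, sum_smul, smul_smul]
    rw [sum_comm]
    exact sum_congr rfl fun s _ => sum_congr rfl fun t _ => by rw [mul_comm]
  rw [h2]
  refine sum_eq_zero fun s _ => ?_
  have h3 : ∑ t, c t s * v t = 0 := congrFun h s
  rw [h3, zero_smul]

/-- homogeneous bases -/
lemma exists_homogeneous_basis [Module.Finite K M] {n : ℕ} (π : Fin n → M →ₗ[K] M)
    (hπ : ∀ j x, π j (π j x) = π j x) (hπ' : ∀ i j, i ≠ j → ∀ x, π i (π j x) = 0)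
    (hsum : ∀ x, ∑ j, π j x = x) (G : Submodule K M) (hG : ∀ j, ∀ x ∈ G, π j x ∈ G) :
    ∃ (ρ : Fin n → ℕ) (h : (Σ j, Fin (ρ j)) → M), LinearIndependent K h ∧
      Submodule.span K (Set.range h) = G ∧ ∀ a, π a.1 (h a) = h a := by
  classical
  let B := fun j => Module.finBasis K (G.map (π j))
  have hπB : ∀ j s, π j ((B j s : G.map (π j)) : M) = B j s := by
    intro j s
    obtain ⟨y, -, hy⟩ := (B j s).2
    rw [← hy, hπ]
  have hπB' : ∀ i j s, i ≠ j → π i ((B j s : G.map (π j)) : M) = 0 := by
    intro i j s hij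
    obtain ⟨y, -, hy⟩ := (B j s).2
    rw [← hy, hπ' i j hij]
  refine ⟨fun j => Module.finrank K (G.map (π j)), fun a => (B a.1 a.2 : M), ?_, ?_,
    fun a => hπB _ _⟩
  · rw [Fintype.linearIndependent_iff]
    rintro a ha ⟨j, s⟩
    have h1 : ∑ t, a ⟨j, t⟩ • ((B j t : G.map (π j)) : M) = 0 := by
      have h2 := congrArg (π j) ha
      rw [map_zero, map_sum, Fintype.sum_sigma, sum_eq_single j] at h2
      · rw [← h2]
        exact sum_congr rfl fun t _ => by rw [map_smul, hπB]
      · intro i _ hij
        refine sum_eq_zero fun t _ => ?_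
        rw [map_smul, hπB' j i t (Ne.symm hij), smul_zero]
      · intro h
        exact absurd (mem_univ _) h
    have h2 : ∑ t, a ⟨j, t⟩ • B j t = 0 := by
      apply Subtype.ext
      rw [Submodule.coe_sum]
      exact h1
    exact Fintype.linearIndependent_iff.mp (B j).linearIndependent (fun t => a ⟨j, t⟩) h2 s
  · refine le_antisymm (Submodule.span_le.mpr ?_) fun x hx => ?_
    · rintro _ ⟨⟨j, s⟩, rfl⟩
      obtain ⟨y, hy, hyx⟩ := (B j s).2
      change ((B j s : G.map (π j)) : M) ∈ G
      rw [← hyx]
      exact hG j y hy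
    · rw [← hsum x]
      refine Submodule.sum_mem _ fun j _ => ?_
      have h1 : (⟨π j x, x, hx, rfl⟩ : G.map (π j)) ∈ Submodule.span K (Set.range (B j)) := by
        rw [(B j).span_eq]
        trivial
      obtain ⟨c, hc⟩ := (Submodule.mem_span_range_iff_exists_fun K).mp h1
      have h2 : π j x = ∑ s, c s • ((B j s : G.map (π j)) : M) := by
        have h3 := congrArg Subtype.val hc
        rw [Submodule.coe_sum] at h3
        exact h3.symm
      rw [h2]
      exact Submodule.sum_mem _ fun s _ => Submodule.smul_mem _ _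
        (Submodule.subset_span ⟨⟨j, s⟩, rfl⟩)

end Linear

variable {k : Type u} [Field k] {K : Type v} [Field K] [CharZero K]
  (W : WeilCohomology.{u, v, w} k K) {F : Subfield K} {X : SmProjVar k}

/-- dual families -/
lemma exists_dual_family {r : ℕ} {f : Fin r → W.H X} (hli : LinearIndependent K f) :
    ∃ g : Fin r → W.H X, ∀ s t, W.trL X (g s * f t) = if s = t then 1 else 0 := by
  classical
  have hfin : Module.Finite K (W.H X) := (W.graded X).finite
  let φ : W.H X →ₗ[K] Module.Dual K (W.H X) :=
    LinearMap.mk₂ K (fun x y => W.trL X (x * y))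
      (fun a b c => by rw [add_mul, map_add]) (fun a b c => by rw [smul_mul_assoc, map_smul])
      (fun a b c => by rw [mul_add, map_add]) (fun a b c => by rw [mul_smul_comm, map_smul])
  have hinj : Function.Injective φ := by
    rw [injective_iff_map_eq_zero]
    intro x hx
    exact (W.trace X).nondegenerate x fun y => LinearMap.congr_fun hx y
  have hsurj : Function.Surjective φ :=
    (LinearMap.injective_iff_surjective_of_finrank_eq_finrank
      (Subspace.dual_finrank_eq).symm).mp hinj
  have hL : Function.Injective (Fintype.linearCombination K f) := by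
    rw [injective_iff_map_eq_zero]
    intro a ha
    rw [Fintype.linearCombination_apply] at ha
    exact funext (Fintype.linearIndependent_iff.mp hli a ha)
  obtain ⟨P, hP⟩ := LinearMap.exists_leftInverse_of_injective (Fintype.linearCombination K f)
    (LinearMap.ker_eq_bot.mpr hL)
  choose g hg using fun s : Fin r => hsurj (LinearMap.proj s ∘ₗ P)
  refine ⟨g, fun s t => ?_⟩
  have h1 : W.trL X (g s * f t) = P (f t) s := LinearMap.congr_fun (hg s) (f t)
  have h2 : P (f t) = Pi.single t 1 := by
    have h3 := LinearMap.congr_fun hP (Pi.single t 1)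
    rw [LinearMap.comp_apply, Fintype.linearCombination_apply_single, one_smul] at h3
    exact h3
  rw [h1, h2, Pi.single_apply]

/-- a determinant is not zero -/
lemma IsDeterminant.ne_zero {N : ℕ} {G : Fin N → Submodule K (W.H X)} {b : ℕ}
    {z : W.H (cart X b)} (h : IsDeterminant W.toCohomologyData G z) : z ≠ 0 := by
  rintro rfl
  obtain ⟨r, f, e, a, ha, hf, hv⟩ := h
  choose g hg using fun y => exists_dual_family W (hf y).1
  have h1 := hv fun q => g q.1 q.2
  have h2 : W.pairing (cart X b) 0 (extProd W.toCohomologyData (A := pt k) 1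
      fun q => g (e.symm q).1 (e.symm q).2) = 0 := by
    change W.trL (cart X b) (0 * _) = 0
    rw [zero_mul, map_zero]
  rw [h2] at h1
  have h3 : ∏ y, Matrix.det (Matrix.of fun s t => W.pairing X (g y s) (f y t)) = 1 := by
    refine prod_eq_one fun y _ => ?_
    have h4 : (Matrix.of fun s t => W.pairing X (g y s) (f y t)) = 1 := by
      ext s t
      rw [Matrix.of_apply, Matrix.one_apply]
      exact hg y s t
    rw [h4, Matrix.det_one]
  rw [h3, mul_one] at h1
  exact ha h1.symm

end Pool.Agent.Helper11.BD
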