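import Mathlib
import Pool.Agent.Helper11.BD.Blocks

/-!
# The even and the odd part of cohomology as pieces
-/

universe u v w t

open CategoryTheory Finset

namespace Pool.Agent.Helper11.BD

open Pool.Agent.Helper10 hiding IsAlgAut parityPart
open SmProjVar Pool.Agent.Helper10.GIT
open Pool.Agent.Helper11.Obs (extProd wordClass prodVar prodFst prodProj IsNumTrivial parityPart
  power)

variable {k : Type u} [Field k] {K : Type v} [Field K] [CharZero K]
  (W : WeilCohomology.{u, v, w} k K) {F : Subfield K} {X : SmProjVar k}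

/-- the Künneth projectors, as linear maps -/
structure Projs (F : Subfield K) (X : SmProjVar k)
    (π : Fin (2 * X.dim + 1) → W.H X →ₗ[K] W.H X) : Prop where
  map : ∀ j, IsMapOver W.toCohomologyData F X (π j)
  self : ∀ j : Fin (2 * X.dim + 1), ∀ x ∈ W.gr X j, π j x = x
  other : ∀ (j : Fin (2 * X.dim + 1)) (s : ℕ), s ≠ j → ∀ x ∈ W.gr X s, π j x = 0

theorem exists_projs (h : ∀ i, ∃ π : W.H X → W.H X, IsMapOver W.toCohomologyData F X π ∧
    (∀ x ∈ W.gr X i, π x = x) ∧ ∀ s ≠ i, ∀ x ∈ W.gr X s, π x = 0) : ∃ π, Projs W F X π := by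
  choose π h1 h2 h3 using h
  choose L hL using fun i => Ro.IsMapOver.exists_linear W (h1 i)
  have hL' : ∀ i, (L i : W.H X → W.H X) = π i := fun i => funext (hL i)
  exact ⟨fun j => L j, fun j => by rw [hL']; exact h1 j, fun j x hx => by rw [hL]; exact h2 j x hx,
    fun j s hs x hx => by rw [hL]; exact h3 j s hs x hx⟩

section

variable {W} {π : Fin (2 * X.dim + 1) → W.H X →ₗ[K] W.H X} (hπ : Projs W F X π)
include hπ

lemma Projs.mem (j : Fin (2 * X.dim + 1)) (x : W.H X) : π j x ∈ W.gr X j := by
  refine W.gr_induction X (p := fun x => π j x ∈ W.gr X j) (fun s x hx => ?_) ?_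
    (fun a b ha hb => ?_) x
  · by_cases hs : s = j
    · subst hs
      rw [hπ.self j x hx]
      exact hx
    · rw [hπ.other j s hs x hx]
      exact Submodule.zero_mem _
  · rw [map_zero]
    exact Submodule.zero_mem _
  · rw [map_add]
    exact Submodule.add_mem _ ha hb

lemma Projs.idem (j : Fin (2 * X.dim + 1)) (x : W.H X) : π j (π j x) = π j x :=
  hπ.self j _ (hπ.mem j x)

lemma Projs.orth (i j : Fin (2 * X.dim + 1)) (hij : i ≠ j) (x : W.H X) : π i (π j x) = 0 :=
  hπ.other i j (fun h => hij (Fin.ext h.symm)) _ (hπ.mem j x)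

lemma Projs.sum (x : W.H X) : ∑ j, π j x = x := by
  refine W.gr_induction X (p := fun x => ∑ j, π j x = x) (fun s x hx => ?_) ?_
    (fun a b ha hb => ?_) x
  · by_cases hs : s < 2 * X.dim + 1
    · rw [sum_eq_single (⟨s, hs⟩ : Fin (2 * X.dim + 1))]
      · exact hπ.self ⟨s, hs⟩ x hx
      · intro j _ hj
        exact hπ.other j s (fun h => hj (Fin.ext h.symm)) x hx
      · intro h
        exact absurd (mem_univ _) h
    · rw [(W.graded X).eq_bot s (by omega), Submodule.mem_bot] at hx
      subst hx
      simp
  · simp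
  · simp only [map_add, sum_add_distrib, ha, hb]

lemma Projs.trL {i j : Fin (2 * X.dim + 1)} (hij : (i : ℕ) + j = 2 * X.dim) (x y : W.H X) :
    W.trL X (π i x * y) = W.trL X (x * π j y) := by
  refine W.gr_induction X (p := fun x => W.trL X (π i x * y) = W.trL X (x * π j y))
    (fun s x hx => ?_) ?_ (fun a b ha hb => ?_) x
  · refine W.gr_induction X (p := fun y => W.trL X (π i x * y) = W.trL X (x * π j y))
      (fun t y hy => ?_) ?_ (fun a b ha hb => ?_) y
    · by_cases hs : s = i
      · rw [hπ.self i x (hs ▸ hx)]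
        by_cases ht : t = j
        · rw [hπ.self j y (ht ▸ hy)]
        · rw [hπ.other j t ht y hy, mul_zero, map_zero, trL_gr W hx hy (by omega)]
      · rw [hπ.other i s hs x hx, zero_mul, map_zero]
        by_cases ht : t = j
        · rw [hπ.self j y (ht ▸ hy), trL_gr W hx hy (by omega)]
        · rw [hπ.other j t ht y hy, mul_zero, map_zero]
    · simp
    · simp only [mul_add, map_add, ha, hb]
  · simp
  · simp only [add_mul, map_add, ha, hb]

lemma Projs.parity (j : Fin (2 * X.dim + 1)) {c : ℕ} {x : W.H X}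
    (hx : x ∈ parityPart W.toCohomologyData X c) (h : ¬ Even ((j : ℕ) + c)) : π j x = 0 := by
  unfold Obs.parityPart at hx
  rw [iSup_subtype'] at hx
  induction hx using Submodule.iSup_induction' with
  | mem i x hx => exact hπ.other j i (fun h1 => h (by rw [← h1]; exact i.2)) x hx
  | zero => exact map_zero _
  | add x y _ _ hx hy => rw [map_add, hx, hy, add_zero]

end

lemma gr_le_parityPart {j c : ℕ} (h : Even (j + c)) :
    W.gr X j ≤ parityPart W.toCohomologyData X c :=
  le_biSup (fun i => W.gr X i) (show j ∈ {i | Even (i + c)} from h)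

lemma isMapOver_add {u u' : W.H X → W.H X} (hu : IsMapOver W.toCohomologyData F X u)
    (hu' : IsMapOver W.toCohomologyData F X u') :
    IsMapOver W.toCohomologyData F X fun x => u x + u' x := by
  have h := Ro.isMapOver_sub W hu (Ro.isMapOver_smul W (F.neg_mem F.one_mem) hu')
  have h2 : (fun x => u x - (-1 : K) • u' x) = fun x => u x + u' x := by
    funext x
    rw [neg_one_smul, sub_neg_eq_add]
  rwa [h2] at h

lemma isMapOver_sum {ι : Type*} (s : Finset ι) {u : ι → W.H X → W.H X}
    (hu : ∀ i ∈ s, IsMapOver W.toCohomologyData F X (u i)) :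
    IsMapOver W.toCohomologyData F X fun x => ∑ i ∈ s, u i x := by
  classical
  induction s using Finset.induction_on with
  | empty =>
    simp only [sum_empty]
    exact isMapOver_zero W
  | insert i s hi ih =>
    simp only [sum_insert hi]
    exact isMapOver_add W (hu i (mem_insert_self i s)) (ih fun j hj => hu j (mem_insert_of_mem hj))

/-- the even and the odd part are pieces -/
theorem Projs.isPieceOver {π : Fin (2 * X.dim + 1) → W.H X →ₗ[K] W.H X} (hπ : Projs W F X π)
    (c : ℕ) : Ro.IsPieceOver W.toCohomologyData F X (parityPart W.toCohomologyData X c) := by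
  classical
  refine ⟨⟨c, le_rfl⟩, fun x => ∑ j ∈ univ.filter fun j : Fin (2 * X.dim + 1) =>
    Even ((j : ℕ) + c), π j x, isMapOver_sum W _ fun j _ => hπ.map j, fun y => ⟨?_, ?_⟩⟩
  · refine Submodule.sum_mem _ fun j hj => ?_
    exact gr_le_parityPart W (mem_filter.mp hj).2 (hπ.mem j y)
  · intro x hx
    change W.trL X (x * ∑ j ∈ univ.filter fun j : Fin (2 * X.dim + 1) => Even ((j : ℕ) + c), π j y) =
      W.trL X (x * y)
    conv_rhs => rw [← hπ.sum y]
    rw [mul_sum, mul_sum, map_sum, map_sum, sum_filter]
    refine sum_congr rfl fun j _ => ?_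
    split_ifs with h
    · rfl
    · have hj : (2 * X.dim - j : ℕ) < 2 * X.dim + 1 := by omega
      have h1 := hπ.trL (i := ⟨2 * X.dim - j, hj⟩) (j := j)
        (by have := j.2; simp only; omega) x y
      rw [← h1, hπ.parity _ hx, zero_mul, map_zero]
      intro h2
      apply h
      have := j.2
      rw [Nat.even_iff] at h2 ⊢
      simp only at h2
      omega

/-- everything is spanned by the even and the odd part -/
theorem isSpanned_self : Ro.IsSpanned W.toCohomologyData (P := 2) (fun _ => X)
    (fun c => parityPart W.toCohomologyData X c) X := by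
  unfold Ro.IsSpanned
  rw [eq_top_iff]
  intro x _
  refine W.gr_induction X (p := fun x => x ∈ Submodule.span K _) (fun s x hx => ?_)
    (Submodule.zero_mem _) (fun a b ha hb => Submodule.add_mem _ ha hb) x
  refine Submodule.subset_span ⟨X, fun x => x, x,
    Ro.IsMapOver.isAlgebraicMap (F := ⊤) W (Ro.isMapOver_id W X), ?_, rfl⟩
  refine ⟨1, fun _ => if Even s then 0 else 1, fun _ => 𝟙 X.toOver, fun _ => x, fun _ => ?_, ?_⟩
  · by_cases hs : Even s
    · rw [if_pos hs]
      exact gr_le_parityPart W (by simpa using hs) hx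
    · rw [if_neg hs]
      refine gr_le_parityPart W ?_ hx
      rw [Nat.not_even_iff_odd] at hs
      exact hs.add_one
  · rw [List.ofFn_succ, List.ofFn_zero, List.prod_cons, List.prod_nil, mul_one]
    exact (W.pull_id X x).symm

end Pool.Agent.Helper11.BD
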