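import Mathlib
import Pool.Agent.Helper11.BD.Pieces
import Pool.Agent.Helper11.Ro.Iff

/-!
# Homogeneous determinants from flags
-/

universe u v w t

open CategoryTheory Finset

namespace Pool.Agent.Helper11.BD

open Pool.Agent.Helper10 hiding IsAlgAut parityPart
open SmProjVar Pool.Agent.Helper10.GIT
open Pool.Agent.Helper11.Obs (extProd wordClass prodVar prodFst prodProj IsNumTrivial parityPart
  power wordVar AreRelatedFlags)

variable {k : Type u} [Field k] {K : Type v} [Field K] [CharZero K]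
  (W : WeilCohomology.{u, v, w} k K) {F : Subfield K} {X : SmProjVar k}

/-- pushing a class to `X ^ b` -/
lemma exists_cart {l b : ℕ} {z : W.H (prodVar (power (pt k) l) fun _ : Fin b => X)}
    (hz : z ∈ Rn.nt W F (prodVar (power (pt k) l) fun _ : Fin b => X))
    {x : W.H (power (pt k) l)} (hx : x ≠ 0) :
    ∃ (z' : W.H (cart X b)) (c : K), c ≠ 0 ∧ z' ∈ cycleSpan W.toCohomologyData F (cart X b) ∧
      IsNumTrivial W.toCohomologyData (cart X b) z' ∧ ∀ v : Fin b → W.H X,
        W.pairing (cart X b) z' (extProd W.toCohomologyData (A := pt k) 1 v) =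
          c * W.pairing (prodVar (power (pt k) l) fun _ : Fin b => X) z
            (extProd W.toCohomologyData x v) := by
  obtain ⟨Z, hZ, hZF, hZv⟩ := Ro.exists_push W (F := F) (A := pt k)
    (V := fun _ : Fin b => X) (toPt k (prodVar (power (pt k) l) fun _ : Fin b => X))
    (prodProj (power (pt k) l) fun _ : Fin b => X) hz.2 hz.1
  obtain ⟨c, hc⟩ := Ro.exists_smul_of_dim_zero W (Ro.power_pt_dim l) hx
    (1 : W.H (power (pt k) l))
  refine ⟨Z, c, ?_, hZF, hZ, fun v => ?_⟩
  · rintro rfl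
    rw [zero_smul] at hc
    apply hx
    rw [← one_mul x, hc, zero_mul]
  · rw [← hZv]
    have h1 : wordClass W.toCohomologyData (toPt k (prodVar (power (pt k) l) fun _ : Fin b => X))
        (prodProj (power (pt k) l) fun _ : Fin b => X) 1 v =
        c • extProd W.toCohomologyData x v := by
      rw [← Ro.extProd_smul, ← hc]
      change W.pullA _ 1 * _ = W.pullA _ 1 * _
      rw [map_one, map_one]
    rw [h1]
    exact Can.pairing_smul W z c _

/-- **Homogeneous determinants.** -/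
theorem exists_isDeterminant_of_flags {π : Fin (2 * X.dim + 1) → W.H X →ₗ[K] W.H X}
    (hπ : Projs W F X π) {G : ∀ _ : Fin 2, ℕ → Submodule K (W.H X)}
    (hG : AreRelatedFlags.{u, v, w, t} W.toCohomologyData (pt k) (fun _ : Fin 2 => X)
      (fun c => parityPart W.toCohomologyData X c) G)
    (hdet : Ro.HasNumTrivialDeterminantOver W.toCohomologyData (pt k)
      (V := fun _ : Fin 2 => X) (fun c => parityPart W.toCohomologyData X c) G F) :
    ∃ (N b : ℕ) (G' : Fin N → Submodule K (W.H X)) (z : W.H (cart X b)),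
      (∀ y, ∃ i, G' y ≤ W.gr X i) ∧ z ∈ cycleSpan W.toCohomologyData F (cart X b) ∧
      IsNumTrivial W.toCohomologyData (cart X b) z ∧
      IsDeterminant W.toCohomologyData G' z := by
  classical
  have hfin : Module.Finite K (W.H X) := (W.graded X).finite
  obtain ⟨N, m, b, l, r, f, e, z, x, hm, hN, hf, hz, hzF, hv⟩ := hdet
  -- homogeneous bases
  have hstab : ∀ (y : Fin 2 × Fin N) (j : Fin (2 * X.dim + 1)), ∀ x ∈ G y.1 y.2,
      π j x ∈ G y.1 y.2 := by
    intro y j x hx
    refine hG.correspondences y.1 y.1 (π j) (Ro.IsMapOver.isAlgebraicMap W (hπ.map j))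
      (fun x hx => ?_) y.2 x hx
    by_cases h : Even ((j : ℕ) + (y.1 : ℕ))
    · exact gr_le_parityPart W h (hπ.mem j x)
    · change π j x ∈ parityPart W.toCohomologyData X y.1
      rw [hπ.parity j hx h]
      exact Submodule.zero_mem _
  choose ρ h hli hspan hself using fun y : Fin 2 × Fin N =>
    exists_homogeneous_basis (K := K) π hπ.idem hπ.orth hπ.sum (G y.1 y.2) (hstab y)
  have hcard : ∀ y, Fintype.card (Σ j, Fin (ρ y j)) = r y := by
    intro y
    have h1 := finrank_span_eq_card (hf y).1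
    have h2 := finrank_span_eq_card (hli y)
    rw [(hf y).2, Fintype.card_fin] at h1
    rw [hspan y] at h2
    rw [← h1, ← h2]
  let ε : ∀ y, (Σ j, Fin (ρ y j)) ≃ Fin (r y) := fun y => Fintype.equivFinOfCardEq (hcard y)
  have hspan' : ∀ y, Submodule.span K (Set.range fun s => h y ((ε y).symm s)) = G y.1 y.2 := by
    intro y
    rw [← hspan y]
    congr 1
    exact (ε y).symm.surjective.range_comp (h y)
  choose C hC hCf using fun y => exists_matrix_of_span (hf y).1
    (le_of_eq ((hf y).2.trans (hspan' y).symm))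
  -- degrees
  have hmem : ∀ y a, h y a ∈ W.gr X a.1 := fun y a => by
    rw [← hself y a]
    exact hπ.mem a.1 _
  have hEven : ∀ (y : Fin 2 × Fin N) (a : Σ j, Fin (ρ y j)), Even ((a.1 : ℕ) + (y.1 : ℕ)) := by
    intro y a
    by_contra hcon
    have h1 : h y a ∈ parityPart W.toCohomologyData X y.1 := by
      refine hG.le y.1 y.2 ?_
      rw [← hspan y]
      exact Submodule.subset_span ⟨a, rfl⟩
    have h2 := hπ.parity a.1 h1 hcon
    rw [hself y a] at h2
    exact (hli y).ne_zero a h2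
  let dual : Fin (2 * X.dim + 1) → Fin (2 * X.dim + 1) := fun j => ⟨2 * X.dim - j, by omega⟩
  have hdual : ∀ j, ((dual j : ℕ)) + j = 2 * X.dim := by
    intro j
    have := j.2
    change (2 * X.dim - j : ℕ) + j = 2 * X.dim
    omega
  -- the operators
  let jj : (Σ y : Fin m × Fin 2 × Fin N, Fin (r y.2)) → Fin (2 * X.dim + 1) :=
    fun p => ((ε p.1.2).symm p.2).1
  obtain ⟨z₁, hz₁, hz₁v⟩ := Rn.exists_slots W (F := F) (A := power (pt k) l)
    (V := fun _ : Fin b => X) (w := fun q => (π (dual (jj (e.symm q))) : W.H X → W.H X))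
    (fun q => hπ.map _) (show z ∈ Rn.nt W F _ from ⟨hzF, hz⟩)
  have hval : ∀ v : (Σ y : Fin m × Fin 2 × Fin N, Fin (r y.2)) → W.H X,
      W.pairing (prodVar (power (pt k) l) fun _ : Fin b => X) z₁
        (extProd W.toCohomologyData x fun q => v (e.symm q)) =
      (∏ y : Fin m × Fin 2 × Fin N, (C y.2).det) * ∏ y : Fin m × Fin 2 × Fin N,
        ∏ j, (Matrix.of fun s t => W.pairing X (v ⟨y, ε y.2 ⟨j, s⟩⟩) (h y.2 ⟨j, t⟩)).det := by
    intro v
    rw [hz₁v]
    have h1 := hv (fun p => π (dual (jj p)) (v p)) fun p => by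
      refine gr_le_parityPart W ?_ (hπ.mem _ _)
      have h2 := hEven p.1.2 ((ε p.1.2).symm p.2)
      have h3 := hdual (jj p)
      rw [Nat.even_iff] at h2 ⊢
      change (((jj p : ℕ)) + (p.1.2.1 : ℕ)) % 2 = 0 at h2
      omega
    refine h1.trans ?_
    rw [← prod_mul_distrib]
    refine prod_congr rfl fun y _ => ?_
    have h2 : (Matrix.of fun s t => W.pairing X (π (dual (jj ⟨y, s⟩)) (v ⟨y, s⟩)) (f y.2 t)) =
        (Matrix.of fun s t => W.pairing X (π (dual (jj ⟨y, s⟩)) (v ⟨y, s⟩))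
          (h y.2 ((ε y.2).symm t))) * C y.2 := by
      ext s t
      rw [Matrix.mul_apply]
      change W.trL X (π (dual (jj ⟨y, s⟩)) (v ⟨y, s⟩) * f y.2 t) = _
      rw [hCf, mul_sum, map_sum]
      refine sum_congr rfl fun s' _ => ?_
      rw [mul_smul_comm, map_smul, smul_eq_mul, mul_comm]
      rfl
    refine (congrArg Matrix.det h2).trans ?_
    rw [Matrix.det_mul, mul_comm]
    congr 1
    rw [← Matrix.det_submatrix_equiv_self (ε y.2)]
    have h3 : (Matrix.of fun s t => W.pairing X (π (dual (jj ⟨y, s⟩)) (v ⟨y, s⟩))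
          (h y.2 ((ε y.2).symm t))).submatrix (ε y.2) (ε y.2) =
        Matrix.of fun a a' => if a.1 = a'.1 then
          W.pairing X (v ⟨y, ε y.2 a⟩) (h y.2 a') else 0 := by
      ext a a'
      rw [Matrix.submatrix_apply, Matrix.of_apply, Matrix.of_apply, Equiv.symm_apply_apply]
      have h4 : jj ⟨y, ε y.2 a⟩ = a.1 := by
        change ((ε y.2).symm (ε y.2 a)).1 = a.1
        rw [Equiv.symm_apply_apply]
      rw [h4]
      change W.trL X (π (dual a.1) (v ⟨y, ε y.2 a⟩) * h y.2 a') = _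
      rw [hπ.trL (hdual a.1)]
      split_ifs with h5
      · rw [h5, hself]
        rfl
      · rw [hπ.other a.1 a'.1 (fun h6 => h5 (Fin.ext h6.symm)) _ (hmem y.2 a'), mul_zero, map_zero]
    rw [h3, det_sigma _ fun a a' haa => if_neg haa]
    refine prod_congr rfl fun j _ => ?_
    congr 1
    ext s t
    rw [Matrix.of_apply, Matrix.of_apply, if_pos rfl]
  -- `x` is not zero
  have hC0 : (∏ y : Fin m × Fin 2 × Fin N, (C y.2).det) ≠ 0 :=
    prod_ne_zero_iff.mpr fun y _ => hC y.2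
  have hx0 : x ≠ 0 := by
    rintro rfl
    choose g hg using fun (y : Fin 2 × Fin N) (j : Fin (2 * X.dim + 1)) =>
      exists_dual_family W (f := fun s => h y ⟨j, s⟩)
        ((hli y).comp (fun s => (⟨j, s⟩ : Σ j, Fin (ρ y j)))
          fun a b hab => eq_of_heq (Sigma.mk.inj hab).2)
    have h1 := hval fun p => g p.1.2 ((ε p.1.2).symm p.2).1 ((ε p.1.2).symm p.2).2
    have h2 : ∀ v : Fin b → W.H X, extProd W.toCohomologyData (0 : W.H (power (pt k) l)) v = 0 := by
      intro v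
      have h3 := Ro.extProd_smul W (0 : K) (0 : W.H (power (pt k) l)) v
      rwa [zero_smul, zero_smul] at h3
    rw [h2] at h1
    have h4 : ∏ y : Fin m × Fin 2 × Fin N, ∏ j, (Matrix.of fun s t =>
        W.pairing X (g y.2 ((ε y.2).symm (ε y.2 ⟨j, s⟩)).1 ((ε y.2).symm (ε y.2 ⟨j, s⟩)).2)
          (h y.2 ⟨j, t⟩)).det = 1 := by
      refine prod_eq_one fun y _ => prod_eq_one fun j _ => ?_
      have h5 : (Matrix.of fun s t =>
        W.pairing X (g y.2 ((ε y.2).symm (ε y.2 ⟨j, s⟩)).1 ((ε y.2).symm (ε y.2 ⟨j, s⟩)).2)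
          (h y.2 ⟨j, t⟩)) = 1 := by
        ext s t
        rw [Matrix.of_apply, Matrix.one_apply, Equiv.symm_apply_apply]
        exact hg y.2 j s t
      rw [h5, Matrix.det_one]
    rw [h4, mul_one] at h1
    have h6 : W.trL _ (z₁ * 0) = ∏ y : Fin m × Fin 2 × Fin N, (C y.2).det := h1
    rw [mul_zero, map_zero] at h6
    exact hC0 h6.symm
  obtain ⟨z₂, c, hc, hz₂F, hz₂, hz₂v⟩ := exists_cart W hz₁ hx0
  -- the new index sets
  let η : ((Fin m × Fin 2 × Fin N) × Fin (2 * X.dim + 1)) ≃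
      Fin (Fintype.card ((Fin m × Fin 2 × Fin N) × Fin (2 * X.dim + 1))) := Fintype.equivFin _
  let κ : (Σ y', Fin (ρ (η.symm y').1.2 (η.symm y').2)) ≃
      (Σ y : Fin m × Fin 2 × Fin N, Fin (r y.2)) :=
    ((Equiv.sigmaCongrLeft (β := fun yj : (Fin m × Fin 2 × Fin N) × Fin (2 * X.dim + 1) =>
      Fin (ρ yj.1.2 yj.2)) η.symm).trans
      (Equiv.sigmaAssocProd (γ := fun y j => Fin (ρ (y : Fin m × Fin 2 × Fin N).2 j)))).trans
      (Equiv.sigmaCongrRight fun y => ε y.2)
  have hκ : ∀ y' s, κ ⟨y', s⟩ = ⟨(η.symm y').1, ε (η.symm y').1.2 ⟨(η.symm y').2, s⟩⟩ :=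
    fun y' s => rfl
  refine ⟨_, b, fun y' => Submodule.span K (Set.range fun s =>
      h (η.symm y').1.2 ⟨(η.symm y').2, s⟩), z₂, fun y' => ⟨(η.symm y').2, ?_⟩, hz₂F, hz₂,
    fun y' => ρ (η.symm y').1.2 (η.symm y').2, fun y' s => h (η.symm y').1.2 ⟨(η.symm y').2, s⟩,
    κ.trans e, c * ∏ y : Fin m × Fin 2 × Fin N, (C y.2).det, mul_ne_zero hc hC0, fun y' => ⟨?_, rfl⟩,
    fun v => ?_⟩
  · rw [Submodule.span_le]
    rintro _ ⟨s, rfl⟩
    exact hmem (η.symm y').1.2 ⟨(η.symm y').2, s⟩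
  · exact (hli _).comp (fun s => (⟨(η.symm y').2, s⟩ : Σ j, Fin (ρ (η.symm y').1.2 j)))
      fun a b hab => eq_of_heq (Sigma.mk.inj hab).2
  · have h1 := hz₂v fun q => v ((κ.trans e).symm q)
    rw [h1]
    have h2 := hval fun p => v (κ.symm p)
    have h3 : (fun q => v ((κ.trans e).symm q)) = fun q => v (κ.symm (e.symm q)) := rfl
    rw [h3, h2, mul_assoc]
    congr 2
    have h4 : ∀ F' : ((Fin m × Fin 2 × Fin N) × Fin (2 * X.dim + 1)) → K,
        ∏ y, ∏ j, F' (y, j) = ∏ y', F' (η.symm y') := by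
      intro F'
      rw [← Fintype.prod_prod_type, Equiv.prod_comp η.symm]
    refine (h4 fun yj => (Matrix.of fun s t => W.pairing X (v (κ.symm ⟨yj.1, ε yj.1.2 ⟨yj.2, s⟩⟩))
      (h yj.1.2 ⟨yj.2, t⟩)).det).trans ?_
    refine prod_congr rfl fun y' _ => ?_
    congr 1
    ext s t
    rw [Matrix.of_apply, Matrix.of_apply, ← hκ, Equiv.symm_apply_apply]

end Pool.Agent.Helper11.BD
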