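import Mathlib
import Pool.Agent.Helper11.BD.LefThm

/-!
# The Lefschetz standard conjecture and determinants: equivalent conditions
-/

universe u v w

open CategoryTheory Finset

namespace Pool.Agent.Helper11.BD

open Pool.Agent.Helper10 hiding IsAlgAut parityPart
open SmProjVar Pool.Agent.Helper10.GIT
open Pool.Agent.Helper11.Obs (extProd wordClass prodVar prodFst prodProj IsNumTrivial)

variable {k : Type u} [Field k] {K : Type v} [Field K] [CharZero K]
  (W : WeilCohomology.{u, v, w} k K) {F : Subfield K} {X : SmProjVar k}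

/-- the determinant of a zero subspace -/
lemma not_isNumTrivial_of_bot {m b₀ : ℕ} (hm : 0 < m) {i : ℕ} (hi : 2 * X.dim < i)
    {z : W.H (cart X b₀)} (hzF : z ∈ cycleSpan W.toCohomologyData F (cart X b₀))
    (hz : IsDeterminant W.toCohomologyData (fun _ : Fin m => W.gr X i) z) :
    ¬ IsNumTrivial W.toCohomologyData _ z := by
  have hfin : Module.Finite K (W.H X) := (W.graded X).finite
  have hbot := (W.graded X).eq_bot i hi
  obtain ⟨r, f', e, a, ha, hf', hz'⟩ := hz
  have hr : r = fun _ => 0 := by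
    funext y
    have h1 := finrank_span_eq_card (hf' y).1
    rw [(hf' y).2, Fintype.card_fin, hbot, finrank_bot] at h1
    exact h1.symm
  subst hr
  have h0 : (0 : W.H (X.prod X)) = ∑ p : Fin 0, ∑ q : Fin 0, (0 : K) •
      (W.pull (fst X X) ((Fin.elim0 : Fin 0 → W.H X) p) *
        W.pull (snd X X) ((Fin.elim0 : Fin 0 → W.H X) q)) := by simp
  have hp : ∀ p : Fin 0, (Fin.elim0 : Fin 0 → W.H X) p ∈ par W false X := fun p => p.elim0
  have h := exists_trL_ne_zero W false hm e (g := Fin.elim0) hp (cycleSpan_le W _ hzF) ha hz'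
    (fun y => by rw [Matrix.det_isEmpty]; exact one_ne_zero)
    (fun y => cycleSpan_le (F := F) W _ (det_smul_sqC_mem W _ _ _ _ hp (fun _ _ => 0)
      (Submodule.zero_mem _) h0))
    (by rw [Matrix.det_isEmpty]; exact one_ne_zero)
  exact h.2

theorem lefschetz_tfae {d : X.Z 1} (hd : HardLefschetz W.toCohomologyData X d) :
    List.TFAE [LefschetzStandard W.toCohomologyData F X d,
      ∀ i < X.dim, ∃ (m b : ℕ) (z : W.H (cart X b)), 0 < m ∧
        z ∈ cycleSpan W.toCohomologyData F (cart X b) ∧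
        IsDeterminant W.toCohomologyData (fun _ : Fin m => W.gr X i) z,
      ∀ i, ∃ (b : ℕ) (z : W.H (cart X b)), z ∈ cycleSpan W.toCohomologyData F (cart X b) ∧
        IsDeterminant W.toCohomologyData (fun _ : Fin 2 => W.gr X i) z,
      ∀ i < X.dim, ∀ (b : ℕ) (z : W.H (cart X b)),
        z ∈ cycleSpan W.toCohomologyData F (cart X b) → IsNumTrivial W.toCohomologyData _ z →
        ¬ IsDeterminant W.toCohomologyData (fun _ : Fin 2 => W.gr X (2 * X.dim - i)) z,
      ∀ (i m b : ℕ) (z : W.H (cart X b)), 0 < m →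
        z ∈ cycleSpan W.toCohomologyData F (cart X b) → IsNumTrivial W.toCohomologyData _ z →
        ¬ IsDeterminant W.toCohomologyData (fun _ : Fin m => W.gr X i) z] := by
  tfae_have 1 → 3 := fun h i => (hasForm_of_standard W hd h i).exists_class
  tfae_have 3 → 2 := fun h i _ => by
    obtain ⟨b, z, h1, h2⟩ := h i
    exact ⟨2, b, z, by omega, h1, h2⟩
  tfae_have 2 → 1 := fun h => by
    refine standard_of_nontrivial W hd fun i r hir hr b g f M Λ hb hdet hΛF hΛ => ?_
    obtain ⟨m, b₀, z, hm, hzF, hz⟩ := h i (by omega)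
    exact (nontrivial_of_isDeterminant W (by omega) hb.f_mem hb.f_li hb.f_span hdet hΛF hΛ hm hzF
      hz).1
  tfae_have 1 → 5 := fun h i m b z hm hzF hz hdz => by
    by_cases hi : i ≤ 2 * X.dim
    · obtain ⟨b', f, M, Λ, hf, hli, hspan, hdet, hΛF, hΛ⟩ :=
        hasForm_of_standard W hd h (2 * X.dim - i)
      exact (nontrivial_of_isDeterminant W (by omega) hf hli hspan hdet hΛF hΛ hm hzF hdz).2 hz
    · exact not_isNumTrivial_of_bot W hm (by omega) hzF hdz hz
  tfae_have 5 → 4 := fun h i _ b z hzF hz => h _ 2 b z (by omega) hzF hz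
  tfae_have 4 → 1 := fun h => by
    refine standard_of_nontrivial W hd fun i r hir hr b g f M Λ hb hdet hΛF hΛ => ?_
    let e : (Σ _ : Fin 2, Fin b) ≃ Fin (2 * b) := Fintype.equivFinOfCardEq (by simp)
    have hfp : ∀ p, f p ∈ par W (decide (Odd (i + 2 * r))) X :=
      fun p => gr_le_par W X _ (hb.f_mem p)
    have hz := isDeterminant_sqC W _ e hfp hb.f_li hdet
    rw [hb.f_span] at hz
    have hzF := det_smul_sqC_mem W _ (fun s => prodProj (pt k) (fun _ : Fin (2 * b) => X)
      (e ⟨0, s⟩)) (fun s => prodProj (pt k) (fun _ : Fin (2 * b) => X) (e ⟨1, s⟩)) f hfp M hΛF hΛ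
    have hi : 2 * X.dim - i = i + 2 * r := by omega
    have h1 := h i (by omega) (2 * b) _ hzF
    rw [hi] at h1
    by_contra hcon
    push Not at hcon
    refine h1 ⟨cycleSpan_le W _ hzF, fun x hx => ?_⟩ hz
    exact hcon _ _ _ x hx
  tfae_finish

end Pool.Agent.Helper11.BD
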