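import Mathlib
import Pool.Agent.Helper11.BD.FlagClass
import Pool.Agent.Helper11.BD.Tfae
import Pool.Agent.Helper10.DegenThm

/-!
# The standard conjecture D for the powers of a variety, and homogeneous determinants
-/

universe u v w

open CategoryTheory Finset

namespace Pool.Agent.Helper11.BD

open Pool.Agent.Helper10 hiding IsAlgAut parityPart
open SmProjVar Pool.Agent.Helper10.GIT
open Pool.Agent.Helper11.Obs (extProd wordClass prodVar prodFst prodProj IsNumTrivial parityPart
  power wordVar AreRelatedFlags)

variable {k : Type u} [Field k] {K : Type v} [Field K] [CharZero K]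
  (W : WeilCohomology.{u, v, w} k K) {F : Subfield K} {X : SmProjVar k}

lemma eq_zero_of_isNumTrivial {T : SmProjVar k} (hD : W.StandardD T) {z : W.H T}
    (hz : IsNumTrivial W.toCohomologyData T z) : z = 0 :=
  Degen.eq_zero_of_standardD hD hz.1 hz.2

/-- the powers of `X` are spanned by words in the even and the odd part of `H(X)` -/
theorem standardD_of_projs {π : Fin (2 * X.dim + 1) → W.H X →ₗ[K] W.H X} (hπ : Projs W F X π)
    (h : ∀ (N b : ℕ) (G : Fin N → Submodule K (W.H X)) (z : W.H (cart X b)),
      (∀ y, ∃ i, G y ≤ W.gr X i) → z ∈ cycleSpan W.toCohomologyData F (cart X b) →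
      IsNumTrivial W.toCohomologyData _ z → ¬ IsDeterminant W.toCohomologyData G z) (b : ℕ) :
    W.StandardD (cart X b) := by
  have hE : ∀ c : Fin 2, Ro.IsPieceOver W.toCohomologyData F X
      (parityPart W.toCohomologyData X c) := fun c => hπ.isPieceOver W c
  have hs : Ro.IsSpanned W.toCohomologyData (P := 2) (fun _ => X)
      (fun c => parityPart W.toCohomologyData X c) (cart X b) :=
    Ro.isSpanned_prodVar W (fun c => (hE c).isPiece) (Ro.isSpanned_pt W) _
      fun _ => isSpanned_self W
  obtain ⟨n, hn⟩ := Ro.exists_spannedBy W hs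
  refine Can.standardD_of_numTrivialOrthogonal W (X := pt k) ?_ hn
  refine (Ro.orthogonal_iff.{u, v, w, v} W (Ro.standardD_power_pt W) (fun _ : Fin 2 => X) _
    hE).mpr (fun G hG hdet => ?_) n
  obtain ⟨N, b', G', z, h1, h2, h3, h4⟩ := exists_isDeterminant_of_flags W hπ hG hdet
  exact h N b' G' z h1 h2 h3 h4

/-- **The standard conjecture D for the powers of `X` and homogeneous determinants.** -/
theorem standardD_iff {d : X.Z 1} (hd : HardLefschetz W.toCohomologyData X d) :
    (∀ b, W.StandardD (cart X b)) ↔
      ∀ (N b : ℕ) (G : Fin N → Submodule K (W.H X)) (z : W.H (cart X b)),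
        (∀ y, ∃ i, G y ≤ W.gr X i) → z ∈ cycleSpan W.toCohomologyData F (cart X b) →
        IsNumTrivial W.toCohomologyData _ z → ¬ IsDeterminant W.toCohomologyData G z := by
  constructor
  · intro hD N b G z _ _ hz hdet
    exact hdet.ne_zero W (eq_zero_of_isNumTrivial W (hD b) hz)
  · intro h
    have hB : LefschetzStandard W.toCohomologyData F X d :=
      ((lefschetz_tfae W (F := F) hd).out 0 4).mpr fun i m b z _ hzF hz hdet =>
        h m b _ z (fun _ => ⟨i, le_rfl⟩) hzF hz hdet
    obtain ⟨π, hπ⟩ := exists_projs W (exists_proj_of_standard W hB)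
    exact standardD_of_projs W hπ h

end Pool.Agent.Helper11.BD
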