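import Mathlib
import Pool.Agent.Helper11.BD.Dall

/-!
# Algebraic star operators, and products
-/

universe u v w

open CategoryTheory Finset

namespace Pool.Agent.Helper11.BD

open Pool.Agent.Helper10 hiding IsAlgAut parityPart
open SmProjVar Pool.Agent.Helper10.GIT
open Pool.Agent.Helper11.Obs (extProd wordClass prodVar prodFst prodProj IsNumTrivial parityPart
  power wordVar AreRelatedFlags)

section Rel

variable {k : Type u} [Field k] {K : Type v} [Field K] [CharZero K]
  (W : WeilCohomology.{u, v, w} k K) {F : Subfield K} {X Y : SmProjVar k}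

lemma op_ext_rel {κ : (W.toSPre K).H (X.prod X)} (hκ : κ ∈ (relStr W F K).A (X.prod X))
    {κ' : (W.toSPre K).H (Y.prod Y)} (hκ' : κ' ∈ (relStr W F K).A (Y.prod Y)) :
    ∃ κ'' ∈ (relStr W F K).A ((X.prod Y).prod (X.prod Y)), ∀ x x',
      Iso.op κ'' ((W.toSPre K).ext X Y x x') =
        (W.toSPre K).ext X Y (Iso.op κ x) (Iso.op κ' x') := by
  have hκalg : κ ∈ (W.toSPre K).alg _ := (relStr W F K).le _ _ hκ
  refine ⟨(W.toSPre K).pushF (lift (Iso.prodMap (fst X X) (fst Y Y))
    (Iso.prodMap (snd X X) (snd Y Y))) ((W.toSPre K).ext _ _ κ κ'),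
    (relStr W F K).push_mem _ _ ((relStr W F K).mul_mem _ _ _ ((relStr W F K).pull_mem _ _ hκ)
      ((relStr W F K).pull_mem _ _ hκ')), fun x x' => ?_⟩
  rw [Iso.op_apply, ← Iso.pushF_pull_mul, ← Iso.pushF_comp, SPre.pull_pull, lift_fst, lift_snd,
    Iso.pull_prodMap_ext, Iso.op_apply, Iso.op_apply, ← Iso.pushF_prodMap_ext]
  congr 1
  have h1 := (W.toSPre K).ev_comm _ _ ((W.toSPre K).pull (snd (X.prod X) (Y.prod Y))
    ((W.toSPre K).pull (fst Y Y) x'))
    ((W.toSPre K).pull_ev (fst (X.prod X) (Y.prod Y)) _ ((W.toSPre K).alg_le_ev _ hκalg))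
  unfold SPre.ext
  rw [map_mul ((W.toSPre K).pull _), map_mul ((W.toSPre K).pull _), mul_assoc,
    ← mul_assoc ((W.toSPre K).pull _ ((W.toSPre K).pull _ x')), ← h1]
  noncomm_ring

/-- the product of two correspondences -/
theorem isMapOver_ext {u : W.H X → W.H X} {u' : W.H Y → W.H Y}
    (hu : IsMapOver W.toCohomologyData F X u) (hu' : IsMapOver W.toCohomologyData F Y u') :
    ∃ v : W.H (X.prod Y) → W.H (X.prod Y), IsMapOver W.toCohomologyData F (X.prod Y) v ∧
      ∀ x y, v (W.pull (fst X Y) x * W.pull (snd X Y) y) =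
        W.pull (fst X Y) (u x) * W.pull (snd X Y) (u' y) := by
  obtain ⟨κ, hκ, h⟩ := (Ro.r5_iff W).mp hu
  obtain ⟨κ', hκ', h'⟩ := (Ro.r5_iff W).mp hu'
  obtain ⟨κ'', hκ'', h''⟩ := op_ext_rel W hκ hκ'
  obtain ⟨c, hc, rfl⟩ := (mem_relA W F K).mp hκ''
  obtain ⟨v, -, hv'⟩ := Obs.exists_map W K (cycleSpan_le W _ hc)
  have hv : IsMapOver W.toCohomologyData F (X.prod Y) v := (Ro.isMapOver_iff W).mpr ⟨c, hc, hv'⟩
  refine ⟨v, hv, fun x y => Zt.one_injective W _ ?_⟩
  have e0 : ∀ (x y : W.H (X.prod Y)),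
      Obs.one W K (x * y) = Obs.one W K x * Obs.one W K y := by
    intro x y
    have h1 : (TensorProduct.tmul K (1 : K) (x * y) : TensorProduct K K (W.H (X.prod Y))) =
        (TensorProduct.tmul K (1 : K) x) * (TensorProduct.tmul K (1 : K) y) := by
      rw [Algebra.TensorProduct.tmul_mul_tmul, mul_one]
    exact h1
  have e1 : ∀ (a : W.H X) (b : W.H Y),
      Obs.one W K (W.pull (fst X Y) a * W.pull (snd X Y) b) =
        (W.toSPre K).ext X Y (Obs.one W K a) (Obs.one W K b) := by
    intro a b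
    unfold SPre.ext
    rw [e0, Obs.pull_one, Obs.pull_one]
  rw [← hv', e1]
  exact (h'' _ _).trans (by rw [h, h', ← e1])

end Rel

variable {k : Type u} [Field k] {K : Type v} [Field K] [CharZero K]
  (W : WeilCohomology.{u, v, w} k K) {F : Subfield K} {X Y : SmProjVar k}

/-- homogeneous isomorphisms `H^i → H^j` -/
theorem exists_flip_map {d : X.Z 1} (hd : HardLefschetz W.toCohomologyData X d)
    (hB : LefschetzStandard W.toCohomologyData F X d) {i j : ℕ} (hij : i + j = 2 * X.dim) :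
    ∃ l : W.H X → W.H X, IsMapOver W.toCohomologyData F X l ∧ (∀ x ∈ W.gr X i, l x ∈ W.gr X j) ∧
      (∀ s ≠ i, ∀ x ∈ W.gr X s, l x = 0) ∧ ∀ x ∈ W.gr X i, l x = 0 → x = 0 := by
  by_cases hj : j < X.dim
  · obtain ⟨πi, hπi, hi1, hi2⟩ := exists_proj_of_standard W hB j
    obtain ⟨πj, hπj, hj1, hj2⟩ := exists_proj_of_standard W hB i
    obtain ⟨u, hu, hu1⟩ := hB j (X.dim - j) (by omega)
    obtain ⟨U, hU⟩ := Ro.IsMapOver.exists_linear W hu
    obtain ⟨P, hP⟩ := Ro.IsMapOver.exists_linear W hπi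
    have hi : i = j + 2 * (X.dim - j) := by omega
    have key : ∀ x ∈ W.gr X i, ∃ y ∈ W.gr X j,
        W.lef X d (X.dim - j) y = x ∧ πi (u (πj x)) = y := by
      intro x hx
      obtain ⟨y, hy, rfl⟩ := (hd j (X.dim - j) (by omega)).2 x (by rw [← hi]; exact hx)
      exact ⟨y, hy, rfl, by rw [hj1 _ hx, hu1 y hy, hi1 y hy]⟩
    refine ⟨_, Ro.isMapOver_comp W (Ro.isMapOver_comp W hπj hu) hπi, fun x hx => ?_,
      fun s hs x hx => ?_, fun x hx h0 => ?_⟩
    · obtain ⟨y, hy, -, h1⟩ := key x hx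
      change πi (u (πj x)) ∈ _
      rw [h1]
      exact hy
    · change πi (u (πj x)) = 0
      rw [hj2 s hs x hx, ← hU, map_zero, ← hP, map_zero]
    · obtain ⟨y, hy, h1, h2⟩ := key x hx
      have h3 : y = 0 := h2.symm.trans h0
      rw [← h1, h3]
      change W.cy X 1 d ^ _ * 0 = 0
      rw [mul_zero]
  · obtain ⟨l, hl, hl1, hl2, hl3⟩ := exists_lam W (d := d) (i := i) (r := X.dim - i)
      (show i + (X.dim - i) = X.dim by omega) (hasTrunc_of_standard W hB _ (by omega))
    have hjj : i + 2 * (X.dim - i) = j := by omega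
    rw [hjj] at hl2
    refine ⟨l, hl, hl2, hl3, fun x hx h0 => ?_⟩
    rw [hl1 x hx] at h0
    exact (hd i (X.dim - i) (by omega)).1 x hx h0

/-- the projectors and an operator which exchanges `H^i` and `H^{2 dim - i}` -/
structure Star (F : Subfield K) (X : SmProjVar k) (π : Fin (2 * X.dim + 1) → W.H X →ₗ[K] W.H X)
    (l : W.H X →ₗ[K] W.H X) : Prop where
  projs : Projs W F X π
  map : IsMapOver W.toCohomologyData F X l
  injective : Function.Injective l
  flip : ∀ i j, i + j = 2 * X.dim → ∀ x ∈ W.gr X i, l x ∈ W.gr X j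

theorem exists_star {d : X.Z 1} (hd : HardLefschetz W.toCohomologyData X d)
    (hB : LefschetzStandard W.toCohomologyData F X d) : ∃ π l, Star W F X π l := by
  obtain ⟨π, hπ⟩ := exists_projs W (exists_proj_of_standard W hB)
  choose l hl h1 h2 h3 using fun i : Fin (2 * X.dim + 1) =>
    exists_flip_map W hd hB (i := i) (j := 2 * X.dim - i) (by have := i.2; omega)
  choose L hL using fun i => Ro.IsMapOver.exists_linear W (hl i)
  have hsum : ∀ (i : Fin (2 * X.dim + 1)) (x : W.H X), x ∈ W.gr X i →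
      (∑ j, L j) x = L i x := by
    intro i x hx
    rw [LinearMap.sum_apply, sum_eq_single i]
    · intro j _ hj
      rw [hL]
      exact h2 j i (fun h => hj (Fin.ext h.symm)) x hx
    · intro h
      exact absurd (mem_univ _) h
  refine ⟨π, ∑ j, L j, hπ, ?_, ?_, fun i j hij x hx => ?_⟩
  · have h4 := isMapOver_sum W (F := F) univ (u := fun j => (L j : W.H X → W.H X)) fun j _ => by
      have : (L j : W.H X → W.H X) = l j := funext (hL j)
      rw [this]
      exact hl j
    have h5 : ((∑ j, L j : W.H X →ₗ[K] W.H X) : W.H X → W.H X) = fun x => ∑ j, L j x := by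
      funext x
      rw [LinearMap.sum_apply]
    rw [h5]
    exact h4
  · rw [injective_iff_map_eq_zero]
    intro x hx
    rw [← hπ.sum x]
    refine sum_eq_zero fun i _ => ?_
    refine h3 i _ (hπ.mem i x) ?_
    -- the component of degree `2 dim - i` of `l x = 0`
    have h4 : (2 * X.dim - i : ℕ) < 2 * X.dim + 1 := by omega
    have h5 : π ⟨2 * X.dim - i, h4⟩ ((∑ j, L j) x) = L i (π i x) := by
      conv_lhs => rw [← hπ.sum x]
      rw [map_sum, map_sum, sum_eq_single i]
      · rw [hsum i _ (hπ.mem i x)]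
        refine hπ.self ⟨2 * X.dim - i, h4⟩ _ ?_
        rw [hL]
        exact h1 i _ (hπ.mem i x)
      · intro j _ hj
        rw [hsum j _ (hπ.mem j x), hL]
        refine hπ.other ⟨2 * X.dim - i, h4⟩ (2 * X.dim - j) (fun h => hj (Fin.ext ?_)) _
          (h1 j _ (hπ.mem j x))
        have := i.2
        have := j.2
        simp only at h
        omega
      · intro h
        exact absurd (mem_univ _) h
    rw [hx, map_zero] at h5
    rw [← hL, ← h5]
  · by_cases hi : i < 2 * X.dim + 1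
    · have h4 := hsum ⟨i, hi⟩ x hx
      rw [h4, hL]
      have h5 := h1 ⟨i, hi⟩ x hx
      have h6 : 2 * X.dim - i = j := by omega
      simp only [h6] at h5
      exact h5
    · omega

/-- the class of a nondegenerate form, from a star operator -/
theorem Star.hasForm {π : Fin (2 * X.dim + 1) → W.H X →ₗ[K] W.H X} {l : W.H X →ₗ[K] W.H X}
    (h : Star W F X π l) {j : ℕ} (hj : j ≤ 2 * X.dim) : HasForm W F X j := by
  have hi : (2 * X.dim - j : ℕ) < 2 * X.dim + 1 := by omega
  refine hasForm_of_map W (i := 2 * X.dim - j) (j := j) (by omega)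
    (Ro.isMapOver_comp W (h.projs.map ⟨2 * X.dim - j, hi⟩) h.map) (fun x hx => ?_)
    (fun s hs x hx => ?_) fun x hx h0 => ?_
  · change l (π _ x) ∈ _
    rw [h.projs.self ⟨2 * X.dim - j, hi⟩ x hx]
    exact h.flip _ _ (by omega) x hx
  · change l (π _ x) = 0
    rw [h.projs.other ⟨2 * X.dim - j, hi⟩ s hs x hx, map_zero]
  · have h1 : l (π _ x) = 0 := h0
    rw [h.projs.self ⟨2 * X.dim - j, hi⟩ x hx] at h1
    exact h.injective (h1.trans (map_zero l).symm)

/-- the Lefschetz standard conjecture, from a star operator -/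
theorem Star.lefschetzStandard {π : Fin (2 * X.dim + 1) → W.H X →ₗ[K] W.H X}
    {l : W.H X →ₗ[K] W.H X} (h : Star W F X π l) {d : X.Z 1}
    (hd : HardLefschetz W.toCohomologyData X d) : LefschetzStandard W.toCohomologyData F X d := by
  refine ((lefschetz_tfae W (F := F) hd).out 0 1).mpr fun i hi => ?_
  obtain ⟨b, z, h1, h2⟩ := (h.hasForm W (j := i) (by omega)).exists_class
  exact ⟨2, b, z, by omega, h1, h2⟩

end Pool.Agent.Helper11.BD
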