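import Mathlib
import Pool.Agent.Helper11.BD.Star

/-!
# Algebraic star operators on products
-/

universe u v w

open CategoryTheory Finset

namespace Pool.Agent.Helper11.BD

open Pool.Agent.Helper10 hiding IsAlgAut parityPart
open SmProjVar Pool.Agent.Helper10.GIT
open Pool.Agent.Helper11.Obs (extProd wordClass prodVar prodFst prodProj IsNumTrivial parityPart
  power wordVar AreRelatedFlags)

variable {k : Type u} [Field k] {K : Type v} [Field K] [CharZero K]
  (W : WeilCohomology.{u, v, w} k K) {F : Subfield K} {X Y : SmProjVar k}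

/-- projectors from a decomposition -/
theorem projs_of_sum {v : Fin (2 * X.dim + 1) → W.H X →ₗ[K] W.H X}
    (hmap : ∀ n, IsMapOver W.toCohomologyData F X (v n))
    (hmem : ∀ (n : Fin (2 * X.dim + 1)) z, v n z ∈ W.gr X n) (hsum : ∀ z, ∑ n, v n z = z) :
    Projs W F X v := by
  -- pairings
  have key : ∀ (s : ℕ) (z : W.H X), z ∈ W.gr X s → ∀ (n : Fin (2 * X.dim + 1)) (w : W.H X),
      w ∈ W.gr X (2 * X.dim - n) → W.trL X (v n z * w) = W.trL X (z * w) := by
    intro s z _ n w hw
    conv_rhs => rw [← hsum z]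
    rw [sum_mul, map_sum, sum_eq_single n]
    · intro m _ hm
      refine trL_gr W (hmem m z) hw (fun h => hm (Fin.ext ?_))
      have := m.2
      have := n.2
      omega
    · intro h
      exact absurd (mem_univ _) h
  refine ⟨hmap, fun n x hx => ?_, fun n s hs x hx => ?_⟩
  · rw [← sub_eq_zero]
    refine eq_zero_of_gr W (i := n) (j := 2 * X.dim - n) (by have := n.2; omega)
      (Submodule.sub_mem _ (hmem n x) hx) fun w hw => ?_
    rw [sub_mul, map_sub, key n x hx n w hw, sub_self]
  · refine eq_zero_of_gr W (i := n) (j := 2 * X.dim - n) (by have := n.2; omega) (hmem n x)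
      fun w hw => ?_
    rw [key s x hx n w hw]
    exact trL_gr W hx hw (by have := n.2; omega)

/-- induction for classes on a product -/
lemma prod_induction' {p : W.H (X.prod Y) → Prop}
    (hext : ∀ a b, p (W.pull (fst X Y) a * W.pull (snd X Y) b))
    (hadd : ∀ x y, p x → p y → p (x + y)) (x : W.H (X.prod Y)) : p x := by
  let m : TensorProduct K (W.H X) (W.H Y) →ₗ[K] W.H (X.prod Y) :=
    LinearMap.mul' K _ ∘ₗ
      TensorProduct.map (W.pullA (fst X Y)).toLinearMap (W.pullA (snd X Y)).toLinearMap
  have hm : ∀ a b, m (TensorProduct.tmul K a b) =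
      W.pull (fst X Y) a * W.pull (snd X Y) b := fun a b => rfl
  obtain ⟨s, rfl⟩ := (W.kunneth X Y m hm).2 x
  induction s using TensorProduct.induction_on with
  | zero =>
    rw [map_zero]
    have h1 := hext 0 0
    have h2 : W.pull (fst X Y) 0 = 0 := map_zero (W.pullA (fst X Y))
    rwa [h2, zero_mul] at h1
  | tmul a b => exact hext a b
  | add x y hx hy =>
    rw [map_add]
    exact hadd _ _ hx hy

lemma pull_zero' {X Y : SmProjVar k} (f : X.toOver ⟶ Y.toOver) : W.pull f 0 = 0 :=
  map_zero (W.pullA f)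

lemma pull_sum' {X Y : SmProjVar k} (f : X.toOver ⟶ Y.toOver) {ι : Type*} (s : Finset ι)
    (x : ι → W.H Y) : W.pull f (∑ i ∈ s, x i) = ∑ i ∈ s, W.pull f (x i) :=
  map_sum (W.pullA f) x s

/-- products of star operators -/
theorem Star.prod {π : Fin (2 * X.dim + 1) → W.H X →ₗ[K] W.H X} {l : W.H X →ₗ[K] W.H X}
    (h : Star W F X π l) {π' : Fin (2 * Y.dim + 1) → W.H Y →ₗ[K] W.H Y} {l' : W.H Y →ₗ[K] W.H Y}
    (h' : Star W F Y π' l') : ∃ π'' l'', Star W F (X.prod Y) π'' l'' := by
  classical
  have hdim : (X.prod Y).dim = Y.dim + X.dim := rfl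
  -- the products
  have hprod : ∀ (u : W.H X →ₗ[K] W.H X) (u' : W.H Y →ₗ[K] W.H Y),
      IsMapOver W.toCohomologyData F X u → IsMapOver W.toCohomologyData F Y u' →
      ∃ t : W.H (X.prod Y) →ₗ[K] W.H (X.prod Y),
        IsMapOver W.toCohomologyData F (X.prod Y) t ∧ ∀ x y,
          t (W.pull (fst X Y) x * W.pull (snd X Y) y) =
            W.pull (fst X Y) (u x) * W.pull (snd X Y) (u' y) := by
    intro u u' hu hu'
    obtain ⟨t, ht, ht'⟩ := isMapOver_ext W hu hu'
    obtain ⟨T, hT⟩ := Ro.IsMapOver.exists_linear W ht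
    have : (T : W.H (X.prod Y) → W.H (X.prod Y)) = t := funext hT
    exact ⟨T, by rw [this]; exact ht, fun x y => by rw [hT, ht']⟩
  choose e he he' using fun (i : Fin (2 * X.dim + 1)) (j : Fin (2 * Y.dim + 1)) =>
    hprod (π i) (π' j) (h.projs.map i) (h'.projs.map j)
  obtain ⟨L, hL, hL'⟩ := hprod l l' h.map h'.map
  have hemem : ∀ (i : Fin (2 * X.dim + 1)) (j : Fin (2 * Y.dim + 1)) z, e i j z ∈ W.gr (X.prod Y) ((i : ℕ) + j) := by
    intro i j z
    refine prod_induction' W (p := fun z => e i j z ∈ W.gr (X.prod Y) ((i : ℕ) + j))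
      (fun a b => ?_) (fun a b ha hb => ?_) z
    · rw [he']
      exact mul_gr W (pull_gr W _ (h.projs.mem i a)) (pull_gr W _ (h'.projs.mem j b))
    · rw [map_add]
      exact Submodule.add_mem _ ha hb
  have hesum : ∀ z, ∑ i, ∑ j, e i j z = z := by
    intro z
    refine prod_induction' W (p := fun z => ∑ i, ∑ j, e i j z = z) (fun a b => ?_)
      (fun a b ha hb => ?_) z
    · simp only [he']
      simp only [← mul_sum, ← sum_mul, ← pull_sum']
      rw [h.projs.sum, h'.projs.sum]
    · simp only [map_add, sum_add_distrib, ha, hb]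
  have hLe : ∀ (i : Fin (2 * X.dim + 1)) (j : Fin (2 * Y.dim + 1)) z,
      L (e i j z) ∈ W.gr (X.prod Y) ((2 * X.dim - i) + (2 * Y.dim - j)) := by
    intro i j z
    refine prod_induction' W (p := fun z => L (e i j z) ∈
      W.gr (X.prod Y) ((2 * X.dim - i) + (2 * Y.dim - j))) (fun a b => ?_) (fun a b ha hb => ?_) z
    · rw [he', hL']
      exact mul_gr W (pull_gr W _ (h.flip i _ (by have := i.2; omega) _ (h.projs.mem i a)))
        (pull_gr W _ (h'.flip j _ (by have := j.2; omega) _ (h'.projs.mem j b)))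
    · rw [map_add, map_add]
      exact Submodule.add_mem _ ha hb
  let v : Fin (2 * (X.prod Y).dim + 1) → W.H (X.prod Y) →ₗ[K] W.H (X.prod Y) := fun n =>
    ∑ i : Fin (2 * X.dim + 1), ∑ j : Fin (2 * Y.dim + 1), if (i : ℕ) + j = n then e i j else 0
  have hv : ∀ n z, v n z = ∑ i : Fin (2 * X.dim + 1), ∑ j : Fin (2 * Y.dim + 1),
      if (i : ℕ) + j = n then e i j z else 0 := by
    intro n z
    change (∑ i : Fin (2 * X.dim + 1), ∑ j : Fin (2 * Y.dim + 1),
      if (i : ℕ) + j = n then e i j else 0 : W.H (X.prod Y) →ₗ[K] _) z = _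
    rw [LinearMap.sum_apply]
    refine sum_congr rfl fun i _ => ?_
    rw [LinearMap.sum_apply]
    refine sum_congr rfl fun j _ => ?_
    split_ifs <;> rfl
  have hvmap : ∀ n, IsMapOver W.toCohomologyData F (X.prod Y) (v n) := by
    intro n
    have h1 : (v n : W.H (X.prod Y) → W.H (X.prod Y)) =
        fun z => ∑ i : Fin (2 * X.dim + 1), ∑ j : Fin (2 * Y.dim + 1),
          if (i : ℕ) + j = n then e i j z else 0 := funext (hv n)
    rw [h1]
    refine isMapOver_sum W _ fun i _ => isMapOver_sum W _ fun j _ => ?_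
    split_ifs
    · exact he i j
    · exact isMapOver_zero W
  have hvmem : ∀ (n : Fin (2 * (X.prod Y).dim + 1)) z, v n z ∈ W.gr (X.prod Y) n := by
    intro n z
    rw [hv]
    refine Submodule.sum_mem _ fun i _ => Submodule.sum_mem _ fun j _ => ?_
    split_ifs with hij
    · rw [← hij]
      exact hemem i j z
    · exact Submodule.zero_mem _
  have hvsum : ∀ z, ∑ n, v n z = z := by
    intro z
    simp only [hv]
    rw [sum_comm]
    conv_rhs => rw [← hesum z]
    refine sum_congr rfl fun i _ => ?_
    rw [sum_comm]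
    refine sum_congr rfl fun j _ => ?_
    have hij : (i : ℕ) + j < 2 * (X.prod Y).dim + 1 := by
      have := i.2
      have := j.2
      omega
    rw [sum_eq_single (⟨(i : ℕ) + j, hij⟩ : Fin (2 * (X.prod Y).dim + 1))]
    · rw [if_pos rfl]
    · intro n _ hn
      rw [if_neg fun h1 => hn (Fin.ext h1.symm)]
    · intro h1
      exact absurd (mem_univ _) h1
  have hproj := projs_of_sum W hvmap hvmem hvsum
  refine ⟨v, L, hproj, hL, ?_, fun i j hij z hz => ?_⟩
  · -- injectivity
    let m : TensorProduct K (W.H X) (W.H Y) →ₗ[K] W.H (X.prod Y) :=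
      LinearMap.mul' K _ ∘ₗ
        TensorProduct.map (W.pullA (fst X Y)).toLinearMap (W.pullA (snd X Y)).toLinearMap
    have hm : ∀ a b, m (TensorProduct.tmul K a b) =
        W.pull (fst X Y) a * W.pull (snd X Y) b := fun a b => rfl
    have hbij := W.kunneth X Y m hm
    have hcomp : ∀ s, L (m s) = m (TensorProduct.map l l' s) := by
      intro s
      induction s using TensorProduct.induction_on with
      | zero => simp
      | tmul a b => rw [TensorProduct.map_tmul, hm, hm, hL']
      | add a b ha hb => rw [map_add, map_add, ha, hb, map_add, map_add]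
    rw [injective_iff_map_eq_zero]
    intro z hz
    obtain ⟨s, rfl⟩ := hbij.2 z
    rw [hcomp] at hz
    have h1 : TensorProduct.map l l' s = 0 := hbij.1 (hz.trans (map_zero m).symm)
    have h2 : Function.Injective (TensorProduct.map l l') :=
      TensorProduct.map_injective_of_flat_flat l l' h.injective h'.injective
    rw [h2 (h1.trans (map_zero _).symm), map_zero]
  · have hi : i < 2 * (X.prod Y).dim + 1 := by omega
    have h1 := hproj.self ⟨i, hi⟩ z hz
    rw [← h1, hv, map_sum]
    refine Submodule.sum_mem _ fun a _ => ?_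
    rw [map_sum]
    refine Submodule.sum_mem _ fun b _ => ?_
    split_ifs with hab
    · have h2 := hLe a b z
      have h3 : (2 * X.dim - a) + (2 * Y.dim - b) = j := by
        have := a.2
        have := b.2
        simp only at hab
        omega
      rwa [h3] at h2
    · rw [map_zero]
      exact Submodule.zero_mem _

/-- the star operator of a point -/
theorem star_pt : ∃ π l, Star W F (pt k) π l := by
  have hgr : ∀ z : W.H (pt k), z ∈ W.gr (pt k) 0 := by
    intro z
    have h1 : (⨆ i, W.gr (pt k) i) ≤ W.gr (pt k) 0 := by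
      refine iSup_le fun i => ?_
      rcases Nat.eq_zero_or_pos i with rfl | hi
      · exact le_rfl
      · rw [(W.graded (pt k)).eq_bot i (by rw [pt_dim]; omega)]
        exact bot_le
    rw [(W.graded (pt k)).iSup_eq_top] at h1
    exact h1 trivial
  refine ⟨fun _ => LinearMap.id, LinearMap.id, ?_, ?_, Function.injective_id, fun i j hij x _ => ?_⟩
  · refine projs_of_sum W (fun _ => Ro.isMapOver_id W _) (fun n z => ?_) fun z => ?_
    · have hn : (n : ℕ) = 0 := by
        have h1 : (n : ℕ) < 1 := n.2
        omega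
      rw [hn]
      exact hgr _
    · change ∑ n : Fin 1, z = z
      simp
  · exact Ro.isMapOver_id W _
  · rw [pt_dim] at hij
    have : j = 0 := by omega
    rw [this]
    exact hgr _

/-- the star operators of the powers -/
theorem exists_star_cart {π : Fin (2 * X.dim + 1) → W.H X →ₗ[K] W.H X} {l : W.H X →ₗ[K] W.H X}
    (h : Star W F X π l) (b : ℕ) : ∃ π' l', Star W F (cart X b) π' l' := by
  induction b with
  | zero => exact star_pt W
  | succ b ih =>
    obtain ⟨π', l', h'⟩ := ih
    exact h'.prod W h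

end Pool.Agent.Helper11.BD
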