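import Mathlib
import Pool.Agent.Helper11.BD.StarProd
import Pool.Agent.Helper10.HD.Final
import Pool.Agent.Helper10.HD.Single

/-!
# The standard conjecture of Hodge type
-/

universe u v w

open CategoryTheory Finset

namespace Pool.Agent.Helper11.BD

open Pool.Agent.Helper10 hiding IsAlgAut parityPart
open SmProjVar Pool.Agent.Helper10.GIT
open Pool.Agent.Helper11.Obs (extProd wordClass prodVar prodFst prodProj IsNumTrivial parityPart
  power wordVar AreRelatedFlags)
open Pool.Agent.Helper10.HD (ratModule exists_multiple standardD_of_lefschetz hodgeType_iff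
  lefschetzType_iff)

variable {k : Type u} [Field k] {K : Type v} [Field K] [CharZero K]
  (W : WeilCohomology.{u, v, w} k K) {F : Subfield K} {X : SmProjVar k}

/-- the field of rational numbers in `K` -/
noncomputable def ratField (K : Type v) [Field K] [CharZero K] : Subfield K :=
  (algebraMap ℚ K).fieldRange

lemma ratField_le (F : Subfield K) : ratField K ≤ F := by
  rintro _ ⟨q, rfl⟩
  rw [eq_ratCast]
  exact SubfieldClass.ratCast_mem F q

lemma cycleSpan_mono {F F' : Subfield K} (h : F ≤ F') {X : SmProjVar k} {z : W.H X}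
    (hz : z ∈ cycleSpan W.toCohomologyData F X) : z ∈ cycleSpan W.toCohomologyData F' X := by
  unfold cycleSpan at hz
  induction hz using Submodule.span_induction with
  | mem z hz =>
    obtain ⟨j, c, rfl⟩ := hz
    exact cy_mem_cycleSpan W F' X j c
  | zero => exact Submodule.zero_mem _
  | add x y _ _ hx hy => exact Submodule.add_mem _ hx hy
  | smul a x _ hx => exact smul_mem_cycleSpan W (⟨a, h a.2⟩ : F') hx

/-- the Lefschetz standard conjecture does not depend on the coefficients -/
theorem lefschetzStandard_iff {F' : Subfield K} {d : X.Z 1}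
    (hd : HardLefschetz W.toCohomologyData X d) (hFF' : F ≤ F') :
    LefschetzStandard W.toCohomologyData F X d ↔ LefschetzStandard W.toCohomologyData F' X d := by
  constructor
  · intro h i r hir
    obtain ⟨u, ⟨c, hc, hu⟩, hu1⟩ := h i r hir
    exact ⟨u, ⟨c, cycleSpan_mono W hFF' hc, hu⟩, hu1⟩
  · intro h
    have h5 := ((lefschetz_tfae W (F := F') hd).out 0 4).mp h
    exact ((lefschetz_tfae W (F := F) hd).out 0 4).mpr fun i m b z hm hzF hz =>
      h5 i m b z hm (cycleSpan_mono W hFF' hzF) hz

/-- maps with coefficients in `F` preserve the `F`-linear combinations of cycle classes -/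
lemma IsMapOver.mem_cycleSpan {u : W.H X → W.H X} (hu : IsMapOver W.toCohomologyData F X u)
    {x : W.H X} (hx : x ∈ cycleSpan W.toCohomologyData F X) :
    u x ∈ cycleSpan W.toCohomologyData F X := by
  obtain ⟨c, hc, h⟩ := IsMapOver.trL_eq W hu
  obtain ⟨y, hy, h'⟩ := push_mem_cycleSpan (F := F) W (snd X X)
    (mul_mem_cycleSpan W _ hc (pull_mem_cycleSpan W (fst X X) hx))
  have h1 : u x = y := by
    rw [← sub_eq_zero]
    refine (W.trace X).nondegenerate _ fun z => ?_
    change W.trL X ((u x - y) * z) = 0
    rw [sub_mul, map_sub, h, h', sub_eq_zero, mul_assoc]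
    rfl
  rw [h1]
  exact hy

attribute [local instance] ratModule

/-- the homogeneous components of rational classes -/
lemma exists_components {x : W.H X} (hx : x ∈ cycleSpan W.toCohomologyData (ratField K) X) :
    ∃ y : ℕ → W.H X, (∀ j, y j ∈ Submodule.span ℚ {y | ∃ c : X.Z j, y = W.cy X j c}) ∧
      x = ∑ j ∈ range (X.dim + 1), y j := by
  unfold cycleSpan at hx
  induction hx using Submodule.span_induction with
  | mem x hx =>
    obtain ⟨j, c, rfl⟩ := hx
    by_cases hj : j < X.dim + 1
    · refine ⟨Pi.single j (W.cy X j c), fun i => ?_, ?_⟩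
      · by_cases hi : i = j
        · subst hi
          rw [Pi.single_eq_same]
          exact Submodule.subset_span ⟨c, rfl⟩
        · rw [Pi.single_eq_of_ne hi]
          exact Submodule.zero_mem _
      · rw [sum_eq_single j]
        · rw [Pi.single_eq_same]
        · intro i _ hi
          rw [Pi.single_eq_of_ne hi]
        · intro h
          exact absurd (mem_range.mpr hj) h
    · refine ⟨fun _ => 0, fun _ => Submodule.zero_mem _, ?_⟩
      have h1 := W.cycleClasses.cy_mem X j c
      rw [(W.graded X).eq_bot (2 * j) (by omega), Submodule.mem_bot] at h1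
      rw [h1, sum_const_zero]
  | zero => exact ⟨fun _ => 0, fun _ => Submodule.zero_mem _, by rw [sum_const_zero]⟩
  | add a b _ _ ha hb =>
    obtain ⟨y, hy, rfl⟩ := ha
    obtain ⟨y', hy', rfl⟩ := hb
    exact ⟨fun j => y j + y' j, fun j => Submodule.add_mem _ (hy j) (hy' j), by
      rw [sum_add_distrib]⟩
  | smul a x _ hx =>
    obtain ⟨y, hy, rfl⟩ := hx
    obtain ⟨a, q, rfl⟩ := a
    refine ⟨fun j => q • y j, fun j => Submodule.smul_mem _ _ (hy j), ?_⟩
    rw [← smul_sum]
    rfl

lemma span_le_gr {p : ℕ} {x : W.H X}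
    (hx : x ∈ Submodule.span ℚ {y | ∃ c : X.Z p, y = W.cy X p c}) : x ∈ W.gr X (2 * p) := by
  induction hx using Submodule.span_induction with
  | mem x hx =>
    obtain ⟨c, rfl⟩ := hx
    exact W.cycleClasses.cy_mem X p c
  | zero => exact Submodule.zero_mem _
  | add a b _ _ ha hb => exact Submodule.add_mem _ ha hb
  | smul q x _ hx => exact Submodule.smul_mem _ (algebraMap ℚ K q) hx

/-- homogeneous rational classes -/
lemma mem_span_of_gr {p : ℕ} (hp : p ≤ X.dim) {x : W.H X}
    (hx : x ∈ cycleSpan W.toCohomologyData (ratField K) X) (hxp : x ∈ W.gr X (2 * p)) :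
    x ∈ Submodule.span ℚ {y | ∃ c : X.Z p, y = W.cy X p c} := by
  obtain ⟨y, hy, hxy⟩ := exists_components W hx
  have h1 : x = y p := by
    rw [← sub_eq_zero]
    refine eq_zero_of_gr W (i := 2 * p) (j := 2 * X.dim - 2 * p) (by omega)
      (Submodule.sub_mem _ hxp (span_le_gr W (hy p))) fun w hw => ?_
    rw [sub_mul, map_sub, hxy, sum_mul, map_sum, sum_eq_single p, sub_self]
    · intro j _ hj
      exact trL_gr W (span_le_gr W (hy j)) hw (by omega)
    · intro h
      exact absurd (mem_range.mpr (by omega)) h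
  rw [h1]
  exact hy p

/-- conjecture `A` from conjecture `B` -/
theorem lefschetzType_of_standard {d : X.Z 1} (hd : HardLefschetz W.toCohomologyData X d)
    (hB : LefschetzStandard W.toCohomologyData (ratField K) X d) : W.LefschetzType X d := by
  intro p r hpr
  refine ⟨fun z hz => (hd (2 * p) r hpr).1 _ (W.cycleClasses.cy_mem X p z) hz, fun z => ?_⟩
  have h1 : W.cy X (p + r) z ∈ W.gr X (2 * p + 2 * r) := by
    have := W.cycleClasses.cy_mem X (p + r) z
    rwa [mul_add] at this
  obtain ⟨x, hx, hxz⟩ := (hd (2 * p) r hpr).2 _ h1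
  obtain ⟨u, hu, hu1⟩ := hB (2 * p) r hpr
  have h2 : x ∈ cycleSpan W.toCohomologyData (ratField K) X := by
    rw [← hu1 x hx, hxz]
    exact IsMapOver.mem_cycleSpan W hu (cy_mem_cycleSpan W _ X _ z)
  obtain ⟨m, c, hm, hc⟩ := exists_multiple W (mem_span_of_gr W (by omega) h2 hx)
  refine ⟨m, c, by exact_mod_cast hm.ne', ?_⟩
  rw [← hc]
  change (m : ℤ) • W.cy X (p + r) z = W.cy X 1 d ^ r * ((algebraMap ℚ K (m : ℚ)) • x)
  have h3 : W.cy X 1 d ^ r * x = W.cy X (p + r) z := hxz
  rw [mul_smul_comm, h3, map_natCast, natCast_zsmul, Nat.cast_smul_eq_nsmul]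

/-- **The standard conjecture D for all powers, the Lefschetz standard conjecture and the conjecture
of Hodge type.** -/
theorem standardD_iff_lefschetz {d : X.Z 1} (hd : HardLefschetz W.toCohomologyData X d)
    (hH : ∀ b, ∃ e : (cart X b).Z 1, HardLefschetz W.toCohomologyData (cart X b) e ∧
      W.HodgeType (cart X b) e) :
    (∀ b, W.StandardD (cart X b)) ↔ LefschetzStandard W.toCohomologyData F X d := by
  constructor
  · intro hD
    refine ((lefschetz_tfae W (F := F) hd).out 0 4).mpr fun i m b z _ hzF hz hdet => ?_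
    exact hdet.ne_zero W (eq_zero_of_isNumTrivial W (hD b) hz)
  · intro hB b
    have hB' : LefschetzStandard W.toCohomologyData (ratField K) X d :=
      (lefschetzStandard_iff W hd (ratField_le F)).mpr hB
    obtain ⟨π, l, hl⟩ := exists_star W hd hB'
    obtain ⟨π', l', hl'⟩ := exists_star_cart W hl b
    obtain ⟨e, he, heH⟩ := hH b
    exact standardD_of_lefschetz ((hodgeType_iff W _ _).mp heH)
      ((lefschetzType_iff W _ _).mp (lefschetzType_of_standard W he
        (hl'.lefschetzStandard W he)))

end Pool.Agent.Helper11.BD
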