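import Mathlib
import Pool.Agent.Helper11.BD.FlagClass
import Pool.Agent.Helper11.BD.Dall
import Pool.Agent.Helper11.BD.Hodge

/-!
# Isotropic homogeneous determinants from flags
-/

universe u v w t

open CategoryTheory Finset

namespace Pool.Agent.Helper11.BD

open Pool.Agent.Helper10 hiding IsAlgAut parityPart
open SmProjVar Pool.Agent.Helper10.GIT
open Pool.Agent.Helper11.Obs (extProd wordClass prodVar prodFst prodProj IsNumTrivial parityPart
  power wordVar AreRelatedFlags)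

variable {k : Type u} [Field k] {K : Type v} [Field K] [CharZero K]
  (W : WeilCohomology.{u, v, w} k K) {F : Subfield K} {X : SmProjVar k}

/-- **Homogeneous determinants.** -/
theorem exists_isDeterminant_of_flags_map {π : Fin (2 * X.dim + 1) → W.H X →ₗ[K] W.H X}
    (hπ : Projs W F X π) {w θ : Fin (2 * X.dim + 1) → W.H X →ₗ[K] W.H X}
    (hw : ∀ j, IsMapOver W.toCohomologyData F X (w j))
    (hwm : ∀ (j : Fin (2 * X.dim + 1)) (x : W.H X), w j x ∈ W.gr X (2 * X.dim - j))
    (hθ : ∀ j : Fin (2 * X.dim + 1), ∀ g ∈ W.gr X j, ∀ v, W.trL X (w j v * g) = W.trL X (v * θ j g))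
    (hθi : ∀ j : Fin (2 * X.dim + 1), ∀ g ∈ W.gr X j, θ j g = 0 → g = 0)
    {G : ∀ _ : Fin 2, ℕ → Submodule K (W.H X)}
    (hG : AreRelatedFlags.{u, v, w, t} W.toCohomologyData (pt k) (fun _ : Fin 2 => X)
      (fun c => parityPart W.toCohomologyData X c) G)
    (hdet : Ro.HasNumTrivialDeterminantOver W.toCohomologyData (pt k)
      (V := fun _ : Fin 2 => X) (fun c => parityPart W.toCohomologyData X c) G F) :
    ∃ (N b : ℕ) (G' : Fin N → Submodule K (W.H X)) (z : W.H (cart X b)),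
      (∀ y, ∃ (c : Fin 2) (i : ℕ) (j : Fin (2 * X.dim + 1)),
        G' y = (G c i ⊓ W.gr X j).map (θ j)) ∧ z ∈ cycleSpan W.toCohomologyData F (cart X b) ∧
      IsNumTrivial W.toCohomologyData (cart X b) z ∧
      IsDeterminant W.toCohomologyData G' z := by
  classical
  have hfin : Module.Finite K (W.H X) := (W.graded X).finite
  obtain ⟨N, m, b, l, r, f, e, z, x, hm, hN, hf, hz, hzF, hv⟩ := hdet
  -- homogeneous bases
  have hstab : ∀ (y : Fin 2 × Fin N) (j : Fin (2 * X.dim + 1)), ∀ x ∈ G y.1 y.2,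
      π j x ∈ G y.1 y.2 := by
    intro y j x hx
    refine hG.correspondences y.1 y.1 (π j) (Ro.IsMapOver.isAlgebraicMap W (hπ.map j))
      (fun x hx => ?_) y.2 x hx
    by_cases h : Even ((j : ℕ) + (y.1 : ℕ))
    · exact gr_le_parityPart W h (hπ.mem j x)
    · change π j x ∈ parityPart W.toCohomologyData X y.1
      rw [hπ.parity j hx h]
      exact Submodule.zero_mem _
  choose ρ h hli hspan hself using fun y : Fin 2 × Fin N =>
    exists_homogeneous_basis (K := K) π hπ.idem hπ.orth hπ.sum (G y.1 y.2) (hstab y)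
  have hcard : ∀ y, Fintype.card (Σ j, Fin (ρ y j)) = r y := by
    intro y
    have h1 := finrank_span_eq_card (hf y).1
    have h2 := finrank_span_eq_card (hli y)
    rw [(hf y).2, Fintype.card_fin] at h1
    rw [hspan y] at h2
    rw [← h1, ← h2]
  let ε : ∀ y, (Σ j, Fin (ρ y j)) ≃ Fin (r y) := fun y => Fintype.equivFinOfCardEq (hcard y)
  have hspan' : ∀ y, Submodule.span K (Set.range fun s => h y ((ε y).symm s)) = G y.1 y.2 := by
    intro y
    rw [← hspan y]
    congr 1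
    exact (ε y).symm.surjective.range_comp (h y)
  choose C hC hCf using fun y => exists_matrix_of_span (hf y).1
    (le_of_eq ((hf y).2.trans (hspan' y).symm))
  -- degrees
  have hmem : ∀ y a, h y a ∈ W.gr X a.1 := fun y a => by
    rw [← hself y a]
    exact hπ.mem a.1 _
  have hEven : ∀ (y : Fin 2 × Fin N) (a : Σ j, Fin (ρ y j)), Even ((a.1 : ℕ) + (y.1 : ℕ)) := by
    intro y a
    by_contra hcon
    have h1 : h y a ∈ parityPart W.toCohomologyData X y.1 := by
      refine hG.le y.1 y.2 ?_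
      rw [← hspan y]
      exact Submodule.subset_span ⟨a, rfl⟩
    have h2 := hπ.parity a.1 h1 hcon
    rw [hself y a] at h2
    exact (hli y).ne_zero a h2
  have hθli : ∀ y j, LinearIndependent K fun s : Fin (ρ y j) => θ j (h y ⟨j, s⟩) := by
    intro y j
    have h1 : LinearIndependent K fun s : Fin (ρ y j) => h y ⟨j, s⟩ :=
      (hli y).comp (fun s => (⟨j, s⟩ : Σ j, Fin (ρ y j)))
        fun a b hab => eq_of_heq (Sigma.mk.inj hab).2
    rw [Fintype.linearIndependent_iff] at h1 ⊢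
    intro a ha
    refine h1 a (hθi j _ (Submodule.sum_mem _ fun s _ => Submodule.smul_mem _ _ (hmem y ⟨j, s⟩)) ?_)
    rw [map_sum, ← ha]
    exact sum_congr rfl fun s _ => map_smul _ _ _
  have hjspan : ∀ y j, Submodule.span K (Set.range fun s : Fin (ρ y j) => h y ⟨j, s⟩) =
      G y.1 y.2 ⊓ W.gr X j := by
    intro y j
    refine le_antisymm (Submodule.span_le.mpr ?_) ?_
    · rintro _ ⟨s, rfl⟩
      refine ⟨?_, hmem y ⟨j, s⟩⟩
      rw [← hspan y]
      exact Submodule.subset_span ⟨⟨j, s⟩, rfl⟩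
    · rintro x ⟨hx, hxj⟩
      rw [← hspan y] at hx
      obtain ⟨a, ha⟩ := (Submodule.mem_span_range_iff_exists_fun K).mp hx
      have h1 : π j x = x := hπ.self j x hxj
      rw [← h1, ← ha, map_sum]
      refine Submodule.sum_mem _ fun q _ => ?_
      rw [map_smul]
      refine Submodule.smul_mem _ _ ?_
      by_cases hq : q.1 = j
      · subst hq
        rw [hself]
        exact Submodule.subset_span ⟨q.2, rfl⟩
      · rw [hπ.other j q.1 (fun h6 => hq (Fin.ext h6)) _ (hmem y q)]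
        exact Submodule.zero_mem _
  have hθspan : ∀ y j, Submodule.span K (Set.range fun s : Fin (ρ y j) => θ j (h y ⟨j, s⟩)) =
      (G y.1 y.2 ⊓ W.gr X j).map (θ j) := by
    intro y j
    rw [← hjspan, Submodule.map_span]
    congr 1
    exact (Set.range_comp (θ j) fun s : Fin (ρ y j) => h y ⟨j, s⟩)
  -- the operators
  let jj : (Σ y : Fin m × Fin 2 × Fin N, Fin (r y.2)) → Fin (2 * X.dim + 1) :=
    fun p => ((ε p.1.2).symm p.2).1
  obtain ⟨z₁, hz₁, hz₁v⟩ := Rn.exists_slots W (F := F) (A := power (pt k) l)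
    (V := fun _ : Fin b => X) (w := fun q => (w (jj (e.symm q)) : W.H X → W.H X))
    (fun q => hw _) (show z ∈ Rn.nt W F _ from ⟨hzF, hz⟩)
  have hval : ∀ v : (Σ y : Fin m × Fin 2 × Fin N, Fin (r y.2)) → W.H X,
      W.pairing (prodVar (power (pt k) l) fun _ : Fin b => X) z₁
        (extProd W.toCohomologyData x fun q => v (e.symm q)) =
      (∏ y : Fin m × Fin 2 × Fin N, (C y.2).det) * ∏ y : Fin m × Fin 2 × Fin N,
        ∏ j, (Matrix.of fun s t => W.pairing X (v ⟨y, ε y.2 ⟨j, s⟩⟩)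
          (θ j (h y.2 ⟨j, t⟩))).det := by
    intro v
    rw [hz₁v]
    have h1 := hv (fun p => w (jj p) (v p)) fun p => by
      refine gr_le_parityPart W ?_ (hwm _ _)
      have h2 := hEven p.1.2 ((ε p.1.2).symm p.2)
      have h3 := (jj p).2
      rw [Nat.even_iff] at h2 ⊢
      change (((jj p : ℕ)) + (p.1.2.1 : ℕ)) % 2 = 0 at h2
      omega
    refine h1.trans ?_
    rw [← prod_mul_distrib]
    refine prod_congr rfl fun y _ => ?_
    have h2 : (Matrix.of fun s t => W.pairing X (w (jj ⟨y, s⟩) (v ⟨y, s⟩)) (f y.2 t)) =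
        (Matrix.of fun s t => W.pairing X (w (jj ⟨y, s⟩) (v ⟨y, s⟩))
          (h y.2 ((ε y.2).symm t))) * C y.2 := by
      ext s t
      rw [Matrix.mul_apply]
      change W.trL X (w (jj ⟨y, s⟩) (v ⟨y, s⟩) * f y.2 t) = _
      rw [hCf, mul_sum, map_sum]
      refine sum_congr rfl fun s' _ => ?_
      rw [mul_smul_comm, map_smul, smul_eq_mul, mul_comm]
      rfl
    refine (congrArg Matrix.det h2).trans ?_
    rw [Matrix.det_mul, mul_comm]
    congr 1
    rw [← Matrix.det_submatrix_equiv_self (ε y.2)]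
    have h3 : (Matrix.of fun s t => W.pairing X (w (jj ⟨y, s⟩) (v ⟨y, s⟩))
          (h y.2 ((ε y.2).symm t))).submatrix (ε y.2) (ε y.2) =
        Matrix.of fun a a' => if a.1 = a'.1 then
          W.pairing X (v ⟨y, ε y.2 a⟩) (θ a'.1 (h y.2 a')) else 0 := by
      ext a a'
      rw [Matrix.submatrix_apply, Matrix.of_apply, Matrix.of_apply, Equiv.symm_apply_apply]
      have h4 : jj ⟨y, ε y.2 a⟩ = a.1 := by
        change ((ε y.2).symm (ε y.2 a)).1 = a.1
        rw [Equiv.symm_apply_apply]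
      rw [h4]
      change W.trL X (w a.1 (v ⟨y, ε y.2 a⟩) * h y.2 a') = _
      split_ifs with h5
      · rw [h5, hθ _ _ (hmem y.2 a')]
        rfl
      · refine trL_gr W (hwm _ _) (hmem y.2 a') fun h6 => h5 (Fin.ext ?_)
        have := a.1.2
        have := a'.1.2
        omega
    rw [h3, det_sigma _ fun a a' haa => if_neg haa]
    refine prod_congr rfl fun j _ => ?_
    congr 1
    ext s t
    rw [Matrix.of_apply, Matrix.of_apply, if_pos rfl]
  -- `x` is not zero
  have hC0 : (∏ y : Fin m × Fin 2 × Fin N, (C y.2).det) ≠ 0 :=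
    prod_ne_zero_iff.mpr fun y _ => hC y.2
  have hx0 : x ≠ 0 := by
    rintro rfl
    choose g hg using fun (y : Fin 2 × Fin N) (j : Fin (2 * X.dim + 1)) =>
      exists_dual_family W (hθli y j)
    have h1 := hval fun p => g p.1.2 ((ε p.1.2).symm p.2).1 ((ε p.1.2).symm p.2).2
    have h2 : ∀ v : Fin b → W.H X, extProd W.toCohomologyData (0 : W.H (power (pt k) l)) v = 0 := by
      intro v
      have h3 := Ro.extProd_smul W (0 : K) (0 : W.H (power (pt k) l)) v
      rwa [zero_smul, zero_smul] at h3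
    rw [h2] at h1
    have h4 : ∏ y : Fin m × Fin 2 × Fin N, ∏ j, (Matrix.of fun s t =>
        W.pairing X (g y.2 ((ε y.2).symm (ε y.2 ⟨j, s⟩)).1 ((ε y.2).symm (ε y.2 ⟨j, s⟩)).2)
          (θ j (h y.2 ⟨j, t⟩))).det = 1 := by
      refine prod_eq_one fun y _ => prod_eq_one fun j _ => ?_
      have h5 : (Matrix.of fun s t =>
        W.pairing X (g y.2 ((ε y.2).symm (ε y.2 ⟨j, s⟩)).1 ((ε y.2).symm (ε y.2 ⟨j, s⟩)).2)
          (θ j (h y.2 ⟨j, t⟩))) = 1 := by
        ext s t
        rw [Matrix.of_apply, Matrix.one_apply, Equiv.symm_apply_apply]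
        exact hg y.2 j s t
      rw [h5, Matrix.det_one]
    rw [h4, mul_one] at h1
    have h6 : W.trL _ (z₁ * 0) = ∏ y : Fin m × Fin 2 × Fin N, (C y.2).det := h1
    rw [mul_zero, map_zero] at h6
    exact hC0 h6.symm
  obtain ⟨z₂, c, hc, hz₂F, hz₂, hz₂v⟩ := exists_cart W hz₁ hx0
  -- the new index sets
  let η : ((Fin m × Fin 2 × Fin N) × Fin (2 * X.dim + 1)) ≃
      Fin (Fintype.card ((Fin m × Fin 2 × Fin N) × Fin (2 * X.dim + 1))) := Fintype.equivFin _
  let κ : (Σ y', Fin (ρ (η.symm y').1.2 (η.symm y').2)) ≃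
      (Σ y : Fin m × Fin 2 × Fin N, Fin (r y.2)) :=
    ((Equiv.sigmaCongrLeft (β := fun yj : (Fin m × Fin 2 × Fin N) × Fin (2 * X.dim + 1) =>
      Fin (ρ yj.1.2 yj.2)) η.symm).trans
      (Equiv.sigmaAssocProd (γ := fun y j => Fin (ρ (y : Fin m × Fin 2 × Fin N).2 j)))).trans
      (Equiv.sigmaCongrRight fun y => ε y.2)
  have hκ : ∀ y' s, κ ⟨y', s⟩ = ⟨(η.symm y').1, ε (η.symm y').1.2 ⟨(η.symm y').2, s⟩⟩ :=
    fun y' s => rfl
  refine ⟨_, b, fun y' => Submodule.span K (Set.range fun s =>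
      θ (η.symm y').2 (h (η.symm y').1.2 ⟨(η.symm y').2, s⟩)), z₂,
    fun y' => ⟨(η.symm y').1.2.1, (η.symm y').1.2.2, (η.symm y').2, hθspan _ _⟩, hz₂F, hz₂,
    fun y' => ρ (η.symm y').1.2 (η.symm y').2,
    fun y' s => θ (η.symm y').2 (h (η.symm y').1.2 ⟨(η.symm y').2, s⟩),
    κ.trans e, c * ∏ y : Fin m × Fin 2 × Fin N, (C y.2).det, mul_ne_zero hc hC0,
    fun y' => ⟨hθli _ _, rfl⟩, fun v => ?_⟩
  · have h1 := hz₂v fun q => v ((κ.trans e).symm q)
    rw [h1]
    have h2 := hval fun p => v (κ.symm p)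
    have h3 : (fun q => v ((κ.trans e).symm q)) = fun q => v (κ.symm (e.symm q)) := rfl
    rw [h3, h2, mul_assoc]
    congr 2
    have h4 : ∀ F' : ((Fin m × Fin 2 × Fin N) × Fin (2 * X.dim + 1)) → K,
        ∏ y, ∏ j, F' (y, j) = ∏ y', F' (η.symm y') := by
      intro F'
      rw [← Fintype.prod_prod_type, Equiv.prod_comp η.symm]
    refine (h4 fun yj => (Matrix.of fun s t => W.pairing X (v (κ.symm ⟨yj.1, ε yj.1.2 ⟨yj.2, s⟩⟩))
      (θ yj.2 (h yj.1.2 ⟨yj.2, t⟩))).det).trans ?_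
    refine prod_congr rfl fun y' _ => ?_
    congr 1
    ext s t
    rw [Matrix.of_apply, Matrix.of_apply, ← hκ, Equiv.symm_apply_apply]

end Pool.Agent.Helper11.BD
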