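import Mathlib
import Pool.Agent.Helper11.BD.FlagClass2

/-!
# The standard conjecture D and isotropic determinants
-/

universe u v w t

open CategoryTheory Finset TensorProduct

namespace Pool.Agent.Helper11.BD

open Pool.Agent.Helper10 hiding IsAlgAut parityPart
open SmProjVar Pool.Agent.Helper10.GIT
open Pool.Agent.Helper11.Obs (extProd wordClass prodVar prodFst prodProj IsNumTrivial parityPart
  power wordVar AreRelatedFlags)

variable {k : Type u} [Field k] {K : Type v} [Field K] [CharZero K]
  (W : WeilCohomology.{u, v, w} k K) {F : Subfield K} {X : SmProjVar k}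

lemma lef_gr {d : X.Z 1} {s r : ℕ} {x : W.H X} (hx : x ∈ W.gr X s) :
    W.lef X d r x ∈ W.gr X (s + 2 * r) := by
  have h1 : W.cy X 1 d ^ r ∈ W.gr X (r * (2 * 1)) := pow_gr W (W.cycleClasses.cy_mem X 1 d) r
  have h2 := mul_gr W h1 hx
  have h3 : r * (2 * 1) + s = s + 2 * r := by ring
  rwa [h3] at h2

lemma isAlgebraicMap_apply_zero {u : W.H X → W.H X} (hu : W.IsAlgebraicMap X X u) : u 0 = 0 := by
  obtain ⟨c, -, h⟩ := hu
  refine (W.trace X).nondegenerate _ fun y => (h 0 y).trans ?_
  change W.trL _ (W.pullA (fst X X) 0 * c * W.pull (snd X X) y) = 0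
  rw [map_zero, zero_mul, zero_mul, map_zero]

/-- the pieces of the flags in the lower half of the cohomology -/
lemma isStableIsotropic_of_flags {π : Fin (2 * X.dim + 1) → W.H X →ₗ[K] W.H X}
    (hπ : Projs W F X π) (d : X.Z 1) {G : ∀ _ : Fin 2, ℕ → Submodule K (W.H X)}
    (hG : AreRelatedFlags.{u, v, w, t} W.toCohomologyData (pt k) (fun _ : Fin 2 => X)
      (fun c => parityPart W.toCohomologyData X c) G) (c : Fin 2) (a : ℕ) {i r : ℕ}
    (hir : i + r = X.dim) :
    IsStableIsotropic.{u, v, w, t} W.toCohomologyData X d (G c a ⊓ W.gr X i) := by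
  have hi : i < 2 * X.dim + 1 := by omega
  refine ⟨i, r, hir, inf_le_right, fun x hx y hy => ?_, fun u hu hui x hx => ⟨?_, hui x hx.2⟩,
    fun Ω _ _ g χ hg hgr x hx => ?_⟩
  rotate_left
  · have hπi := Ro.IsMapOver.isAlgebraicMap (F := F) W (hπ.map ⟨i, hi⟩)
    have h1 := Zt.isAlgebraicMap_comp W (Zt.isAlgebraicMap_comp W hπi hu) hπi
    have h2 := hG.correspondences c c _ h1 (fun y hy => ?_) a x hx.1
    · rw [hπ.self ⟨i, hi⟩ x hx.2, hπ.self ⟨i, hi⟩ _ (hui x hx.2)] at h2
      exact h2
    · by_cases he : Even (i + (c : ℕ))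
      · exact gr_le_parityPart W he (hπ.mem ⟨i, hi⟩ _)
      · rw [hπ.parity ⟨i, hi⟩ hy he]
        rw [isAlgebraicMap_apply_zero W hu, map_zero]
        exact Submodule.zero_mem _
  · have h1 : g X (1 ⊗ₜ[K] x) ∈ (G c a).baseChange Ω :=
      hG.symmetries Ω g χ hg (fun c' y hy => ?_) c a x hx.1
    · have h2 : g X (1 ⊗ₜ[K] x) ∈ (W.gr X i).baseChange Ω := hgr i x hx.2
      -- the projector
      have h3 : ∀ w ∈ (W.gr X i).baseChange Ω, (π ⟨i, hi⟩).baseChange Ω w = w := by
        intro w hw
        rw [Submodule.baseChange_eq_span] at hw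
        induction hw using Submodule.span_induction with
        | mem y hy =>
          obtain ⟨y, hy, rfl⟩ := hy
          change (π ⟨i, hi⟩).baseChange Ω (1 ⊗ₜ[K] y) = 1 ⊗ₜ[K] y
          rw [LinearMap.baseChange_tmul, hπ.self ⟨i, hi⟩ y hy]
        | zero => rw [map_zero]
        | add y z _ _ hy hz => rw [map_add, hy, hz]
        | smul b y _ hy => rw [map_smul, hy]
      have h4 : ∀ y ∈ G c a, π ⟨i, hi⟩ y ∈ G c a := fun y hy =>
        hG.correspondences c c _ (Ro.IsMapOver.isAlgebraicMap W (hπ.map ⟨i, hi⟩))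
          (fun z hz => by
            by_cases he : Even (i + (c : ℕ))
            · exact gr_le_parityPart W he (hπ.mem ⟨i, hi⟩ _)
            · rw [hπ.parity ⟨i, hi⟩ hz he]
              exact Submodule.zero_mem _) a y hy
      rw [← h3 _ h2]
      have h5 : ∀ w ∈ (G c a).baseChange Ω,
          (π ⟨i, hi⟩).baseChange Ω w ∈ (G c a ⊓ W.gr X i).baseChange Ω := by
        intro w hw
        rw [Submodule.baseChange_eq_span] at hw
        induction hw using Submodule.span_induction with
        | mem y hy =>
          obtain ⟨y, hy, rfl⟩ := hy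
          change (π ⟨i, hi⟩).baseChange Ω (1 ⊗ₜ[K] y) ∈ _
          rw [LinearMap.baseChange_tmul]
          exact Submodule.tmul_mem_baseChange_of_mem _ ⟨h4 y hy, hπ.mem ⟨i, hi⟩ y⟩
        | zero => rw [map_zero]; exact Submodule.zero_mem _
        | add y z _ _ hy hz => rw [map_add]; exact Submodule.add_mem _ hy hz
        | smul b y _ hy => rw [map_smul]; exact Submodule.smul_mem _ _ hy
      exact h5 _ h1
    · -- the even and the odd part are stable
      change y ∈ parityPart W.toCohomologyData X c' at hy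
      change g X (1 ⊗ₜ[K] y) ∈ (parityPart W.toCohomologyData X c').baseChange Ω
      have hadd := (hg.aut X).map_add
      unfold Obs.parityPart at hy
      rw [iSup_subtype'] at hy
      induction hy using Submodule.iSup_induction' with
      | mem s y hy =>
        have h5 : W.gr X s ≤ parityPart W.toCohomologyData X c' := gr_le_parityPart W s.2
        exact Submodule.baseChange_mono Ω h5 (hgr s y hy)
      | zero =>
        have h5 : g X 0 = 0 := by
          have h6 := hadd 0 0
          rw [add_zero] at h6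
          exact left_eq_add.mp h6
        rw [TensorProduct.tmul_zero, h5]
        exact Submodule.zero_mem _
      | add y y' _ _ hy hy' =>
        rw [TensorProduct.tmul_add, hadd]
        exact Submodule.add_mem _ hy hy'
  · have hpow : W.cy X 1 d ^ r ∈ cycleSpan W.toCohomologyData F X :=
      pow_mem_cycleSpan W (cy_mem_cycleSpan W F X 1 d) r
    have hL := Ro.IsMapOver.isAlgebraicMap W (isMapOver_mul W hpow)
    refine hG.isotropic c a x hx.1 _ (hG.correspondences c c _ hL (fun y hy => ?_) a y hy.1)
    change y ∈ parityPart W.toCohomologyData X c at hy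
    change W.cy X 1 d ^ r * y ∈ parityPart W.toCohomologyData X c
    unfold Obs.parityPart at hy
    rw [iSup_subtype'] at hy
    induction hy using Submodule.iSup_induction' with
    | mem s y hy =>
      refine gr_le_parityPart W (j := s + 2 * r) ?_ (lef_gr W hy)
      have h1 : Even ((s : ℕ) + (c : ℕ)) := s.2
      rw [Nat.even_iff] at h1 ⊢
      omega
    | zero => rw [mul_zero]; exact Submodule.zero_mem _
    | add y y' _ _ hy hy' => rw [mul_add]; exact Submodule.add_mem _ hy hy'

/-- the slot operators -/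
lemma exists_slot_operators {π : Fin (2 * X.dim + 1) → W.H X →ₗ[K] W.H X}
    (hπ : Projs W F X π) {d : X.Z 1} (hd : HardLefschetz W.toCohomologyData X d)
    (hB : LefschetzStandard W.toCohomologyData F X d) (j : Fin (2 * X.dim + 1)) :
    ∃ wj θj : W.H X →ₗ[K] W.H X, IsMapOver W.toCohomologyData F X wj ∧
      (∀ x : W.H X, wj x ∈ W.gr X (2 * X.dim - j)) ∧
      (∀ g ∈ W.gr X j, ∀ v, W.trL X (wj v * g) = W.trL X (v * θj g)) ∧
      (∀ g ∈ W.gr X j, θj g = 0 → g = 0) ∧
      ∀ G : ∀ _ : Fin 2, ℕ → Submodule K (W.H X),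
        AreRelatedFlags.{u, v, w, t} W.toCohomologyData (pt k) (fun _ : Fin 2 => X)
          (fun c => parityPart W.toCohomologyData X c) G → ∀ (c : Fin 2) (a : ℕ),
        IsStableIsotropic.{u, v, w, t} W.toCohomologyData X d ((G c a ⊓ W.gr X j).map θj) := by
  have hj := j.2
  by_cases hjn : (j : ℕ) ≤ X.dim
  · have hj' : (2 * X.dim - j : ℕ) < 2 * X.dim + 1 := by omega
    refine ⟨π ⟨2 * X.dim - j, hj'⟩, LinearMap.id, hπ.map _,
      fun x => hπ.mem ⟨2 * X.dim - j, hj'⟩ x,
      fun g hg v => ?_, fun g _ h => h, fun G hG c a => ?_⟩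
    · have h1 := hπ.trL (i := ⟨2 * X.dim - j, hj'⟩) (j := j)
        (by change (2 * X.dim - j : ℕ) + j = 2 * X.dim; omega) v g
      rw [h1, hπ.self j g hg]
      rfl
    · rw [Submodule.map_id]
      exact isStableIsotropic_of_flags W hπ d hG c a (r := X.dim - j) (by omega)
  · -- the inverse of the Lefschetz operator
    have hi : (2 * X.dim - j : ℕ) < 2 * X.dim + 1 := by omega
    set i : Fin (2 * X.dim + 1) := ⟨2 * X.dim - j, hi⟩ with hidef
    have hiv : (i : ℕ) = 2 * X.dim - j := rfl
    set r : ℕ := j - X.dim with hr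
    have hir : (i : ℕ) + r = X.dim := by omega
    have hj2 : (i : ℕ) + 2 * r = j := by omega
    obtain ⟨u, hu, hu1⟩ := hB i r hir
    obtain ⟨U, hU⟩ := Ro.IsMapOver.exists_linear W hu
    have hT : IsMapOver W.toCohomologyData F X fun x => π i (u (π j x)) :=
      Ro.isMapOver_comp W (Ro.isMapOver_comp W (hπ.map j) hu) (hπ.map i)
    let T : W.H X →ₗ[K] W.H X := π i ∘ₗ U ∘ₗ π j
    have hT' : ∀ x, T x = π i (u (π j x)) := fun x => by
      change π i (U (π j x)) = _
      rw [hU]
    have hTmap : IsMapOver W.toCohomologyData F X T := by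
      have h1 : (T : W.H X → W.H X) = fun x => π i (u (π j x)) := funext hT'
      rw [h1]
      exact hT
    have hTmem : ∀ x, T x ∈ W.gr X i := fun x => by rw [hT']; exact hπ.mem i _
    have hTL : ∀ y ∈ W.gr X i, T (W.lef X d r y) = y := by
      intro y hy
      have h1 : W.lef X d r y ∈ W.gr X j := by
        have := lef_gr W (d := d) (r := r) hy
        rwa [hj2] at this
      rw [hT', hπ.self j _ h1, hu1 y hy, hπ.self i y hy]
    have hLT : ∀ x ∈ W.gr X j, W.lef X d r (T x) = x := by
      intro x hx
      rw [← hj2] at hx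
      obtain ⟨y, hy, rfl⟩ := (hd i r hir).2 x hx
      rw [hTL y hy]
    have hLmul : ∀ x y : W.H X, W.trL X (W.lef X d r x * y) = W.trL X (x * W.lef X d r y) := by
      intro x y
      change W.trL X (W.cy X 1 d ^ r * x * y) = W.trL X (x * (W.cy X 1 d ^ r * y))
      have h1 : W.cy X 1 d ^ r ∈ W.evK X :=
        W.gr_le_evK _ (show Even (r * (2 * 1)) by rw [Nat.even_iff]; omega)
          (pow_gr W (W.cycleClasses.cy_mem X 1 d) r)
      rw [W.evK_comm _ _ x h1, mul_assoc]
    refine ⟨T, T, hTmap, fun x => ?_, fun g hg v => ?_, fun g hg h => ?_, fun G hG c a => ?_⟩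
    · exact hTmem x
    · -- `⟨T v, g⟩ = ⟨T v, L T g⟩ = ⟨L T v, T g⟩ = ⟨v, T g⟩`
      have h1 : W.trL X (T v * g) = W.trL X (T v * W.lef X d r (T g)) := by rw [hLT g hg]
      rw [h1, ← hLmul]
      have h2 : W.lef X d r (T v) = π j v := by
        have h3 : T v = T (π j v) := by rw [hT', hT', hπ.idem]
        rw [h3, hLT _ (hπ.mem j v)]
      rw [h2]
      have h3 := hπ.trL (i := j) (j := i) (by omega) v (T g)
      rw [h3, hπ.self i _ (hTmem g)]
    · rw [← hLT g hg, h]
      change W.cy X 1 d ^ r * 0 = 0
      rw [mul_zero]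
    · have h1 : (G c a ⊓ W.gr X j).map T = G c a ⊓ W.gr X i := by
        refine le_antisymm ?_ fun y hy => ?_
        · rintro _ ⟨x, hx, rfl⟩
          refine ⟨?_, hTmem x⟩
          refine hG.correspondences c c T (Ro.IsMapOver.isAlgebraicMap W hTmap) (fun y hy => ?_) a x
            hx.1
          by_cases he : Even ((i : ℕ) + (c : ℕ))
          · exact gr_le_parityPart W he (hTmem y)
          · have h2 : ¬ Even ((j : ℕ) + (c : ℕ)) := by
              rw [Nat.even_iff] at he ⊢
              omega
            rw [hT', hπ.parity j hy h2, isAlgebraicMap_apply_zero W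
              (Ro.IsMapOver.isAlgebraicMap W hu), map_zero]
            exact Submodule.zero_mem _
        · refine ⟨W.lef X d r y, ⟨?_, ?_⟩, hTL y hy.2⟩
          · have hpow : W.cy X 1 d ^ r ∈ cycleSpan W.toCohomologyData F X :=
              pow_mem_cycleSpan W (cy_mem_cycleSpan W F X 1 d) r
            refine hG.correspondences c c _ (Ro.IsMapOver.isAlgebraicMap W (isMapOver_mul W hpow))
              (fun y hy => ?_) a y hy.1
            change y ∈ parityPart W.toCohomologyData X c at hy
            change W.cy X 1 d ^ r * y ∈ parityPart W.toCohomologyData X c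
            unfold Obs.parityPart at hy
            rw [iSup_subtype'] at hy
            induction hy using Submodule.iSup_induction' with
            | mem s y hy =>
              refine gr_le_parityPart W (j := s + 2 * r) ?_ (lef_gr W hy)
              have h1 : Even ((s : ℕ) + (c : ℕ)) := s.2
              rw [Nat.even_iff] at h1 ⊢
              omega
            | zero => rw [mul_zero]; exact Submodule.zero_mem _
            | add y y' _ _ hy hy' => rw [mul_add]; exact Submodule.add_mem _ hy hy'
          · have := lef_gr W (d := d) (r := r) hy.2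
            rwa [hj2] at this
      rw [h1]
      exact isStableIsotropic_of_flags W hπ d hG c a hir

/-- **The standard conjecture D for the powers of `X`, the Lefschetz standard conjecture and
isotropic determinants.** -/
theorem standardD_iff_isotropic {d : X.Z 1} (hd : HardLefschetz W.toCohomologyData X d) :
    (∀ b, W.StandardD (cart X b)) ↔ LefschetzStandard W.toCohomologyData F X d ∧
      ∀ (N : ℕ) (G : Fin N → Submodule K (W.H X)),
        (∀ y, IsStableIsotropic.{u, v, w, t} W.toCohomologyData X d (G y)) →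
          ¬ HasNumTrivialDeterminant W.toCohomologyData F G := by
  constructor
  · intro hD
    refine ⟨((lefschetz_tfae W (F := F) hd).out 0 4).mpr fun i m b z _ hzF hz hdet =>
      IsDeterminant.ne_zero W hdet (eq_zero_of_isNumTrivial W (hD b) hz), ?_⟩
    rintro N G - ⟨b, z, -, hz, hdet⟩
    exact IsDeterminant.ne_zero W hdet (eq_zero_of_isNumTrivial W (hD b) hz)
  · rintro ⟨hB, h⟩ b
    obtain ⟨π, hπ⟩ := exists_projs W (exists_proj_of_standard W hB)
    have hE : ∀ c : Fin 2, Ro.IsPieceOver W.toCohomologyData F X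
        (parityPart W.toCohomologyData X c) := fun c => hπ.isPieceOver W c
    have hs : Ro.IsSpanned W.toCohomologyData (P := 2) (fun _ => X)
        (fun c => parityPart W.toCohomologyData X c) (cart X b) :=
      Ro.isSpanned_prodVar W (fun c => (hE c).isPiece) (Ro.isSpanned_pt W) _
        fun _ => isSpanned_self W
    obtain ⟨n, hn⟩ := Ro.exists_spannedBy W hs
    refine Can.standardD_of_numTrivialOrthogonal W (X := pt k) ?_ hn
    refine (Ro.orthogonal_iff.{u, v, w, t} W (Ro.standardD_power_pt W) (fun _ : Fin 2 => X) _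
      hE).mpr (fun G hG hdet => ?_) n
    choose wj θj h1 h2 h3 h4 h5 using fun j => exists_slot_operators.{u, v, w, t} W hπ hd hB j
    obtain ⟨N, b', G', z, h6, h7, h8, h9⟩ :=
      exists_isDeterminant_of_flags_map W hπ h1 h2 h3 h4 hG hdet
    refine h N G' (fun y => ?_) ⟨b', z, h7, h8, h9⟩
    obtain ⟨c, a, j, hy⟩ := h6 y
    rw [hy]
    exact h5 j G hG c a

/-- the determinant of zero is not numerically trivial -/
lemma not_hasNumTrivialDeterminant_bot {N : ℕ} {G : Fin N → Submodule K (W.H X)}
    (hG : ∀ y, G y = ⊥) : ¬ HasNumTrivialDeterminant W.toCohomologyData F G := by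
  rintro ⟨b, z, -, hz, hdet⟩
  obtain ⟨r, f, e, a, ha, hf, hv⟩ := id hdet
  have hfin : Module.Finite K (W.H X) := (W.graded X).finite
  have hr : ∀ y, r y = 0 := by
    intro y
    have h1 := finrank_span_eq_card (hf y).1
    rw [(hf y).2, Fintype.card_fin, hG, finrank_bot] at h1
    exact h1.symm
  have hb : b = 0 := by
    have h1 := Fintype.card_congr e
    rw [Fintype.card_sigma, Fintype.card_fin] at h1
    rw [← h1]
    exact sum_eq_zero fun y _ => by rw [Fintype.card_fin, hr]
  subst hb
  exact IsDeterminant.ne_zero W hdet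
    (eq_zero_of_isNumTrivial W (Ro.standardD_power_pt W 0) hz)

/-- the case without isotropic subspaces -/
theorem standardD_iff_of_anisotropic {d : X.Z 1} (hd : HardLefschetz W.toCohomologyData X d)
    (h0 : ∀ G, IsStableIsotropic.{u, v, w, t} W.toCohomologyData X d G → G = ⊥) :
    (∀ b, W.StandardD (cart X b)) ↔ LefschetzStandard W.toCohomologyData F X d :=
  (standardD_iff_isotropic W (F := F) hd).trans
    ⟨fun h => h.1, fun h => ⟨h, fun _ _ hG =>
      not_hasNumTrivialDeterminant_bot W fun y => h0 _ (hG y)⟩⟩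

end Pool.Agent.Helper11.BD
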