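import Mathlib
import Pool.Agent.Helper11.BD.LefThm

/-!
# Products of determinants of several cohomology groups
-/

universe u v w

open CategoryTheory Finset

namespace Pool.Agent.Helper11.BD

open Pool.Agent.Helper10 hiding IsAlgAut parityPart
open SmProjVar Pool.Agent.Helper10.GIT
open Pool.Agent.Helper11.Obs (extProd wordClass prodVar prodFst prodProj IsNumTrivial)

section Linear

variable {K : Type v} [Field K]

/-- a variant of the Cauchy-Binet formula -/
lemma sum_det_mul_det {r N : ℕ} (M : Fin N → Fin N → K) (A : Fin N → Fin r → K) :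
    ∑ P : Fin r → Fin N, ∑ Q : Fin r → Fin N, (∏ s, M (P s) (Q s)) *
      ((Matrix.of fun s t => A (P s) t).det * (Matrix.of fun s t => A (Q s) t).det) =
      (r.factorial : K) * (Matrix.of fun t u => ∑ p, ∑ q, M p q * (A p t * A q u)).det := by
  classical
  set B : Matrix (Fin r) (Fin r) K :=
    Matrix.of fun t u => ∑ p, ∑ q, M p q * (A p t * A q u) with hB
  have h1 : ∀ P Q : Fin r → Fin N, (∏ s, M (P s) (Q s)) *
      ((Matrix.of fun s t => A (P s) t).det * (Matrix.of fun s t => A (Q s) t).det) =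
      ∑ σ : Equiv.Perm (Fin r), ∑ τ : Equiv.Perm (Fin r),
        (((Equiv.Perm.sign σ : ℤ) : K) * ((Equiv.Perm.sign τ : ℤ) : K)) *
          ∏ s, M (P s) (Q s) * (A (P s) (σ s) * A (Q s) (τ s)) := by
    intro P Q
    rw [← Matrix.det_transpose, ← Matrix.det_transpose (Matrix.of fun s t => A (Q s) t),
      Matrix.det_apply', Matrix.det_apply', sum_mul_sum, mul_sum]
    refine sum_congr rfl fun σ _ => ?_
    rw [mul_sum]
    refine sum_congr rfl fun τ _ => ?_
    simp only [Matrix.transpose_apply, Matrix.of_apply, prod_mul_distrib]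
    ring
  simp only [h1]
  have h2 : ∑ P : Fin r → Fin N, ∑ Q : Fin r → Fin N, ∑ σ : Equiv.Perm (Fin r),
      ∑ τ : Equiv.Perm (Fin r), (((Equiv.Perm.sign σ : ℤ) : K) * ((Equiv.Perm.sign τ : ℤ) : K)) *
          ∏ s, M (P s) (Q s) * (A (P s) (σ s) * A (Q s) (τ s)) =
      ∑ σ : Equiv.Perm (Fin r), ∑ τ : Equiv.Perm (Fin r),
        (((Equiv.Perm.sign σ : ℤ) : K) * ((Equiv.Perm.sign τ : ℤ) : K)) *
        ∑ P : Fin r → Fin N, ∑ Q : Fin r → Fin N,
          ∏ s, M (P s) (Q s) * (A (P s) (σ s) * A (Q s) (τ s)) := by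
    simp only [mul_sum]
    rw [sum_congr rfl fun P _ => sum_comm, sum_comm]
    refine sum_congr rfl fun σ _ => ?_
    rw [sum_congr rfl fun P _ => sum_comm, sum_comm]
  rw [h2]
  have h3 : ∀ σ τ : Equiv.Perm (Fin r), ∑ P : Fin r → Fin N, ∑ Q : Fin r → Fin N,
      ∏ s, M (P s) (Q s) * (A (P s) (σ s) * A (Q s) (τ s)) = ∏ s, B (σ s) (τ s) := by
    intro σ τ
    have h4 : ∀ s, B (σ s) (τ s) = ∑ a : Fin N × Fin N,
        M a.1 a.2 * (A a.1 (σ s) * A a.2 (τ s)) := by
      intro s
      rw [hB, Matrix.of_apply, Fintype.sum_prod_type]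
    rw [prod_congr rfl fun s _ => h4 s, prod_univ_sum, Fintype.piFinset_univ,
      ← Equiv.sum_comp (Equiv.arrowProdEquivProdArrow (Fin r) (fun _ => Fin N)
        (fun _ => Fin N)).symm, Fintype.sum_prod_type]
    rfl
  simp only [h3]
  have h5 : ∀ σ : Equiv.Perm (Fin r), ∑ τ : Equiv.Perm (Fin r),
      (((Equiv.Perm.sign σ : ℤ) : K) * ((Equiv.Perm.sign τ : ℤ) : K)) * ∏ s, B (σ s) (τ s) =
        B.det := by
    intro σ
    simp only [mul_assoc]
    rw [← mul_sum]
    have h6 : ∑ τ : Equiv.Perm (Fin r), ((Equiv.Perm.sign τ : ℤ) : K) * ∏ s, B (σ s) (τ s) =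
        (B.submatrix σ id).det := by
      rw [← Matrix.det_transpose, Matrix.det_apply']
      rfl
    rw [h6, Matrix.det_permute, ← mul_assoc]
    have h7 : ((Equiv.Perm.sign σ : ℤ) : K) * ((Equiv.Perm.sign σ : ℤ) : K) = 1 := by
      rcases Int.units_eq_one_or (Equiv.Perm.sign σ) with h | h <;> rw [h] <;> simp
    rw [h7, one_mul]
  rw [sum_congr rfl fun σ _ => h5 σ, sum_const, card_univ, Fintype.card_perm, Fintype.card_fin,
    nsmul_eq_mul]

end Linear

variable {k : Type u} [Field k] {K : Type v} [Field K] [CharZero K]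
  (W : WeilCohomology.{u, v, w} k K) {F : Subfield K} {X : SmProjVar k}

/-- the slots of `X ^ b₀ × X ^ b₀` -/
noncomputable def slt (X : SmProjVar k) {m b₀ : ℕ} {r : Fin m → ℕ}
    (e : (Σ y, Fin (r y)) ≃ Fin b₀) (t : Bool) (y : Fin m) (s : Fin (r y)) :
    ((cart X b₀).prod (cart X b₀)).toOver ⟶ X.toOver :=
  (if t then snd (cart X b₀) (cart X b₀) else fst (cart X b₀) (cart X b₀)) ≫
    prodProj (pt k) (fun _ : Fin b₀ => X) (e ⟨y, s⟩)

lemma par_comm' {p q : Bool} {T : SmProjVar k} {x y : W.H T} (hx : x ∈ par W p T)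
    (hy : y ∈ par W q T) : x * y = (if (p && q) then (-1 : ℤ) else 1) • (y * x) := by
  cases p with
  | false => rw [W.evK_comm T x y hx]; simp
  | true =>
    cases q with
    | false => rw [W.evK_comm T y x hy]; simp
    | true => rw [W.odK_anti T x y hx hy]; simp

lemma slt_perm {m b₀ : ℕ} {r : Fin m → ℕ} (e : (Σ y, Fin (r y)) ≃ Fin b₀) :
    ((List.ofFn fun y : Fin m => (List.ofFn fun s : Fin (r y) =>
      [(false, e ⟨y, s⟩), (true, e ⟨y, s⟩)]).flatten).flatten : List (Bool × Fin b₀)).Perm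
      ((List.ofFn fun q : Fin b₀ => (false, q)) ++ List.ofFn fun q : Fin b₀ => (true, q)) := by
  classical
  rw [List.perm_iff_count]
  intro a
  rw [count_ofFn_flatten, List.count_append, count_ofFn, count_ofFn]
  have h1 : ∀ y : Fin m, List.count a (List.ofFn fun s : Fin (r y) =>
      [(false, e ⟨y, s⟩), (true, e ⟨y, s⟩)]).flatten =
      (∑ s, if ((false, e ⟨y, s⟩) : Bool × Fin b₀) = a then 1 else 0) +
        ∑ s, if ((true, e ⟨y, s⟩) : Bool × Fin b₀) = a then 1 else 0 := by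
    intro y
    rw [count_ofFn_flatten, ← sum_add_distrib]
    refine sum_congr rfl fun s _ => ?_
    rw [List.count_cons, List.count_cons, List.count_nil]
    simp only [beq_iff_eq]
    omega
  rw [sum_congr rfl fun y _ => h1 y, sum_add_distrib]
  congr 1
  · rw [← Equiv.sum_comp e (fun q : Fin b₀ => if ((false, q) : Bool × Fin b₀) = a then 1 else 0),
      Fintype.sum_sigma]
  · rw [← Equiv.sum_comp e (fun q : Fin b₀ => if ((true, q) : Bool × Fin b₀) = a then 1 else 0),
      Fintype.sum_sigma]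

/-- the interleaved word -/
noncomputable def iwd {m b₀ : ℕ} {r : Fin m → ℕ} (e : (Σ y, Fin (r y)) ≃ Fin b₀) (y : Fin m)
    (x x' : Fin (r y) → W.H X) : W.H ((cart X b₀).prod (cart X b₀)) :=
  (List.ofFn fun s => W.pull (slt X e false y s) (x s) * W.pull (slt X e true y s) (x' s)).prod

lemma exists_slt_sign {m b₀ : ℕ} {r : Fin m → ℕ} (e : (Σ y, Fin (r y)) ≃ Fin b₀)
    (α β : Fin b₀ → Bool) :
    ∃ c : ℤ, (c = 1 ∨ c = -1) ∧ ∀ x x' : ∀ y, Fin (r y) → W.H X,
      (∀ y s, x y s ∈ par W (α (e ⟨y, s⟩)) X) → (∀ y s, x' y s ∈ par W (β (e ⟨y, s⟩)) X) →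
      (List.ofFn fun y => iwd W e y (x y) (x' y)).prod =
        c • (W.pull (fst (cart X b₀) (cart X b₀)) (extProd W.toCohomologyData (A := pt k) 1
            fun q => x (e.symm q).1 (e.symm q).2) *
          W.pull (snd (cart X b₀) (cart X b₀)) (extProd W.toCohomologyData (A := pt k) 1
            fun q => x' (e.symm q).1 (e.symm q).2)) := by
  let ε : Bool × Fin b₀ → Bool := fun a => if a.1 then β a.2 else α a.2
  obtain ⟨c, hc, h⟩ := exists_sign_perm (W.H ((cart X b₀).prod (cart X b₀)))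
    (fun a a' : Bool × Fin b₀ => if (ε a && ε a') then (-1 : ℤ) else 1)
    (fun a a' => by cases ε a <;> cases ε a' <;> simp) (slt_perm e)
  refine ⟨c, hc, fun x x' hx hx' => ?_⟩
  let L : Bool × Fin b₀ → W.H ((cart X b₀).prod (cart X b₀)) := fun a =>
    if a.1 then W.pull (snd (cart X b₀) (cart X b₀) ≫ prodProj (pt k) (fun _ : Fin b₀ => X) a.2)
        (x' (e.symm a.2).1 (e.symm a.2).2)
      else W.pull (fst (cart X b₀) (cart X b₀) ≫ prodProj (pt k) (fun _ : Fin b₀ => X) a.2)
        (x (e.symm a.2).1 (e.symm a.2).2)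
  have hL : ∀ a, L a ∈ par W (ε a) _ := by
    rintro ⟨a, q⟩
    obtain ⟨⟨y, s⟩, rfl⟩ := e.surjective q
    have h1 : e.symm (e ⟨y, s⟩) = ⟨y, s⟩ := Equiv.symm_apply_apply _ _
    cases a
    · change W.pull _ (x (e.symm (e ⟨y, s⟩)).1 (e.symm (e ⟨y, s⟩)).2) ∈ par W (α (e ⟨y, s⟩)) _
      rw [h1]
      exact pull_par W _ (hx _ _)
    · change W.pull _ (x' (e.symm (e ⟨y, s⟩)).1 (e.symm (e ⟨y, s⟩)).2) ∈ par W (β (e ⟨y, s⟩)) _
      rw [h1]
      exact pull_par W _ (hx' _ _)
  have h1 := h L fun i j => par_comm' W (hL i) (hL j)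
  rw [List.map_append, List.prod_append, List.map_ofFn, List.map_ofFn, List.map_flatten,
    List.prod_flatten, List.map_ofFn, List.map_ofFn] at h1
  refine Eq.trans ?_ (h1.trans ?_)
  · congr 1
    congr 1
    funext y
    simp only [Function.comp_apply, List.map_flatten, List.prod_flatten, List.map_ofFn]
    unfold iwd
    congr 1
    congr 1
    funext s
    simp only [Function.comp_apply, List.map_cons, List.map_nil, List.prod_cons, List.prod_nil,
      mul_one]
    change W.pull (fst (cart X b₀) (cart X b₀) ≫ prodProj (pt k) (fun _ : Fin b₀ => X) (e ⟨y, s⟩))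
        (x y s) * W.pull (snd (cart X b₀) (cart X b₀) ≫
          prodProj (pt k) (fun _ : Fin b₀ => X) (e ⟨y, s⟩)) (x' y s) =
      W.pull _ (x (e.symm (e ⟨y, s⟩)).1 (e.symm (e ⟨y, s⟩)).2) *
        W.pull _ (x' (e.symm (e ⟨y, s⟩)).1 (e.symm (e ⟨y, s⟩)).2)
    rw [Equiv.symm_apply_apply]
  · congr 1
    rw [extProd_one_eq, extProd_one_eq]
    congr 1
    · have h2 := map_list_prod (W.pullA (fst (cart X b₀) (cart X b₀)))
        (List.ofFn fun q => W.pull (prodProj (pt k) (fun _ : Fin b₀ => X) q)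
          (x (e.symm q).1 (e.symm q).2))
      rw [List.map_ofFn] at h2
      refine Eq.trans ?_ h2.symm
      congr 1
      congr 1
      funext q
      exact W.pull_comp _ _ _
    · have h2 := map_list_prod (W.pullA (snd (cart X b₀) (cart X b₀)))
        (List.ofFn fun q => W.pull (prodProj (pt k) (fun _ : Fin b₀ => X) q)
          (x' (e.symm q).1 (e.symm q).2))
      rw [List.map_ofFn] at h2
      refine Eq.trans ?_ h2.symm
      congr 1
      congr 1
      funext q
      exact W.pull_comp _ _ _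

/-- the class `Ψ` is a combination of words in the slots `y`, and `v` is the sum of the products of
the determinants -/
def HasValue {m b₀ : ℕ} {r : Fin m → ℕ} (e : (Σ y, Fin (r y)) ≃ Fin b₀)
    (f : ∀ y, Fin (r y) → W.H X) (y : Fin m) (Ψ : W.H ((cart X b₀).prod (cart X b₀)))
    (v : K) : Prop :=
  ∃ (A : Type) (_ : Fintype A) (coef : A → K) (x x' : A → Fin (r y) → W.H X)
    (δ δ' : A → Fin (r y) → ℕ), (∀ a s, x a s ∈ W.gr X (δ a s)) ∧
    (∀ a s, x' a s ∈ W.gr X (δ' a s)) ∧ Ψ = ∑ a, coef a • iwd W e y (x a) (x' a) ∧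
    v = ∑ a, coef a * ((Matrix.of fun s t => W.pairing X (x a s) (f y t)).det *
      (Matrix.of fun s t => W.pairing X (x' a s) (f y t)).det)

/-- **The trace formula.** -/
theorem exists_trace_formula {m b₀ : ℕ} {r : Fin m → ℕ} (e : (Σ y, Fin (r y)) ≃ Fin b₀)
    {f : ∀ y, Fin (r y) → W.H X} {c : Fin m → ℕ} (hf : ∀ y t, f y t ∈ W.gr X (c y))
    {z : W.H (cart X b₀)} (hze : z ∈ W.evK (cart X b₀)) {a : K} (ha : a ≠ 0)
    (hz : ∀ v : (Σ y, Fin (r y)) → W.H X,
      W.pairing (cart X b₀) z (extProd W.toCohomologyData (A := pt k) 1 fun q => v (e.symm q)) =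
        a * ∏ y, Matrix.det (Matrix.of fun s t => W.pairing X (v ⟨y, s⟩) (f y t))) :
    ∃ c₀ : K, c₀ ≠ 0 ∧ ∀ (Ψ : Fin m → W.H ((cart X b₀).prod (cart X b₀))) (v : Fin m → K),
      (∀ y, HasValue W e f y (Ψ y) (v y)) →
      W.trL ((cart X b₀).prod (cart X b₀)) ((List.ofFn Ψ).prod *
        (W.pullA (fst (cart X b₀) (cart X b₀)) z * W.pullA (snd (cart X b₀) (cart X b₀)) z)) =
        c₀ * ∏ y, v y := by
  choose s hs hword using fun α β : Fin b₀ → Bool => exists_slt_sign W (X := X) e α β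
  let α₀ : Fin b₀ → Bool := fun q => decide (Odd (c (e.symm q).1))
  refine ⟨(s α₀ α₀ : K) * (a * a), mul_ne_zero ?_ (mul_ne_zero ha ha), fun Ψ v h => ?_⟩
  · rcases hs α₀ α₀ with h | h <;> rw [h] <;> simp
  choose A hA coef x x' δ δ' hx hx' hΨ hv using h
  have htr : ∀ (x y : W.H (cart X b₀)), W.trL ((cart X b₀).prod (cart X b₀))
      (W.pullA (fst (cart X b₀) (cart X b₀)) x * W.pullA (snd (cart X b₀) (cart X b₀)) y) =
        W.trL _ x * W.trL _ y := fun x y => W.tr_prod _ _ x y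
  have hcomm : ∀ A B : W.H (cart X b₀),
      W.trL ((cart X b₀).prod (cart X b₀))
        ((W.pull (fst (cart X b₀) (cart X b₀)) A * W.pull (snd (cart X b₀) (cart X b₀)) B) *
        (W.pullA (fst (cart X b₀) (cart X b₀)) z * W.pullA (snd (cart X b₀) (cart X b₀)) z)) =
      W.trL _ (z * A) * W.trL _ (z * B) := by
    intro A B
    have h1 : W.pull (snd (cart X b₀) (cart X b₀)) B * W.pullA (fst (cart X b₀) (cart X b₀)) z =
        W.pullA (fst (cart X b₀) (cart X b₀)) z * W.pull (snd (cart X b₀) (cart X b₀)) B :=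
      (W.evK_comm _ _ _ (W.pull_evK _ _ hze)).symm
    rw [W.evK_comm _ z A hze, W.evK_comm _ z B hze, ← htr,
      map_mul (W.pullA (fst (cart X b₀) (cart X b₀))) A z,
      map_mul (W.pullA (snd (cart X b₀) (cart X b₀))) B z, mul_assoc,
      ← mul_assoc (W.pull (snd (cart X b₀) (cart X b₀)) B), h1]
    simp only [mul_assoc]
    rfl
  have hval : ∀ x : ∀ y, Fin (r y) → W.H X,
      W.trL (cart X b₀) (z * (extProd W.toCohomologyData (A := pt k) 1
        (fun q => x (e.symm q).1 (e.symm q).2) : W.H (cart X b₀))) =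
      a * ∏ y, Matrix.det (Matrix.of fun s t => W.pairing X (x y s) (f y t)) := fun x =>
    hz fun q => x q.1 q.2
  have hexp : Ψ = fun y => ∑ i : A y, coef y i • iwd W e y (x y i) (x' y i) := funext hΨ
  rw [hexp, ofFn_prod_sum (Ω := K) (α := A) coef (fun y i => iwd W e y (x y i) (x' y i)), sum_mul,
    map_sum]
  have hdeg : ∀ (x : ∀ y, Fin (r y) → W.H X) (δ : ∀ y, Fin (r y) → ℕ),
      (∀ y s, x y s ∈ W.gr X (δ y s)) →
      ∏ y, Matrix.det (Matrix.of fun s t => W.pairing X (x y s) (f y t)) ≠ 0 →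
      ∀ q, decide (Odd (δ (e.symm q).1 (e.symm q).2)) = α₀ q := by
    intro x δ hx hne q
    have h1 : δ (e.symm q).1 (e.symm q).2 + c (e.symm q).1 = 2 * X.dim := by
      by_contra hcon
      apply hne
      refine prod_eq_zero (mem_univ (e.symm q).1) ?_
      exact Matrix.det_eq_zero_of_row_eq_zero (e.symm q).2 fun t =>
        trL_gr W (hx _ _) (hf _ t) hcon
    change _ = decide (Odd (c (e.symm q).1))
    congr 1
    rw [eq_iff_iff]
    constructor <;> intro h2 <;> rw [Nat.odd_iff] at h2 ⊢ <;> omega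
  have hterm : ∀ R : ∀ y, A y, W.trL ((cart X b₀).prod (cart X b₀))
      ((∏ y, coef y (R y)) • (List.ofFn fun y => iwd W e y (x y (R y)) (x' y (R y))).prod *
        (W.pullA (fst (cart X b₀) (cart X b₀)) z * W.pullA (snd (cart X b₀) (cart X b₀)) z)) =
      (s α₀ α₀ : K) * (a * a) * ∏ y, coef y (R y) *
        ((Matrix.of fun s t => W.pairing X (x y (R y) s) (f y t)).det *
          (Matrix.of fun s t => W.pairing X (x' y (R y) s) (f y t)).det) := by
    intro R
    set D := ∏ y, Matrix.det (Matrix.of fun s t => W.pairing X (x y (R y) s) (f y t)) with hD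
    set D' := ∏ y, Matrix.det (Matrix.of fun s t => W.pairing X (x' y (R y) s) (f y t)) with hD'
    have h1 := hword (fun q => decide (Odd (δ (e.symm q).1 (R _) (e.symm q).2)))
      (fun q => decide (Odd (δ' (e.symm q).1 (R _) (e.symm q).2))) (fun y => x y (R y))
      (fun y => x' y (R y)) (fun y s => by
        rw [Equiv.symm_apply_apply]
        exact gr_le_par W X _ (hx y (R y) s)) (fun y s => by
        rw [Equiv.symm_apply_apply]
        exact gr_le_par W X _ (hx' y (R y) s))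
    rw [smul_mul_assoc, map_smul, h1, smul_mul_assoc, ← Int.cast_smul_eq_zsmul K, map_smul, hcomm,
      hval fun y => x y (R y), hval fun y => x' y (R y), ← hD, ← hD', prod_mul_distrib,
      prod_mul_distrib, ← hD, ← hD', smul_eq_mul, smul_eq_mul]
    by_cases h2 : D = 0
    · rw [h2]; ring
    by_cases h3 : D' = 0
    · rw [h3]; ring
    have h4 : (fun q => decide (Odd (δ (e.symm q).1 (R _) (e.symm q).2))) = α₀ :=
      funext (hdeg (fun y => x y (R y)) (fun y => δ y (R y)) (fun y => hx y (R y)) h2)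
    have h5 : (fun q => decide (Odd (δ' (e.symm q).1 (R _) (e.symm q).2))) = α₀ :=
      funext (hdeg (fun y => x' y (R y)) (fun y => δ' y (R y)) (fun y => hx' y (R y)) h3)
    rw [h4, h5]
    ring
  rw [sum_congr rfl fun R _ => hterm R, ← mul_sum]
  congr 1
  rw [prod_congr rfl fun y _ => hv y, prod_univ_sum, Fintype.piFinset_univ]

end Pool.Agent.Helper11.BD
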