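import Mathlib
import Pool.Agent.Helper11.BD.Multi
import Pool.Agent.Helper11.BD.Tfae

/-!
# Products of determinants of several cohomology groups: nondegenerate classes
-/

universe u v w

open CategoryTheory Finset

namespace Pool.Agent.Helper11.BD

open Pool.Agent.Helper10 hiding IsAlgAut parityPart
open SmProjVar Pool.Agent.Helper10.GIT
open Pool.Agent.Helper11.Obs (extProd wordClass prodVar prodFst prodProj IsNumTrivial)

variable {k : Type u} [Field k] {K : Type v} [Field K] [CharZero K]
  (W : WeilCohomology.{u, v, w} k K) {F : Subfield K} {X : SmProjVar k}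

/-- homogeneous spanning families -/
lemma exists_homogeneous_span (X : SmProjVar k) :
    ∃ (N : ℕ) (e : Fin N → W.H X) (δ : Fin N → ℕ), (∀ p, e p ∈ W.gr X (δ p)) ∧
      Submodule.span K (Set.range e) = ⊤ := by
  have hfin : Module.Finite K (W.H X) := (W.graded X).finite
  let ι := Σ i : Fin (2 * X.dim + 1), Fin (Module.finrank K (W.gr X i))
  let h : ι → W.H X := fun a => (Module.finBasis K (W.gr X a.1) a.2 : W.H X)
  let ε : Fin (Fintype.card ι) ≃ ι := (Fintype.equivFin ι).symm
  refine ⟨Fintype.card ι, fun p => h (ε p), fun p => (ε p).1, fun p => Subtype.prop _, ?_⟩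
  rw [eq_top_iff]
  rintro x -
  refine W.gr_induction X (p := fun x => x ∈ Submodule.span K (Set.range fun p => h (ε p)))
    (fun i x hx => ?_) (Submodule.zero_mem _) (fun a b ha hb => Submodule.add_mem _ ha hb) x
  by_cases hi : i < 2 * X.dim + 1
  · have h1 : (⟨x, hx⟩ : W.gr X i) ∈
        Submodule.span K (Set.range (Module.finBasis K (W.gr X i))) := by
      rw [(Module.finBasis K (W.gr X i)).span_eq]
      trivial
    obtain ⟨c, hc⟩ := (Submodule.mem_span_range_iff_exists_fun K).mp h1
    have h2 : x = ∑ s, c s • ((Module.finBasis K (W.gr X i) s : W.gr X i) : W.H X) := by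
      have h3 := congrArg Subtype.val hc
      rw [Submodule.coe_sum] at h3
      exact h3.symm
    rw [h2]
    refine Submodule.sum_mem _ fun s _ => Submodule.smul_mem _ _ (Submodule.subset_span ?_)
    refine ⟨ε.symm ⟨⟨i, hi⟩, s⟩, ?_⟩
    change h (ε (ε.symm ⟨⟨i, hi⟩, s⟩)) = _
    rw [Equiv.apply_symm_apply]
  · have hbot := (W.graded X).eq_bot i (by omega)
    rw [hbot, Submodule.mem_bot] at hx
    rw [hx]
    exact Submodule.zero_mem _

/-- every class on `X × X` is a combination of products of homogeneous classes -/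
lemma exists_expansion (κ : W.H (X.prod X)) :
    ∃ (N : ℕ) (e : Fin N → W.H X) (δ : Fin N → ℕ) (M : Fin N → Fin N → K),
      (∀ p, e p ∈ W.gr X (δ p)) ∧
      κ = ∑ p, ∑ q, M p q • (W.pull (fst X X) (e p) * W.pull (snd X X) (e q)) := by
  obtain ⟨N, e, δ, he, hspan⟩ := exists_homogeneous_span W X
  have key : κ ∈ Submodule.span K (Set.range fun a : Fin N × Fin N =>
      W.pull (fst X X) (e a.1) * W.pull (snd X X) (e a.2)) := by
    let m : TensorProduct K (W.H X) (W.H X) →ₗ[K] W.H (X.prod X) :=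
      LinearMap.mul' K _ ∘ₗ
        TensorProduct.map (W.pullA (fst X X)).toLinearMap (W.pullA (snd X X)).toLinearMap
    have hm : ∀ a b, m (TensorProduct.tmul K a b) =
        W.pull (fst X X) a * W.pull (snd X X) b := fun a b => rfl
    obtain ⟨s, rfl⟩ := (W.kunneth X X m hm).2 κ
    induction s using TensorProduct.induction_on with
    | zero => rw [map_zero]; exact Submodule.zero_mem _
    | tmul a b =>
      have ha : a ∈ Submodule.span K (Set.range e) := by rw [hspan]; trivial
      have hb : b ∈ Submodule.span K (Set.range e) := by rw [hspan]; trivial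
      obtain ⟨x, rfl⟩ := (Submodule.mem_span_range_iff_exists_fun K).mp ha
      obtain ⟨y, rfl⟩ := (Submodule.mem_span_range_iff_exists_fun K).mp hb
      rw [TensorProduct.sum_tmul, map_sum]
      refine Submodule.sum_mem _ fun p _ => ?_
      rw [TensorProduct.tmul_sum, map_sum]
      refine Submodule.sum_mem _ fun q _ => ?_
      rw [TensorProduct.smul_tmul_smul, map_smul, hm]
      exact Submodule.smul_mem _ _ (Submodule.subset_span ⟨(p, q), rfl⟩)
    | add x y hx hy => rw [map_add]; exact Submodule.add_mem _ hx hy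
  obtain ⟨c, hc⟩ := (Submodule.mem_span_range_iff_exists_fun K).mp key
  refine ⟨N, e, δ, fun p q => c (p, q), he, ?_⟩
  rw [← hc, Fintype.sum_prod_type]

/-- the values of the products of the pull-backs of a class on `X × X` -/
lemma hasValue_expansion {m b₀ : ℕ} {r : Fin m → ℕ} (e : (Σ y, Fin (r y)) ≃ Fin b₀)
    (f : ∀ y, Fin (r y) → W.H X) (y : Fin m) {N : ℕ} {x : Fin N → W.H X} {δ : Fin N → ℕ}
    (hx : ∀ p, x p ∈ W.gr X (δ p)) (M : Fin N → Fin N → K) {κ : W.H (X.prod X)}
    (hκ : κ = ∑ p, ∑ q, M p q • (W.pull (fst X X) (x p) * W.pull (snd X X) (x q))) :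
    HasValue W e f y
      (List.ofFn fun s => W.pull (lift (slt X e false y s) (slt X e true y s)) κ).prod
      (((r y).factorial : K) * (Matrix.of fun t u => ∑ p, ∑ q, M p q *
        (W.pairing X (x p) (f y t) * W.pairing X (x q) (f y u))).det) := by
  refine ⟨(Fin (r y) → Fin N) × (Fin (r y) → Fin N), inferInstance,
    fun a => ∏ s, M (a.1 s) (a.2 s), fun a s => x (a.1 s), fun a s => x (a.2 s),
    fun a s => δ (a.1 s), fun a s => δ (a.2 s), fun a s => hx _, fun a s => hx _, ?_, ?_⟩
  · rw [prod_expand W x M hκ (slt X e false y) (slt X e true y), Fintype.sum_prod_type]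
    rfl
  · rw [Fintype.sum_prod_type,
      ← sum_det_mul_det M (fun p t => W.pairing X (x p) (f y t))]

/-- the matrix of a class on `X × X` -/
lemma sum_expansion {c : ℕ} {N : ℕ} {x : Fin N → W.H X} {δ : Fin N → ℕ}
    (hx : ∀ p, x p ∈ W.gr X (δ p)) (M : Fin N → Fin N → K) {κ : W.H (X.prod X)}
    (hκ : κ = ∑ p, ∑ q, M p q • (W.pull (fst X X) (x p) * W.pull (snd X X) (x q)))
    {f f' : W.H X} (hf : f ∈ W.gr X c) (hf' : f' ∈ W.gr X c) :
    ∑ p, ∑ q, M p q * (W.pairing X (x p) f * W.pairing X (x q) f') =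
      (if decide (Odd c) then (-1 : K) else 1) *
        W.trL (X.prod X) (κ * (W.pull (fst X X) f * W.pull (snd X X) f')) := by
  have htr : ∀ (x y : W.H X), W.trL (X.prod X)
      (W.pullA (fst X X) x * W.pullA (snd X X) y) = W.trL _ x * W.trL _ y :=
    fun x y => W.tr_prod _ _ x y
  rw [hκ, sum_mul, map_sum, mul_sum]
  refine sum_congr rfl fun p _ => ?_
  rw [sum_mul, map_sum, mul_sum]
  refine sum_congr rfl fun q _ => ?_
  rw [smul_mul_assoc, map_smul, smul_eq_mul]
  have h1 : W.trL (X.prod X) (W.pull (fst X X) (x p) * W.pull (snd X X) (x q) *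
      (W.pull (fst X X) f * W.pull (snd X X) f')) =
      (if (decide (Odd (δ q)) && decide (Odd c)) then (-1 : K) else 1) *
        (W.trL X (x p * f) * W.trL X (x q * f')) := by
    have h2 : W.pull (snd X X) (x q) * W.pull (fst X X) f =
        (if (decide (Odd (δ q)) && decide (Odd c)) then (-1 : ℤ) else 1) •
          (W.pull (fst X X) f * W.pull (snd X X) (x q)) :=
      par_comm' W (pull_par W _ (gr_le_par W X _ (hx q))) (pull_par W _ (gr_le_par W X _ hf))
    have h3 : W.pull (fst X X) (x p) * W.pull (snd X X) (x q) *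
        (W.pull (fst X X) f * W.pull (snd X X) f') =
        (if (decide (Odd (δ q)) && decide (Odd c)) then (-1 : ℤ) else 1) •
          (W.pullA (fst X X) (x p * f) * W.pullA (snd X X) (x q * f')) := by
      rw [map_mul, map_mul, mul_assoc, ← mul_assoc (W.pull (snd X X) (x q)), h2, smul_mul_assoc,
        mul_smul_comm]
      simp only [mul_assoc]
      rfl
    rw [h3, ← Int.cast_smul_eq_zsmul K, map_smul, htr, smul_eq_mul]
    congr 1
    split_ifs <;> simp
  rw [h1]
  change M p q * (W.trL X (x p * f) * W.trL X (x q * f')) = _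
  by_cases h2 : δ q + c = 2 * X.dim
  · have h3 : decide (Odd (δ q)) = decide (Odd c) := by
      congr 1
      rw [eq_iff_iff]
      constructor <;> intro h2 <;> rw [Nat.odd_iff] at h2 ⊢ <;> omega
    rw [h3, Bool.and_self]
    split_ifs <;> ring
  · rw [trL_gr W (hx q) hf' h2]
    ring

/-- a class given by a power of the divisor -/
lemma exists_value_of_hardLefschetz {d : X.Z 1} (hd : HardLefschetz W.toCohomologyData X d)
    {m b₀ : ℕ} {r : Fin m → ℕ} (e : (Σ y, Fin (r y)) ≃ Fin b₀) {f : ∀ y, Fin (r y) → W.H X}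
    {c : Fin m → ℕ} (hf : ∀ y, LinearIndependent K (f y) ∧
      Submodule.span K (Set.range (f y)) = W.gr X (c y)) (y : Fin m) (hy : c y ≤ X.dim) :
    ∃ Ψ ∈ W.algClasses ((cart X b₀).prod (cart X b₀)), ∃ v : K, v ≠ 0 ∧
      HasValue W e f y Ψ v := by
  have hfc : ∀ t, f y t ∈ W.gr X (c y) := fun t => by
    rw [← (hf y).2]
    exact Submodule.subset_span ⟨t, rfl⟩
  have hpow : W.cy X 1 d ^ (X.dim - c y) ∈ cycleSpan W.toCohomologyData (⊤ : Subfield K) X :=
    pow_mem_cycleSpan W (cy_mem_cycleSpan W ⊤ X 1 d) _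
  obtain ⟨κ, hκ, hκ2⟩ := IsMapOver.trL_eq W (isMapOver_mul W hpow)
  obtain ⟨N, x, δ, M, hx, hM⟩ := exists_expansion W κ
  have hlist : ∀ l : List (W.H ((cart X b₀).prod (cart X b₀))),
      (∀ x ∈ l, x ∈ cycleSpan W.toCohomologyData (⊤ : Subfield K) _) →
        l.prod ∈ cycleSpan W.toCohomologyData (⊤ : Subfield K) _ := fun l hl =>
    list_prod_mem W l hl
  refine ⟨_, cycleSpan_le (F := ⊤) W _ (hlist _ fun z hz => ?_), _, ?_,
    hasValue_expansion W e f y hx M hM⟩
  · rw [List.mem_ofFn] at hz
    obtain ⟨s, rfl⟩ := hz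
    exact pull_mem_cycleSpan W _ hκ
  · refine mul_ne_zero (Nat.cast_ne_zero.mpr (Nat.factorial_ne_zero _)) ?_
    have h1 : (Matrix.of fun t u => ∑ p, ∑ q, M p q *
        (W.pairing X (x p) (f y t) * W.pairing X (x q) (f y u))) =
        (if decide (Odd (c y)) then (-1 : K) else 1) • (Matrix.of fun t u =>
          W.pairing X (W.cy X 1 d ^ (X.dim - c y) * f y t) (f y u)) := by
      ext t u
      rw [Matrix.of_apply, Matrix.smul_apply, Matrix.of_apply, sum_expansion W hx M hM (hfc t)
        (hfc u), smul_eq_mul]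
      congr 1
      exact (hκ2 _ _).symm
    rw [h1, Matrix.det_smul]
    refine mul_ne_zero (pow_ne_zero _ (by split_ifs <;> simp)) ?_
    have hdeg : ∀ t, W.cy X 1 d ^ (X.dim - c y) * f y t ∈
        W.gr X (c y + 2 * (X.dim - c y)) := by
      intro t
      have h1 : W.cy X 1 d ^ (X.dim - c y) ∈ W.gr X ((X.dim - c y) * (2 * 1)) :=
        pow_gr W (W.cycleClasses.cy_mem X 1 d) _
      have h2 := mul_gr W h1 (hfc t)
      have h3 : (X.dim - c y) * (2 * 1) + c y = c y + 2 * (X.dim - c y) := by ring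
      rwa [h3] at h2
    refine det_pairing_ne_zero W (i := c y) (j := c y + 2 * (X.dim - c y)) (by omega) hdeg ?_
      (hf y).2
    rw [Fintype.linearIndependent_iff]
    intro a ha
    have h2 : W.cy X 1 d ^ (X.dim - c y) * ∑ t, a t • f y t = 0 := by
      rw [mul_sum, ← ha]
      exact sum_congr rfl fun t _ => by rw [mul_smul_comm]
    have h3 : ∑ t, a t • f y t = 0 :=
      (hd (c y) (X.dim - c y) (by omega)).1 _
        (Submodule.sum_mem _ fun t _ => Submodule.smul_mem _ _ (hfc t)) h2
    exact Fintype.linearIndependent_iff.mp (hf y).1 a h3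

/-- a nondegenerate class in complementary degree -/
lemma exists_value_of_hasForm {m b₀ : ℕ} {r : Fin m → ℕ} (e : (Σ y, Fin (r y)) ≃ Fin b₀)
    {f : ∀ y, Fin (r y) → W.H X} {c : Fin m → ℕ} (hf : ∀ y, LinearIndependent K (f y) ∧
      Submodule.span K (Set.range (f y)) = W.gr X (c y)) (y : Fin m) {j : ℕ}
    (hj : c y + j = 2 * X.dim) (hform : HasForm W F X j) :
    ∃ Ψ ∈ W.algClasses ((cart X b₀).prod (cart X b₀)), ∃ v : K, v ≠ 0 ∧
      HasValue W e f y Ψ v := by
  have hfin : Module.Finite K (W.H X) := (W.graded X).finite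
  obtain ⟨b, g, M, Λ, hg, hli, hspan, hdet, hΛF, hΛ⟩ := hform
  have hr : r y = b := by
    have h1 := finrank_span_eq_card (hf y).1
    rw [(hf y).2, Fintype.card_fin] at h1
    have h2 := finrank_span_eq_card hli
    rw [hspan, Fintype.card_fin] at h2
    rw [← h1, ← h2, finrank_gr_eq W hj]
  subst hr
  refine ⟨_, cycleSpan_le (F := F) W _ (list_prod_mem W _ fun z hz => ?_), _, ?_,
    hasValue_expansion W e f y hg M hΛ⟩
  · rw [List.mem_ofFn] at hz
    obtain ⟨s, rfl⟩ := hz
    exact pull_mem_cycleSpan W _ hΛF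
  · refine mul_ne_zero (Nat.cast_ne_zero.mpr (Nat.factorial_ne_zero _)) ?_
    have h1 : (Matrix.of fun t u => ∑ p, ∑ q, M p q *
        (W.pairing X (g p) (f y t) * W.pairing X (g q) (f y u))) =
        (Matrix.of fun p t => W.pairing X (g p) (f y t)).transpose * Matrix.of M *
          (Matrix.of fun p t => W.pairing X (g p) (f y t)) := by
      ext t u
      rw [Matrix.of_apply, Matrix.mul_apply, sum_comm]
      refine sum_congr rfl fun q _ => ?_
      rw [Matrix.mul_apply, sum_mul]
      refine sum_congr rfl fun p _ => ?_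
      simp only [Matrix.transpose_apply, Matrix.of_apply]
      ring
    rw [h1, Matrix.det_mul, Matrix.det_mul, Matrix.det_transpose]
    have h2 := det_pairing_ne_zero W hj hg hli (hf y).2
    exact mul_ne_zero (mul_ne_zero h2 hdet) h2

end Pool.Agent.Helper11.BD
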