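import Mathlib
import Pool.Agent.Helper11.BD.Multi2

/-!
# Products of determinants of several cohomology groups: the equivalence
-/

universe u v w

open CategoryTheory Finset

namespace Pool.Agent.Helper11.BD

open Pool.Agent.Helper10 hiding IsAlgAut parityPart
open SmProjVar Pool.Agent.Helper10.GIT
open Pool.Agent.Helper11.Obs (extProd wordClass prodVar prodFst prodProj IsNumTrivial)

variable {k : Type u} [Field k] {K : Type v} [Field K] [CharZero K]
  (W : WeilCohomology.{u, v, w} k K) {F : Subfield K} {X : SmProjVar k}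

/-- the value of the square of the determinant -/
lemma hasValue_sqC {m b₀ : ℕ} {r : Fin m → ℕ} (e : (Σ y, Fin (r y)) ≃ Fin b₀)
    (f : ∀ y, Fin (r y) → W.H X) (y : Fin m) {j : ℕ} {g : Fin (r y) → W.H X}
    (hg : ∀ s, g s ∈ W.gr X j)
    (hdet : Matrix.det (Matrix.of fun s t => W.pairing X (g s) (f y t)) ≠ 0) {a : K}
    (ha : a ≠ 0) :
    ∃ v : K, v ≠ 0 ∧
      HasValue W e f y (a • sqC W (slt X e false y) (slt X e true y) g) v := by
  obtain ⟨c, hc, h⟩ := reorder W (decide (Odd j)) (slt X e false y) (slt X e true y) 1 1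
  have hcc : (c : K) * c = 1 := by rcases hc with rfl | rfl <;> norm_num
  have hwd : ∀ P Q : Fin (r y) → Fin (r y),
      wd W (slt X e false y) (slt X e true y) (g ∘ P) (g ∘ Q) =
        (c : K) • iwd W e y (g ∘ P) (g ∘ Q) := by
    intro P Q
    have h1 : iwd W e y (g ∘ P) (g ∘ Q) =
        c • wd W (slt X e false y) (slt X e true y) (g ∘ P) (g ∘ Q) :=
      h (g ∘ P) (g ∘ Q) (fun i => gr_le_par W X j (hg _)) fun i => gr_le_par W X j (hg _)
    rw [h1, ← Int.cast_smul_eq_zsmul K, smul_smul, hcc, one_smul]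
  set D := Matrix.det (Matrix.of fun s t => W.pairing X (g s) (f y t)) with hD
  have hdetP : ∀ P : Fin (r y) → Fin (r y),
      (Matrix.of fun s t => W.pairing X ((g ∘ P) s) (f y t)).det = eps P * D := by
    intro P
    have h4 := det_submatrix_eps (Matrix.of fun s t => W.pairing X (g s) (f y t)) P id
    rw [eps_id] at h4
    refine Eq.trans ?_ (h4.trans ?_)
    · rfl
    · rw [← hD]; ring
  refine ⟨a * c * (((r y).factorial : K) * (r y).factorial) * (D * D), ?_,
    (Fin (r y) → Fin (r y)) × (Fin (r y) → Fin (r y)), inferInstance,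
    fun R => a * c * (eps R.1 * eps R.2), fun R => g ∘ R.1, fun R => g ∘ R.2,
    fun _ _ => j, fun _ _ => j, fun R s => hg _, fun R s => hg _, ?_, ?_⟩
  · refine mul_ne_zero (mul_ne_zero (mul_ne_zero ha ?_) ?_) (mul_ne_zero hdet hdet)
    · rcases hc with rfl | rfl <;> simp
    · exact mul_ne_zero (Nat.cast_ne_zero.mpr (Nat.factorial_ne_zero _))
        (Nat.cast_ne_zero.mpr (Nat.factorial_ne_zero _))
  · rw [sqC, smul_sum, Fintype.sum_prod_type]
    refine sum_congr rfl fun P _ => ?_
    rw [smul_sum]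
    refine sum_congr rfl fun Q _ => ?_
    rw [hwd, smul_smul, smul_smul]
    congr 1
    ring
  · rw [Fintype.sum_prod_type]
    have h1 : ∀ P : Fin (r y) → Fin (r y), ∑ Q : Fin (r y) → Fin (r y),
        a * c * (eps P * eps Q) *
          ((Matrix.of fun s t => W.pairing X ((g ∘ P) s) (f y t)).det *
            (Matrix.of fun s t => W.pairing X ((g ∘ Q) s) (f y t)).det) =
        (eps P * eps P) * ((∑ Q : Fin (r y) → Fin (r y), (eps Q : K) * eps Q) *
          (a * c * (D * D))) := by
      intro P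
      rw [sum_mul, mul_sum]
      refine sum_congr rfl fun Q _ => ?_
      rw [hdetP, hdetP]
      ring
    rw [sum_congr rfl fun P _ => h1 P, ← sum_mul, sum_eps_sq]
    ring

/-- taking out one factor -/
lemma ofFn_prod_update {A : Type*} [Ring A] {m : ℕ} (Ψ : Fin m → A) (y : Fin m)
    (h : ∀ x, Ψ y * x = x * Ψ y) :
    (List.ofFn Ψ).prod = Ψ y * (List.ofFn (Function.update Ψ y 1)).prod := by
  induction m with
  | zero => exact y.elim0
  | succ m ih =>
    rw [List.ofFn_succ, List.prod_cons, List.ofFn_succ, List.prod_cons]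
    refine Fin.cases ?_ (fun y h => ?_) y h
    · intro h
      rw [Function.update_self, one_mul]
      congr 3
    · have h1 := ih (fun i => Ψ i.succ) y h
      have h2 : (fun i : Fin m => Function.update Ψ y.succ 1 i.succ) =
          Function.update (fun i : Fin m => Ψ i.succ) y 1 := by
        funext i
        by_cases hi : i = y
        · subst hi
          rw [Function.update_self, Function.update_self]
        · rw [Function.update_of_ne hi, Function.update_of_ne fun h' => hi (Fin.succ_injective _ h')]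
      rw [h1, h2, Function.update_of_ne (Fin.succ_ne_zero y).symm, ← mul_assoc, ← h (Ψ 0), mul_assoc]

lemma list_prod_mem_alg {T : SmProjVar k} (l : List (W.H T)) (hl : ∀ x ∈ l, x ∈ W.algClasses T) :
    l.prod ∈ W.algClasses T := by
  induction l with
  | nil =>
    rw [List.prod_nil]
    exact cycleSpan_le (F := ⊤) W _ (Ro.r5_one_mem W _)
  | cons x l ih =>
    rw [List.prod_cons]
    exact W.mul_mem_algClasses _ _ (hl x (List.mem_cons_self ..)) _
      (ih fun y hy => hl y (List.mem_cons_of_mem _ hy))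

/-- a numerically trivial class gives trace zero -/
lemma not_isNumTrivial_of_trL {T : SmProjVar k} {z : W.H T} (hzA : z ∈ W.algClasses T)
    {w : W.H (T.prod T)} (hw : w ∈ W.algClasses (T.prod T))
    (h1 : W.trL (T.prod T) (w * (W.pullA (fst T T) z * W.pullA (snd T T) z)) ≠ 0) :
    ¬ IsNumTrivial W.toCohomologyData _ z := by
  have hze : z ∈ W.evK _ := W.algClasses_le_evK _ hzA
  have hsz : W.pullA (snd T T) z ∈ W.algClasses _ := W.pull_mem_algClasses _ _ hzA
  rintro ⟨-, h2⟩
  apply h1
  obtain ⟨y, hy, h3⟩ := W.push_mem_algClasses (fst T T) _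
    (W.mul_mem_algClasses _ _ hw _ hsz)
  have h4 : w * (W.pullA (fst T T) z * W.pullA (snd T T) z) =
      w * W.pullA (snd T T) z * W.pullA (fst T T) z := by
    rw [W.evK_comm _ (W.pullA (fst T T) z) _ (W.pull_evK _ _ hze), mul_assoc]
  rw [h4, ← h3, W.evK_comm _ y z (W.algClasses_le_evK _ hy)]
  exact h2 y hy

/-- the value of an empty slot -/
lemma hasValue_one {m b₀ : ℕ} {r : Fin m → ℕ} (e : (Σ y, Fin (r y)) ≃ Fin b₀)
    (f : ∀ y, Fin (r y) → W.H X) (y : Fin m) (hy : r y = 0) : HasValue W e f y 1 1 := by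
  have hemp : IsEmpty (Fin (r y)) := by rw [hy]; infer_instance
  refine ⟨Unit, inferInstance, fun _ => 1, fun _ _ => 0, fun _ _ => 0, fun _ _ => 0, fun _ _ => 0,
    fun _ s => hemp.elim s, fun _ s => hemp.elim s, ?_, ?_⟩
  · rw [Fintype.sum_unique, one_smul]
    unfold iwd
    have h1 : (List.ofFn fun s : Fin (r y) => W.pull (slt X e false y s) (0 : W.H X) *
        W.pull (slt X e true y s) (0 : W.H X)) = [] := by
      rw [List.ofFn_eq_nil_iff]
      exact hy
    rw [h1, List.prod_nil]
  · rw [Fintype.sum_unique, Matrix.det_isEmpty]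
    ring

/-- mixed products of determinants: no numerically trivial classes -/
theorem not_isNumTrivial_of_forms {m b₀ : ℕ} {c : Fin m → ℕ}
    (hform : ∀ y, c y ≤ 2 * X.dim → HasForm W F X (2 * X.dim - c y))
    {z : W.H (cart X b₀)} (hzA : z ∈ W.algClasses (cart X b₀))
    (hz : IsDeterminant W.toCohomologyData (fun y => W.gr X (c y)) z) :
    ¬ IsNumTrivial W.toCohomologyData _ z := by
  have hfin : Module.Finite K (W.H X) := (W.graded X).finite
  obtain ⟨r, f, e, a, ha, hf', hz'⟩ := hz
  have hf : ∀ y, LinearIndependent K (f y) ∧ Submodule.span K (Set.range (f y)) =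
    W.gr X (c y) := hf'
  have hfc : ∀ y t, f y t ∈ W.gr X (c y) := fun y t => by
    rw [← (hf y).2]
    exact Submodule.subset_span ⟨t, rfl⟩
  obtain ⟨c₀, hc₀, h⟩ := exists_trace_formula W e hfc (W.algClasses_le_evK _ hzA) ha hz'
  have key : ∀ y, ∃ Ψ ∈ W.algClasses ((cart X b₀).prod (cart X b₀)), ∃ v : K, v ≠ 0 ∧
      HasValue W e f y Ψ v := by
    intro y
    by_cases hy : c y ≤ 2 * X.dim
    · exact exists_value_of_hasForm W e hf y (by omega) (hform y hy)
    · have hbot := (W.graded X).eq_bot (c y) (by omega)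
      have hr : r y = 0 := by
        have h1 := finrank_span_eq_card (hf y).1
        rw [(hf y).2, Fintype.card_fin, hbot, finrank_bot] at h1
        exact h1.symm
      exact ⟨1, cycleSpan_le (F := ⊤) W _ (Ro.r5_one_mem W _), 1, one_ne_zero,
        hasValue_one W e f y hr⟩
  choose Ψ hΨ v hv hval using key
  have h1 := h Ψ v hval
  refine not_isNumTrivial_of_trL W hzA (w := (List.ofFn Ψ).prod)
    (list_prod_mem_alg W _ fun x hx => ?_) ?_
  · rw [List.mem_ofFn] at hx
    obtain ⟨y, rfl⟩ := hx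
    exact hΨ y
  · rw [h1]
    exact mul_ne_zero hc₀ (prod_ne_zero_iff.mpr fun y _ => hv y)

/-- mixed products of determinants: nontriviality -/
theorem nontrivial_of_mixed {d : X.Z 1} (hd : HardLefschetz W.toCohomologyData X d) {i j : ℕ}
    (hij : i + j = 2 * X.dim) {b : ℕ}
    {g : Fin b → W.H X} (hg : ∀ p, g p ∈ W.gr X j) (hli : LinearIndependent K g)
    (hspan : Submodule.span K (Set.range g) = W.gr X j) {a' : K} (ha' : a' ≠ 0)
    (hsq : ∀ (T : SmProjVar k) (V V' : Fin b → (T.toOver ⟶ X.toOver)),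
      a' • sqC W V V' g ∈ W.algClasses T)
    {m b₀ : ℕ} {c : Fin m → ℕ} (hc : ∀ y, c y ≤ X.dim) {y₀ : Fin m} (hy₀ : c y₀ = i)
    {z : W.H (cart X b₀)} (hzA : z ∈ W.algClasses (cart X b₀))
    (hz : IsDeterminant W.toCohomologyData (fun y => W.gr X (c y)) z) :
    ∃ (T : SmProjVar k) (V V' : Fin b → (T.toOver ⟶ X.toOver)), ∃ x ∈ W.algClasses T,
        W.trL T ((a' • sqC W V V' g) * x) ≠ 0 := by
  have hfin : Module.Finite K (W.H X) := (W.graded X).finite
  obtain ⟨r, f, e, a, ha, hf', hz'⟩ := hz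
  have hf : ∀ y, LinearIndependent K (f y) ∧ Submodule.span K (Set.range (f y)) =
    W.gr X (c y) := hf'
  have hfc : ∀ y t, f y t ∈ W.gr X (c y) := fun y t => by
    rw [← (hf y).2]
    exact Submodule.subset_span ⟨t, rfl⟩
  have hr : r y₀ = b := by
    have h1 := finrank_span_eq_card (hf y₀).1
    rw [(hf y₀).2, Fintype.card_fin] at h1
    have h2 := finrank_span_eq_card hli
    rw [hspan, Fintype.card_fin] at h2
    rw [← h1, ← h2]
    exact finrank_gr_eq W (by rw [hy₀]; exact hij)
  subst hr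
  obtain ⟨c₀, hc₀, h⟩ := exists_trace_formula W e hfc (W.algClasses_le_evK _ hzA) ha hz'
  choose Ψ hΨ v hv hval using fun y => exists_value_of_hardLefschetz W hd e hf y (hc y)
  obtain ⟨v₀, hv₀, hval₀⟩ := hasValue_sqC W e f y₀ hg
    (det_pairing_ne_zero W (by omega) hg hli (hf y₀).2) ha'
  set Ψ₀ := a' • sqC W (slt X e false y₀) (slt X e true y₀) g with hΨ₀
  have h1 := h (Function.update Ψ y₀ Ψ₀) (Function.update v y₀ v₀) fun y => by
    by_cases hy : y = y₀
    · subst hy
      rw [Function.update_self, Function.update_self]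
      exact hval₀
    · rw [Function.update_of_ne hy, Function.update_of_ne hy]
      exact hval y
  have hmem : Ψ₀ ∈ W.algClasses _ := hsq _ _ _
  have h2 := ofFn_prod_update (Function.update Ψ y₀ Ψ₀) y₀ fun x => by
    rw [Function.update_self]
    exact W.evK_comm _ _ _ (W.algClasses_le_evK _ hmem)
  rw [Function.update_self, Function.update_idem] at h2
  have h3 : c₀ * ∏ y, Function.update v y₀ v₀ y ≠ 0 := by
    refine mul_ne_zero hc₀ (prod_ne_zero_iff.mpr fun y _ => ?_)
    by_cases hy : y = y₀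
    · subst hy
      rw [Function.update_self]
      exact hv₀
    · rw [Function.update_of_ne hy]
      exact hv y
  rw [← h1, h2, mul_assoc] at h3
  refine ⟨_, _, _, _, ?_, h3⟩
  refine W.mul_mem_algClasses _ _ (list_prod_mem_alg W _ fun x hx => ?_) _
    (W.mul_mem_algClasses _ _ (W.pull_mem_algClasses _ _ hzA) _ (W.pull_mem_algClasses _ _ hzA))
  rw [List.mem_ofFn] at hx
  obtain ⟨y, rfl⟩ := hx
  by_cases hy : y = y₀
  · subst hy
    rw [Function.update_self]
    exact cycleSpan_le (F := ⊤) W _ (Ro.r5_one_mem W _)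
  · rw [Function.update_of_ne hy]
    exact hΨ y

/-- the Lefschetz standard conjecture and mixed products of determinants -/
theorem lefschetz_mixed {d : X.Z 1} (hd : HardLefschetz W.toCohomologyData X d) :
    List.TFAE [LefschetzStandard W.toCohomologyData F X d,
      ∀ i < X.dim, ∃ (N : ℕ) (c : Fin N → ℕ), (∀ y, c y ≤ X.dim) ∧ (∃ y, c y = i) ∧
        HasAlgebraicDeterminant W.toCohomologyData F fun y => W.gr X (c y),
      ∀ i, HasAlgebraicDeterminant W.toCohomologyData F fun _ : Fin 2 => W.gr X i,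
      ∀ i < X.dim, ¬ HasNumTrivialDeterminant W.toCohomologyData F
        fun _ : Fin 2 => W.gr X (2 * X.dim - i),
      ∀ (N : ℕ) (c : Fin N → ℕ),
        ¬ HasNumTrivialDeterminant W.toCohomologyData F fun y => W.gr X (c y)] := by
  have h0 := lefschetz_tfae W (F := F) hd
  tfae_have 1 ↔ 3 := h0.out 0 2
  tfae_have 1 ↔ 4 := by
    refine (h0.out 0 3).trans (forall_congr' fun i => forall_congr' fun hi => ?_)
    constructor
    · rintro h3 ⟨b, z, h1, h2, h4⟩
      exact h3 b z h1 h2 h4
    · intro h3 b z h1 h2 h4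
      exact h3 ⟨b, z, h1, h2, h4⟩
  tfae_have 3 → 2 := fun h i hi => ⟨2, fun _ => i, fun _ => hi.le, ⟨0, rfl⟩, h i⟩
  tfae_have 2 → 1 := fun h => by
    refine standard_of_nontrivial W hd fun i r hir hr b g f M Λ hb hdet hΛF hΛ => ?_
    obtain ⟨N, c, hc, ⟨y₀, hy₀⟩, b₀, z, hzF, hz⟩ := h i (by omega)
    have hfp : ∀ p, f p ∈ par W (decide (Odd (i + 2 * r))) X :=
      fun p => gr_le_par W X _ (hb.f_mem p)
    exact nontrivial_of_mixed W hd (by omega) hb.f_mem hb.f_li hb.f_span hdet
      (fun T V V' => cycleSpan_le (F := F) W _ (det_smul_sqC_mem W _ V V' f hfp M hΛF hΛ)) hc hy₀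
      (cycleSpan_le (F := F) W _ hzF) hz
  tfae_have 1 → 5 := fun h N c => by
    rintro ⟨b, z, hzF, hz, hdz⟩
    exact not_isNumTrivial_of_forms W (F := F) (fun y _ => hasForm_of_standard W hd h _)
      (cycleSpan_le (F := F) W _ hzF) hdz hz
  tfae_have 5 → 4 := fun h i hi => h 2 fun _ => 2 * X.dim - i
  tfae_finish

end Pool.Agent.Helper11.BD
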