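import Mathlib
import Pool.Agent.Helper11.BD.Multi3
import Pool.Agent.Helper41.CAN.C11

/-!
# Products of determinants: external products
-/

universe u v w

open CategoryTheory Finset

namespace Pool.Agent.Helper11.BD

open Pool.Agent.Helper10 hiding IsAlgAut parityPart
open SmProjVar Pool.Agent.Helper10.GIT
open Pool.Agent.Helper11.Obs (extProd wordClass prodVar prodFst prodProj IsNumTrivial)

variable {k : Type u} [Field k] {K : Type v} [Field K] [CharZero K]
  (W : WeilCohomology.{u, v, w} k K) {F : Subfield K} {X : SmProjVar k}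

/-- `HasAlgebraicDeterminant` for families indexed by any finite type -/
def HasDet (F : Subfield K) {X : SmProjVar k} {ι : Type} [Fintype ι]
    (G : ι → Submodule K (W.H X)) : Prop :=
  ∃ (b : ℕ) (z : W.H (cart X b)), z ∈ cycleSpan W.toCohomologyData F (cart X b) ∧
    ∃ (r : ι → ℕ) (f : ∀ y, Fin (r y) → W.H X) (e : (Σ y, Fin (r y)) ≃ Fin b) (a : K), a ≠ 0 ∧
      (∀ y, LinearIndependent K (f y) ∧ Submodule.span K (Set.range (f y)) = G y) ∧
      ∀ v : (Σ y, Fin (r y)) → W.H X,
        W.pairing (cart X b) z (extProd W.toCohomologyData (A := pt k) 1 fun q => v (e.symm q)) =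
          a * ∏ y, Matrix.det (Matrix.of fun s t => W.pairing X (v ⟨y, s⟩) (f y t))

lemma hasDet_iff {N : ℕ} {G : Fin N → Submodule K (W.H X)} :
    HasDet W F G ↔ HasAlgebraicDeterminant W.toCohomologyData F G := Iff.rfl

lemma HasDet.reindex {ι ι' : Type} [Fintype ι] [Fintype ι'] {G : ι → Submodule K (W.H X)}
    (h : HasDet W F G) (σ : ι' ≃ ι) : HasDet W F fun y => G (σ y) := by
  obtain ⟨b, z, hz, r, f, e, a, ha, hf, hv⟩ := h
  let τ : (Σ y', Fin (r (σ y'))) ≃ (Σ y, Fin (r y)) :=
    Equiv.sigmaCongrLeft (β := fun y => Fin (r y)) σ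
  have hτ : ∀ y' s, τ ⟨y', s⟩ = ⟨σ y', s⟩ := fun _ _ => rfl
  refine ⟨b, z, hz, fun y => r (σ y), fun y => f (σ y), τ.trans e, a, ha, fun y => hf _,
    fun v => ?_⟩
  have h1 := hv fun q => v (τ.symm q)
  refine h1.trans ?_
  congr 1
  rw [← Equiv.prod_comp σ]
  refine prod_congr rfl fun y' _ => ?_
  congr 1
  ext s t
  rw [Matrix.of_apply, Matrix.of_apply, ← hτ, Equiv.symm_apply_apply]

/-- maps to powers -/
lemma exists_lift_cart {T : SmProjVar k} :
    ∀ {b : ℕ} (f : Fin b → (T.toOver ⟶ X.toOver)),
    ∃ g : T.toOver ⟶ (cart X b).toOver, ∀ v : Fin b → W.H X,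
      W.pull g (extProd W.toCohomologyData (A := pt k) 1 v) =
        (List.ofFn fun i => W.pull (f i) (v i)).prod := by
  have key : ∀ {b : ℕ} (f : Fin b → (T.toOver ⟶ X.toOver)),
      ∃ g : T.toOver ⟶ (cart X b).toOver,
        ∀ i, g ≫ prodProj (pt k) (fun _ : Fin b => X) i = f i := by
    intro b
    induction b with
    | zero => exact fun f => ⟨toPt k T, fun i => i.elim0⟩
    | succ b ih =>
      intro f
      obtain ⟨g, hg⟩ := ih fun i => f i.castSucc
      refine ⟨SmProjVar.lift g (f (Fin.last _)), fun i => ?_⟩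
      refine Fin.lastCases ?_ (fun i => ?_) i
      · rw [Can.C11.prodProj_last]
        exact SmProjVar.lift_snd _ _
      · rw [Can.C11.prodProj_castSucc]
        have h1 : SmProjVar.lift g (f (Fin.last _)) ≫
            (SmProjVar.fst (prodVar (pt k) fun _ : Fin b => X) X ≫
              prodProj (pt k) (fun _ : Fin b => X) i) = f i.castSucc := by
          rw [← Category.assoc, SmProjVar.lift_fst, hg]
        exact h1
  intro b f
  obtain ⟨g, hg⟩ := key f
  refine ⟨g, fun v => ?_⟩
  rw [extProd_one_eq]
  have h2 := map_list_prod (W.pullA g)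
    (List.ofFn fun q => W.pull (prodProj (pt k) (fun _ : Fin b => X) q) (v q))
  rw [List.map_ofFn] at h2
  refine h2.trans ?_
  congr 1
  congr 1
  funext q
  rw [← hg q]
  exact (W.pull_comp _ _ _).symm

/-- external products -/
theorem HasDet.sum {ι ι' : Type} [Fintype ι] [Fintype ι'] {G : ι → Submodule K (W.H X)}
    {G' : ι' → Submodule K (W.H X)} (h : HasDet W F G) (h' : HasDet W F G') :
    HasDet W F (Sum.elim G G') := by
  obtain ⟨b, z, hz, r, f, e, a, ha, hf, hv⟩ := h
  obtain ⟨b', z', hz', r', f', e', a', ha', hf', hv'⟩ := h'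
  let slot : Fin (b + b') → (((cart X b).prod (cart X b')).toOver ⟶ X.toOver) :=
    Fin.addCases (fun q => fst (cart X b) (cart X b') ≫ prodProj (pt k) (fun _ : Fin b => X) q)
      fun q => snd (cart X b) (cart X b') ≫ prodProj (pt k) (fun _ : Fin b' => X) q
  obtain ⟨g, hg⟩ := exists_lift_cart W slot
  have hw : W.pull (fst (cart X b) (cart X b')) z * W.pull (snd (cart X b) (cart X b')) z' ∈
      cycleSpan W.toCohomologyData F ((cart X b).prod (cart X b')) :=
    mul_mem_cycleSpan W _ (pull_mem_cycleSpan W _ hz) (pull_mem_cycleSpan W _ hz')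
  obtain ⟨Z, hZ, hZ2⟩ := push_mem_cycleSpan (F := F) W g hw
  let r'' : ι ⊕ ι' → ℕ := Sum.elim r r'
  let f'' : ∀ y, Fin (r'' y) → W.H X := fun y => match y with
    | Sum.inl y => f y
    | Sum.inr y => f' y
  let e'' : (Σ y, Fin (r'' y)) ≃ Fin (b + b') :=
    (Equiv.sumSigmaDistrib fun y => Fin (r'' y)).trans
      ((Equiv.sumCongr (show (Σ y, Fin (r'' (Sum.inl y))) ≃ Fin b from e)
        (show (Σ y, Fin (r'' (Sum.inr y))) ≃ Fin b' from e')).trans finSumFinEquiv)
  refine ⟨b + b', Z, hZ, r'', f'', e'', a * a', mul_ne_zero ha ha', fun y => ?_, fun v => ?_⟩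
  · cases y with
    | inl y => exact hf y
    | inr y => exact hf' y
  · have hze' : z' ∈ W.evK _ := W.algClasses_le_evK _ (cycleSpan_le W _ hz')
    let v₁ : (Σ y, Fin (r y)) → W.H X := fun q => v ⟨Sum.inl q.1, q.2⟩
    let v₂ : (Σ y, Fin (r' y)) → W.H X := fun q => v ⟨Sum.inr q.1, q.2⟩
    have hsplit : W.pull g (extProd W.toCohomologyData (A := pt k) 1 fun q => v (e''.symm q)) =
        W.pull (fst (cart X b) (cart X b'))
          (extProd W.toCohomologyData (A := pt k) 1 fun q => v₁ (e.symm q)) *
        W.pull (snd (cart X b) (cart X b'))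
          (extProd W.toCohomologyData (A := pt k) 1 fun q => v₂ (e'.symm q)) := by
      rw [hg, List.ofFn_add, List.prod_append, extProd_one_eq, extProd_one_eq]
      congr 1
      · have h2 := map_list_prod (W.pullA (fst (cart X b) (cart X b')))
          (List.ofFn fun q => W.pull (prodProj (pt k) (fun _ : Fin b => X) q) (v₁ (e.symm q)))
        rw [List.map_ofFn] at h2
        refine Eq.trans ?_ h2.symm
        congr 1
        congr 1
        funext q
        change W.pull (slot (Fin.castAdd b' q)) (v (e''.symm (Fin.castAdd b' q))) = _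
        have h3 : slot (Fin.castAdd b' q) =
            fst (cart X b) (cart X b') ≫ prodProj (pt k) (fun _ : Fin b => X) q :=
          Fin.addCases_left q
        have h4 : e''.symm (Fin.castAdd b' q) = ⟨Sum.inl (e.symm q).1, (e.symm q).2⟩ := by
          rw [Equiv.symm_apply_eq]
          change _ = finSumFinEquiv (Sum.inl (e ⟨(e.symm q).1, (e.symm q).2⟩))
          rw [Sigma.eta, Equiv.apply_symm_apply]
          rfl
        rw [h3, h4]
        exact W.pull_comp _ _ _
      · have h2 := map_list_prod (W.pullA (snd (cart X b) (cart X b')))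
          (List.ofFn fun q => W.pull (prodProj (pt k) (fun _ : Fin b' => X) q) (v₂ (e'.symm q)))
        rw [List.map_ofFn] at h2
        refine Eq.trans ?_ h2.symm
        congr 1
        congr 1
        funext q
        change W.pull (slot (Fin.natAdd b q)) (v (e''.symm (Fin.natAdd b q))) = _
        have h3 : slot (Fin.natAdd b q) =
            snd (cart X b) (cart X b') ≫ prodProj (pt k) (fun _ : Fin b' => X) q :=
          Fin.addCases_right q
        have h4 : e''.symm (Fin.natAdd b q) = ⟨Sum.inr (e'.symm q).1, (e'.symm q).2⟩ := by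
          rw [Equiv.symm_apply_eq]
          change _ = finSumFinEquiv (Sum.inr (e' ⟨(e'.symm q).1, (e'.symm q).2⟩))
          rw [Sigma.eta, Equiv.apply_symm_apply]
          rfl
        rw [h3, h4]
        exact W.pull_comp _ _ _
    have htr : ∀ (x : W.H (cart X b)) (y : W.H (cart X b')),
        W.trL ((cart X b).prod (cart X b')) (W.pullA (fst (cart X b) (cart X b')) x *
          W.pullA (snd (cart X b) (cart X b')) y) = W.trL _ x * W.trL _ y :=
      fun x y => W.tr_prod _ _ x y
    have hcomm : ∀ (A : W.H (cart X b)) (B : W.H (cart X b')),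
        W.trL ((cart X b).prod (cart X b'))
          (W.pull (fst (cart X b) (cart X b')) z * W.pull (snd (cart X b) (cart X b')) z' *
          (W.pull (fst (cart X b) (cart X b')) A * W.pull (snd (cart X b) (cart X b')) B)) =
        W.trL _ (z * A) * W.trL _ (z' * B) := by
      intro A B
      have h1 : W.pull (snd (cart X b) (cart X b')) z' * W.pull (fst (cart X b) (cart X b')) A =
          W.pull (fst (cart X b) (cart X b')) A * W.pull (snd (cart X b) (cart X b')) z' :=
        W.evK_comm _ _ _ (W.pull_evK _ _ hze')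
      rw [← htr, map_mul (W.pullA (fst (cart X b) (cart X b'))),
        map_mul (W.pullA (snd (cart X b) (cart X b'))), mul_assoc,
        ← mul_assoc (W.pull (snd (cart X b) (cart X b')) z'), h1]
      simp only [mul_assoc]
      rfl
    have h1 : W.pairing (cart X (b + b')) Z
        (extProd W.toCohomologyData (A := pt k) 1 fun q => v (e''.symm q)) =
        W.trL _ (z * extProd W.toCohomologyData (A := pt k) 1 fun q => v₁ (e.symm q)) *
        W.trL _ (z' * extProd W.toCohomologyData (A := pt k) 1 fun q => v₂ (e'.symm q)) := by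
      rw [← hcomm, ← hsplit]
      exact hZ2 _
    have h2 : W.trL _ (z * extProd W.toCohomologyData (A := pt k) 1 fun q => v₁ (e.symm q)) = _ :=
      hv v₁
    have h3 : W.trL _ (z' * extProd W.toCohomologyData (A := pt k) 1 fun q => v₂ (e'.symm q)) = _ :=
      hv' v₂
    rw [h1, h2, h3, Fintype.prod_sum_type, mul_mul_mul_comm]
    rfl

/-- squares of products -/
theorem hasDet_squares (h : ∀ i, HasAlgebraicDeterminant W.toCohomologyData F
    fun _ : Fin 2 => W.gr X i) :
    ∀ (N : ℕ) (c : Fin N → ℕ), HasDet W F fun y : Fin N × Fin 2 => W.gr X (c y.1) := by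
  intro N
  induction N with
  | zero =>
    intro c
    -- two copies of the zero space in degree `2 dim X + 1`
    have h1 : HasDet W F fun _ : Fin 2 => W.gr X (2 * X.dim + 1) := h _
    obtain ⟨b, z, hz, r, f, e, a, ha, hf, hv⟩ := h1
    have hr : ∀ y, r y = 0 := by
      intro y
      have hfin : Module.Finite K (W.H X) := (W.graded X).finite
      have h1 := finrank_span_eq_card (hf y).1
      have h2 : Submodule.span K (Set.range (f y)) = W.gr X (2 * X.dim + 1) := (hf y).2
      rw [h2, Fintype.card_fin, (W.graded X).eq_bot _ (by omega), finrank_bot] at h1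
      exact h1.symm
    have hemp : IsEmpty (Σ y, Fin (r y)) := ⟨fun q => by
      have h2 := q.2
      rw [hr] at h2
      exact h2.elim0⟩
    have hemp' : IsEmpty (Σ y : Fin 0 × Fin 2, Fin ((fun _ => 0 : Fin 0 × Fin 2 → ℕ) y)) :=
      ⟨fun q => q.1.1.elim0⟩
    refine ⟨b, z, hz, fun _ => 0, fun y => y.1.elim0, (Equiv.equivOfIsEmpty _ _).trans e, a, ha,
      fun y => y.1.elim0, fun v => ?_⟩
    have h2 := hv fun q => hemp.elim q
    have h3 : ∀ y, Matrix.det (Matrix.of fun s t => W.pairing X
        ((fun q => hemp.elim q : (Σ y, Fin (r y)) → W.H X) ⟨y, s⟩) (f y t)) = 1 := by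
      intro y
      have : IsEmpty (Fin (r y)) := by rw [hr]; infer_instance
      exact Matrix.det_isEmpty
    rw [prod_congr rfl fun y _ => h3 y, prod_const_one] at h2
    rw [Fintype.prod_empty, ← h2]
    congr 2
    funext q
    exact hemp.elim (e.symm q)
  | succ N ih =>
    intro c
    have h1 := HasDet.sum W (ih fun y => c y.succ) (h (c 0))
    let σ : Fin (N + 1) × Fin 2 ≃ (Fin N × Fin 2) ⊕ Fin 2 :=
      { toFun := fun y => Fin.cases (Sum.inr y.2) (fun i => Sum.inl (i, y.2)) y.1
        invFun := Sum.elim (fun y => (y.1.succ, y.2)) fun y => (0, y)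
        left_inv := fun y => by
          rcases y with ⟨i, j⟩
          refine Fin.cases rfl (fun i => rfl) i
        right_inv := fun y => by rcases y with ⟨i, j⟩ | j <;> rfl }
    have h2 := HasDet.reindex W h1 σ
    have h3 : (fun y => Sum.elim (fun y : Fin N × Fin 2 => W.gr X (c y.1.succ))
        (fun _ : Fin 2 => W.gr X (c 0)) (σ y)) = fun y : Fin (N + 1) × Fin 2 => W.gr X (c y.1) := by
      funext y
      rcases y with ⟨i, j⟩
      refine Fin.cases rfl (fun i => rfl) i
    rwa [h3] at h2

/-- the squares of all products of lines -/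
theorem hasAlgebraicDeterminant_squares (h : ∀ i, HasAlgebraicDeterminant W.toCohomologyData F
    fun _ : Fin 2 => W.gr X i) (N : ℕ) (c : Fin N → ℕ) :
    HasAlgebraicDeterminant W.toCohomologyData F fun y : Fin (N * 2) => W.gr X (c y.divNat) :=
  HasDet.reindex W (hasDet_squares W h N c) finProdFinEquiv.symm

end Pool.Agent.Helper11.BD
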