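import Mathlib
import Pool.Agent.Helper11.BD.Multi4
import Pool.Agent.Helper11.BD.Blocks

/-!
# Determinants which are not orthogonal to the classes of algebraic cycles
-/

universe u v w

open CategoryTheory Finset

namespace Pool.Agent.Helper11.BD

open Pool.Agent.Helper10 hiding IsAlgAut parityPart
open SmProjVar Pool.Agent.Helper10.GIT
open Pool.Agent.Helper11.Obs (extProd wordClass prodVar prodFst prodProj IsNumTrivial)

variable {k : Type u} [Field k] {K : Type v} [Field K] [CharZero K]
  (W : WeilCohomology.{u, v, w} k K) {F : Subfield K} {X : SmProjVar k}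

/-- a class on `A × B` is determined by its pairings with the classes `x × y` -/
lemma eq_of_trL_prod' {A B : SmProjVar k} {c c' : W.H (A.prod B)}
    (h : ∀ x y, W.trL (A.prod B) (c * (W.pull (fst A B) x * W.pull (snd A B) y)) =
      W.trL (A.prod B) (c' * (W.pull (fst A B) x * W.pull (snd A B) y))) : c = c' := by
  rw [← sub_eq_zero]
  refine (W.trace _).nondegenerate _ fun z => ?_
  change W.trL (A.prod B) ((c - c') * z) = 0
  let m : TensorProduct K (W.H A) (W.H B) →ₗ[K] W.H (A.prod B) :=
    LinearMap.mul' K _ ∘ₗ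
      TensorProduct.map (W.pullA (fst A B)).toLinearMap (W.pullA (snd A B)).toLinearMap
  have hm : ∀ a b, m (TensorProduct.tmul K a b) =
      W.pull (fst A B) a * W.pull (snd A B) b := fun a b => rfl
  obtain ⟨s, rfl⟩ := (W.kunneth A B m hm).2 z
  induction s using TensorProduct.induction_on with
  | zero => rw [map_zero, mul_zero, map_zero]
  | tmul a b => rw [hm, sub_mul, map_sub, h, sub_self]
  | add x y hx hy => rw [map_add, mul_add, map_add, hx, hy, add_zero]

/-- the external products span the cohomology of a power -/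
lemma span_extProd (b : ℕ) : Submodule.span K (Set.range fun v : Fin b → W.H X =>
    (extProd W.toCohomologyData (A := pt k) 1 v : W.H (cart X b))) = ⊤ := by
  induction b with
  | zero =>
    rw [eq_top_iff]
    rintro x -
    have h1 : (1 : W.H (pt k)) ≠ 0 := by
      intro h
      apply trL_pt_ne_zero W
      rw [h, map_zero]
    obtain ⟨c, hc⟩ := Ro.exists_smul_of_dim_zero W (X := pt k) (Ro.power_pt_dim 0) h1 x
    have h2 : (extProd W.toCohomologyData (A := pt k) 1 (Fin.elim0 : Fin 0 → W.H X) :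
        W.H (cart X 0)) = (1 : W.H (pt k)) := by
      change W.pullA (𝟙 (pt k).toOver) 1 * (1 : W.H (pt k)) = 1
      rw [map_one, mul_one]
    have h3 : x = c • (extProd W.toCohomologyData (A := pt k) 1 (Fin.elim0 : Fin 0 → W.H X) :
        W.H (cart X 0)) := by
      rw [h2]
      exact hc
    rw [h3]
    exact Submodule.smul_mem _ _ (Submodule.subset_span ⟨Fin.elim0, rfl⟩)
  | succ b ih =>
    rw [eq_top_iff]
    rintro z -
    let m : TensorProduct K (W.H (cart X b)) (W.H X) →ₗ[K] W.H ((cart X b).prod X) :=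
      LinearMap.mul' K _ ∘ₗ
        TensorProduct.map (W.pullA (fst (cart X b) X)).toLinearMap
          (W.pullA (snd (cart X b) X)).toLinearMap
    have hm : ∀ a b', m (TensorProduct.tmul K a b') =
        W.pull (fst (cart X b) X) a * W.pull (snd (cart X b) X) b' := fun a b' => rfl
    obtain ⟨s, rfl⟩ := (W.kunneth (cart X b) X m hm).2 z
    induction s using TensorProduct.induction_on with
    | zero => rw [map_zero]; exact Submodule.zero_mem _
    | tmul a y =>
      have ha : a ∈ Submodule.span K (Set.range fun v : Fin b → W.H X =>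
        (extProd W.toCohomologyData (A := pt k) 1 v : W.H (cart X b))) := by rw [ih]; trivial
      induction ha using Submodule.span_induction with
      | mem a ha =>
        obtain ⟨v, rfl⟩ := ha
        refine Submodule.subset_span ⟨Fin.snoc v y, ?_⟩
        change extProd W.toCohomologyData (A := pt k) 1 (Fin.snoc v y : Fin (b + 1) → W.H X) = _
        rw [Can.extProd_succ, hm, Fin.snoc_last]
        congr 3
        funext i
        rw [Fin.snoc_castSucc]
      | zero => rw [TensorProduct.zero_tmul, map_zero]; exact Submodule.zero_mem _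
      | add a a' _ _ ha ha' =>
        rw [TensorProduct.add_tmul, map_add]; exact Submodule.add_mem _ ha ha'
      | smul c a _ ha => rw [← TensorProduct.smul_tmul', map_smul]; exact Submodule.smul_mem _ _ ha
    | add x y hx hy => rw [map_add]; exact Submodule.add_mem _ hx hy

/-- a class on a power is determined by its pairings with external products -/
lemma eq_of_extProd {b : ℕ} {z z' : W.H (cart X b)}
    (h : ∀ v : Fin b → W.H X, W.trL (cart X b) (z * (extProd W.toCohomologyData (A := pt k) 1 v :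
      W.H (cart X b))) = W.trL (cart X b) (z' * (extProd W.toCohomologyData (A := pt k) 1 v :
      W.H (cart X b)))) : z = z' := by
  rw [← sub_eq_zero]
  refine (W.trace _).nondegenerate _ fun y => ?_
  change W.trL (cart X b) ((z - z') * y) = 0
  have hy : y ∈ Submodule.span K (Set.range fun v : Fin b → W.H X =>
    (extProd W.toCohomologyData (A := pt k) 1 v : W.H (cart X b))) := by
    rw [span_extProd]; trivial
  induction hy using Submodule.span_induction with
  | mem y hy =>
    obtain ⟨v, rfl⟩ := hy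
    rw [sub_mul, map_sub, h, sub_self]
  | zero => rw [mul_zero, map_zero]
  | add a b _ _ ha hb => rw [mul_add, map_add, ha, hb, add_zero]
  | smul c a _ ha => rw [mul_smul_comm, map_smul, ha, smul_zero]

/-- the explicit generator of a power of a determinant -/
noncomputable def altExt {m b b₀ : ℕ} (e : (Σ _ : Fin m, Fin b) ≃ Fin b₀) (g : Fin b → W.H X) :
    W.H (cart X b₀) :=
  ∑ P : Fin m → Fin b → Fin b, (∏ y, (eps (P y) : K)) •
    (extProd W.toCohomologyData (A := pt k) 1 fun q => g (P (e.symm q).1 (e.symm q).2) :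
      W.H (cart X b₀))

/-- the values of the explicit generator -/
lemma trL_altExt (p : Bool) {m b b₀ : ℕ} (e : (Σ _ : Fin m, Fin b) ≃ Fin b₀) :
    ∃ c : K, c ≠ 0 ∧ ∀ g : Fin b → W.H X, (∀ i, g i ∈ par W p X) →
      ∀ v : (Σ _ : Fin m, Fin b) → W.H X, W.trL (cart X b₀) (altExt W e g *
        (extProd W.toCohomologyData (A := pt k) 1 fun q => v (e.symm q) : W.H (cart X b₀))) =
      c * ∏ y, Matrix.det (Matrix.of fun s t => W.pairing X (v ⟨y, s⟩) (g t)) := by
  obtain ⟨c', hc', h'⟩ := exists_tr_mul W p X b₀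
  have hs : (if p then (-1 : K) else 1) ^ (m * b) ≠ 0 := by
    cases p <;> simp
  refine ⟨c' * (W.trL (pt k) 1 * (if p then (-1 : K) else 1) ^ (m * b)), ?_, fun g hg v => ?_⟩
  · refine mul_ne_zero ?_ (mul_ne_zero (trL_pt_ne_zero W) hs)
    rcases hc' with rfl | rfl <;> simp
  have hterm : ∀ P : Fin m → Fin b → Fin b, W.trL (cart X b₀)
      (((∏ y, (eps (P y) : K)) • (extProd W.toCohomologyData (A := pt k) 1
        (fun q => g (P (e.symm q).1 (e.symm q).2)) : W.H (cart X b₀))) *
        (extProd W.toCohomologyData (A := pt k) 1 fun q => v (e.symm q) : W.H (cart X b₀))) =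
      c' * (W.trL (pt k) 1 * (if p then (-1 : K) else 1) ^ (m * b)) *
        ∏ y, (eps (P y) * ∏ s, W.trL X (v ⟨y, s⟩ * g (P y s))) := by
    intro P
    rw [smul_mul_assoc, map_smul, smul_eq_mul, h' _ _ fun i => hg _]
    have h1 : ∏ q, W.trL X (g (P (e.symm q).1 (e.symm q).2) * v (e.symm q)) =
        ∏ q : Σ _ : Fin m, Fin b, W.trL X (g (P q.1 q.2) * v q) :=
      Equiv.prod_comp e.symm (fun q => W.trL X (g (P q.1 q.2) * v q))
    have h3 : ∀ q : Σ _ : Fin m, Fin b, W.trL X (g (P q.1 q.2) * v q) =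
        (if p then (-1 : K) else 1) * W.trL X (v q * g (P q.1 q.2)) :=
      fun q => trL_mul_par W p (hg _) _
    rw [h1, prod_congr rfl fun q _ => h3 q, prod_mul_distrib, prod_const, card_univ,
      Fintype.card_sigma, Fintype.prod_sigma, prod_mul_distrib]
    simp only [Fintype.card_fin, sum_const, card_univ, smul_eq_mul]
    ring
  rw [altExt, sum_mul, map_sum, sum_congr rfl fun P _ => hterm P, ← mul_sum]
  congr 1
  have h2 : ∀ y : Fin m, ∑ P : Fin b → Fin b, eps P * ∏ s, W.trL X (v ⟨y, s⟩ * g (P s)) =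
      Matrix.det (Matrix.of fun s t => W.pairing X (v ⟨y, s⟩) (g t)) := by
    intro y
    have h3 := sum_eps_mul (Matrix.of fun t s => W.trL X (v ⟨y, s⟩ * g t))
    rw [← Matrix.det_transpose] at h3
    exact h3
  rw [← prod_congr rfl fun y _ => h2 y, prod_univ_sum, Fintype.piFinset_univ]

/-- uniqueness of the generator -/
lemma eq_smul_altExt (p : Bool) {m b b₀ : ℕ} (e : (Σ _ : Fin m, Fin b) ≃ Fin b₀)
    {g : Fin b → W.H X} (hg : ∀ i, g i ∈ par W p X)
    {f : Fin m → Fin b → W.H X} (hf : ∀ y, LinearIndependent K (f y))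
    (hfg : ∀ y, Submodule.span K (Set.range (f y)) = Submodule.span K (Set.range g))
    {z : W.H (cart X b₀)} {a : K}
    (hz : ∀ v : (Σ _ : Fin m, Fin b) → W.H X,
      W.pairing (cart X b₀) z (extProd W.toCohomologyData (A := pt k) 1 fun q => v (e.symm q)) =
        a * ∏ y, Matrix.det (Matrix.of fun s t => W.pairing X (v ⟨y, s⟩) (f y t))) :
    ∃ c : K, z = c • altExt W e g := by
  obtain ⟨c, hc, h⟩ := trL_altExt W (X := X) p e
  choose C hC hCf using fun y => exists_matrix_of_span (hf y) (hfg y).le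
  refine ⟨a * (∏ y, (C y).det) * c⁻¹, eq_of_extProd W fun v => ?_⟩
  have h1 : W.trL (cart X b₀) (z * (extProd W.toCohomologyData (A := pt k) 1 v :
      W.H (cart X b₀))) = a * ∏ y, Matrix.det (Matrix.of fun s t =>
        W.pairing X (v (e ⟨y, s⟩)) (f y t)) := by
    have h2 := hz fun q => v (e q)
    simp only [Equiv.apply_symm_apply] at h2
    exact h2
  have h3 : W.trL (cart X b₀) (altExt W e g * (extProd W.toCohomologyData (A := pt k) 1 v :
      W.H (cart X b₀))) = c * ∏ y, Matrix.det (Matrix.of fun s t =>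
        W.pairing X (v (e ⟨y, s⟩)) (g t)) := by
    have h2 := h g hg fun q => v (e q)
    simp only [Equiv.apply_symm_apply] at h2
    exact h2
  rw [h1, smul_mul_assoc, map_smul, h3, smul_eq_mul]
  have h4 : ∀ y, Matrix.det (Matrix.of fun s t => W.pairing X (v (e ⟨y, s⟩)) (f y t)) =
      Matrix.det (Matrix.of fun s t => W.pairing X (v (e ⟨y, s⟩)) (g t)) * (C y).det := by
    intro y
    rw [← Matrix.det_mul]
    congr 1
    ext s t
    rw [Matrix.mul_apply]
    change W.trL X (v (e ⟨y, s⟩) * f y t) = _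
    rw [hCf, mul_sum, map_sum]
    refine sum_congr rfl fun s' _ => ?_
    rw [mul_smul_comm, map_smul, smul_eq_mul, mul_comm]
    rfl
  rw [prod_congr rfl fun y _ => h4 y, prod_mul_distrib]
  field_simp

/-- the pairing of products of squares of determinants with `a × a` -/
theorem trL_prod_sqC (p : Bool) {m b b₀ : ℕ} (e : (Σ _ : Fin m, Fin b) ≃ Fin b₀)
    {g : Fin b → W.H X} (hg : ∀ i, g i ∈ par W p X) :
    ∃ c : K, c ≠ 0 ∧ ∀ z ∈ W.evK (cart X b₀),
      W.trL ((cart X b₀).prod (cart X b₀)) ((List.ofFn fun y =>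
        sqC W (slot X e false y) (slot X e true y) g).prod *
      (W.pullA (fst (cart X b₀) (cart X b₀)) z * W.pullA (snd (cart X b₀) (cart X b₀)) z)) =
      c * (W.trL (cart X b₀) (z * altExt W e g) * W.trL (cart X b₀) (z * altExt W e g)) := by
  obtain ⟨c, hc, h⟩ := exists_slot_sign W p (X := X) e
  refine ⟨(c : K), by rcases hc with rfl | rfl <;> simp, fun z hze => ?_⟩
  have htr : ∀ (x y : W.H (cart X b₀)), W.trL ((cart X b₀).prod (cart X b₀))
      (W.pullA (fst (cart X b₀) (cart X b₀)) x * W.pullA (snd (cart X b₀) (cart X b₀)) y) =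
        W.trL _ x * W.trL _ y := fun x y => W.tr_prod _ _ x y
  have hcomm : ∀ A B : W.H (cart X b₀),
      W.trL ((cart X b₀).prod (cart X b₀))
        ((W.pull (fst (cart X b₀) (cart X b₀)) A * W.pull (snd (cart X b₀) (cart X b₀)) B) *
        (W.pullA (fst (cart X b₀) (cart X b₀)) z * W.pullA (snd (cart X b₀) (cart X b₀)) z)) =
      W.trL _ (z * A) * W.trL _ (z * B) := by
    intro A B
    have h1 : W.pull (snd (cart X b₀) (cart X b₀)) B * W.pullA (fst (cart X b₀) (cart X b₀)) z =
        W.pullA (fst (cart X b₀) (cart X b₀)) z * W.pull (snd (cart X b₀) (cart X b₀)) B :=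
      (W.evK_comm _ _ _ (W.pull_evK _ _ hze)).symm
    rw [W.evK_comm _ z A hze, W.evK_comm _ z B hze, ← htr,
      map_mul (W.pullA (fst (cart X b₀) (cart X b₀))) A z,
      map_mul (W.pullA (snd (cart X b₀) (cart X b₀))) B z, mul_assoc,
      ← mul_assoc (W.pull (snd (cart X b₀) (cart X b₀)) B), h1]
    simp only [mul_assoc]
    rfl
  have hsq : ∀ y : Fin m, sqC W (slot X e false y) (slot X e true y) g =
      ∑ R : (Fin b → Fin b) × (Fin b → Fin b), ((eps R.1 : K) * eps R.2) •
        wd W (slot X e false y) (slot X e true y) (g ∘ R.1) (g ∘ R.2) := by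
    intro y
    rw [sqC, Fintype.sum_prod_type]
  simp only [hsq]
  rw [ofFn_prod_sum (Ω := K) (α := fun _ : Fin m => (Fin b → Fin b) × (Fin b → Fin b))
    (fun _ R => (eps R.1 : K) * eps R.2)
    (fun y R => wd W (slot X e false y) (slot X e true y) (g ∘ R.1) (g ∘ R.2)), sum_mul, map_sum]
  let ext : (Fin m → Fin b → Fin b) → W.H (cart X b₀) := fun P =>
    extProd W.toCohomologyData (A := pt k) 1 fun q => g (P (e.symm q).1 (e.symm q).2)
  have h1 : ∀ R : Fin m → (Fin b → Fin b) × (Fin b → Fin b),
      W.trL ((cart X b₀).prod (cart X b₀)) ((∏ y, (eps (R y).1 : K) * eps (R y).2) •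
        (List.ofFn fun y => wd W (slot X e false y) (slot X e true y) (g ∘ (R y).1)
          (g ∘ (R y).2)).prod *
        (W.pullA (fst (cart X b₀) (cart X b₀)) z * W.pullA (snd (cart X b₀) (cart X b₀)) z)) =
      (c : K) * (((∏ y, (eps (R y).1 : K)) * W.trL _ (z * ext fun y => (R y).1)) *
        ((∏ y, (eps (R y).2 : K)) * W.trL _ (z * ext fun y => (R y).2))) := by
    intro R
    rw [h (fun y => g ∘ (R y).1) (fun y => g ∘ (R y).2) (fun _ _ => hg _) fun _ _ => hg _,
      smul_mul_assoc, map_smul, smul_mul_assoc, ← Int.cast_smul_eq_zsmul K, map_smul, hcomm]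
    simp only [Function.comp_apply]
    rw [smul_eq_mul, smul_eq_mul]
    simp only [prod_mul_distrib]
    change _ * ((c : K) * (W.trL _ (z * ext fun y => (R y).1) *
      W.trL _ (z * ext fun y => (R y).2))) = _
    ring
  rw [sum_congr rfl fun R _ => h1 R, ← mul_sum]
  congr 1
  have h2 : W.trL (cart X b₀) (z * altExt W e g) =
      ∑ P : Fin m → Fin b → Fin b, (∏ y, (eps (P y) : K)) * W.trL _ (z * ext P) := by
    rw [altExt, mul_sum, map_sum]
    refine sum_congr rfl fun P _ => ?_
    rw [mul_smul_comm, map_smul, smul_eq_mul]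
  rw [h2, sum_mul_sum, ← Equiv.sum_comp (Equiv.arrowProdEquivProdArrow (Fin m)
    (fun _ => Fin b → Fin b) (fun _ => Fin b → Fin b)).symm, Fintype.sum_prod_type]
  rfl

/-- **Determinants which are not orthogonal to the classes of algebraic cycles.** -/
theorem nontrivial_of_not_orthogonal {j b : ℕ}
    {g : Fin b → W.H X} (hg : ∀ p, g p ∈ W.gr X j) (hli : LinearIndependent K g)
    (hspan : Submodule.span K (Set.range g) = W.gr X j) {a' : K} (ha' : a' ≠ 0)
    (hsq : ∀ (T : SmProjVar k) (V V' : Fin b → (T.toOver ⟶ X.toOver)),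
      a' • sqC W V V' g ∈ W.algClasses T)
    {m b₀ : ℕ} (hm : 0 < m) {w z : W.H (cart X b₀)}
    (hw : IsDeterminant W.toCohomologyData (fun _ : Fin m => W.gr X j) w)
    (hzA : z ∈ W.algClasses (cart X b₀)) (hwz : W.pairing (cart X b₀) w z ≠ 0) :
    ∃ (T : SmProjVar k) (V V' : Fin b → (T.toOver ⟶ X.toOver)), ∃ x ∈ W.algClasses T,
        W.trL T ((a' • sqC W V V' g) * x) ≠ 0 := by
  have hfin : Module.Finite K (W.H X) := (W.graded X).finite
  have hgp : ∀ p, g p ∈ par W (decide (Odd j)) X := fun p => gr_le_par W X j (hg p)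
  obtain ⟨r, f, e, a, ha, hf, hw'⟩ := hw
  have hr : r = fun _ => b := by
    funext y
    have h1 := finrank_span_eq_card (hf y).1
    rw [(hf y).2, Fintype.card_fin] at h1
    have h2 := finrank_span_eq_card hli
    rw [hspan, Fintype.card_fin] at h2
    rw [← h1, ← h2]
  subst hr
  obtain ⟨c, hc⟩ := eq_smul_altExt W _ e hgp (fun y => (hf y).1)
    (fun y => (hf y).2.trans hspan.symm) hw'
  obtain ⟨c', hc', h⟩ := trL_prod_sqC W _ e hgp
  have hze : z ∈ W.evK _ := W.algClasses_le_evK _ hzA
  have h1 : W.trL (cart X b₀) (z * altExt W e g) ≠ 0 := by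
    intro h0
    apply hwz
    change W.trL (cart X b₀) (w * z) = 0
    rw [hc, smul_mul_assoc, map_smul, ← W.evK_comm _ z _ hze, h0, smul_zero]
  have h2 := h z hze
  have h3 : W.trL ((cart X b₀).prod (cart X b₀)) ((List.ofFn fun y => a' •
        sqC W (slot X e false y) (slot X e true y) g).prod *
      (W.pullA (fst (cart X b₀) (cart X b₀)) z * W.pullA (snd (cart X b₀) (cart X b₀)) z)) ≠
      0 := by
    rw [list_prod_smul, smul_mul_assoc, map_smul, h2]
    exact smul_ne_zero (pow_ne_zero _ ha') (mul_ne_zero hc' (mul_ne_zero h1 h1))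
  obtain ⟨m, rfl⟩ : ∃ m', m = m' + 1 := ⟨m - 1, by omega⟩
  rw [List.ofFn_succ, List.prod_cons, mul_assoc] at h3
  refine ⟨_, _, _, _, ?_, h3⟩
  refine W.mul_mem_algClasses _ _ (list_prod_mem_alg W _ fun x hx => ?_) _
    (W.mul_mem_algClasses _ _ (W.pull_mem_algClasses _ _ hzA) _ (W.pull_mem_algClasses _ _ hzA))
  rw [List.mem_ofFn] at hx
  obtain ⟨y, rfl⟩ := hx
  exact hsq _ _ _

end Pool.Agent.Helper11.BD
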