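import Mathlib
import Pool.Agent.Helper11.BD.Hodge
import Pool.Agent.Helper11.BD.Orth

/-!
# Betti determinants: the final form
-/

universe u v w

open CategoryTheory Finset

namespace Pool.Agent.Helper11.BD

open Pool.Agent.Helper10 hiding IsAlgAut parityPart
open SmProjVar
open Pool.Agent.Helper11.Obs (IsNumTrivial)

variable {k : Type u} [Field k] {K : Type v} [Field K] [CharZero K]
  (W : WeilCohomology.{u, v, w} k K) {X : SmProjVar k}

/-- the Lefschetz standard conjecture does not depend on the coefficients -/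
theorem lefschetzStandard_iff' (F F' : Subfield K) {d : X.Z 1}
    (hd : HardLefschetz W.toCohomologyData X d) :
    LefschetzStandard W.toCohomologyData F X d ↔ LefschetzStandard W.toCohomologyData F' X d :=
  (lefschetzStandard_iff W hd (ratField_le F)).symm.trans
    (lefschetzStandard_iff W hd (ratField_le F'))

theorem main_tfae (F F' : Subfield K) {d : X.Z 1} (hd : HardLefschetz W.toCohomologyData X d) :
    List.TFAE [LefschetzStandard W.toCohomologyData F' X d,
      LefschetzStandard W.toCohomologyData F X d,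
      ∀ i < X.dim, ∃ m, 0 < m ∧ HasNonorthogonalDeterminant W.toCohomologyData
        fun _ : Fin m => W.gr X (2 * X.dim - i),
      ∀ i < X.dim, ∃ (N : ℕ) (c : Fin N → ℕ), (∀ y, c y ≤ X.dim) ∧ (∃ y, c y = i) ∧
        HasAlgebraicDeterminant W.toCohomologyData F fun y => W.gr X (c y),
      ∀ (N : ℕ) (c : Fin N → ℕ), HasAlgebraicDeterminant W.toCohomologyData F
        fun y : Fin (N * 2) => W.gr X (c y.divNat),
      ∀ i < X.dim, ¬ HasNumTrivialDeterminant W.toCohomologyData F
        fun _ : Fin 2 => W.gr X (2 * X.dim - i),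
      ∀ (N : ℕ) (c : Fin N → ℕ), ¬ HasNumTrivialDeterminant W.toCohomologyData F
        fun y => W.gr X (c y)] := by
  have h0 := lefschetzStandard_iff' W F F' hd
  have h := lefschetz_mixed W (F := F) hd
  tfae_have 1 ↔ 2 := h0.symm
  tfae_have 2 ↔ 4 := h.out 0 1
  tfae_have 2 → 5 := fun h1 => hasAlgebraicDeterminant_squares W ((h.out 0 2).mp h1)
  tfae_have 5 → 4 := fun h1 i hi => by
    refine ⟨X.dim * 2, fun y => y.divNat, fun y => y.divNat.2.le,
      ⟨finProdFinEquiv (⟨i, hi⟩, 0), ?_⟩, h1 X.dim fun y => y⟩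
    have h2 : (finProdFinEquiv.symm (finProdFinEquiv ((⟨i, hi⟩, 0) : Fin X.dim × Fin 2))).1 =
        ⟨i, hi⟩ := by rw [Equiv.symm_apply_apply]
    exact congrArg Fin.val h2
  tfae_have 2 ↔ 6 := h.out 0 3
  tfae_have 2 ↔ 7 := h.out 0 4
  tfae_have 2 → 3 := fun h1 i hi => by
    have h3 : ∀ i, HasAlgebraicDeterminant W.toCohomologyData F
      fun _ : Fin 2 => W.gr X i := (h.out 0 2).mp h1
    have h4 : ∀ i < X.dim, ¬ HasNumTrivialDeterminant W.toCohomologyData F
      fun _ : Fin 2 => W.gr X (2 * X.dim - i) := (h.out 0 3).mp h1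
    obtain ⟨b, z, hz, hdet⟩ := h3 (2 * X.dim - i)
    have h2 := h4 i hi
    refine ⟨2, by omega, b, z, hdet, ?_⟩
    by_contra hcon
    push Not at hcon
    exact h2 ⟨b, z, hz, ⟨cycleSpan_le (F := F) W _ hz, hcon⟩, hdet⟩
  tfae_have 3 → 2 := fun h1 => by
    refine standard_of_nontrivial W hd fun i r hir hr b g f M Λ hb hdet hΛF hΛ => ?_
    obtain ⟨m, hm, b₀, w, hw, a, ha, hwa⟩ := h1 i (by omega)
    have hi : 2 * X.dim - i = i + 2 * r := by omega
    rw [hi] at hw
    have hfp : ∀ p, f p ∈ par W (decide (Odd (i + 2 * r))) X :=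
      fun p => gr_le_par W X _ (hb.f_mem p)
    exact nontrivial_of_not_orthogonal W hb.f_mem hb.f_li hb.f_span hdet
      (fun T V V' => cycleSpan_le (F := F) W _ (det_smul_sqC_mem W _ V V' f hfp M hΛF hΛ))
      hm hw ha hwa
  tfae_finish

theorem main_iff (F : Subfield K) {d : X.Z 1} (hd : HardLefschetz W.toCohomologyData X d) :
    (∀ b, W.StandardD (cart X b)) ↔
      ∀ (N : ℕ) (G : Fin N → Submodule K (W.H X)), (∀ y, ∃ i, G y ≤ W.gr X i) →
        ¬ HasNumTrivialDeterminant W.toCohomologyData F G := by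
  refine (standardD_iff W (F := F) hd).trans ?_
  constructor
  · rintro h3 N G hG ⟨b, z, h1, h2, h4⟩
    exact h3 N b G z hG h1 h2 h4
  · intro h3 N b G z hG h1 h2 h4
    exact h3 N G hG ⟨b, z, h1, h2, h4⟩

end Pool.Agent.Helper11.BD
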